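import Pool.Agent.NUX.Br1
import Pool.Agent.NT.OutDefs

/-!
E2 (bridges with exactly n letters, every n): the free monoid of the bridges; cut points, first and last irreducible
pieces, sums over concatenations, the Kraft inequality.
-/

set_option autoImplicit false

namespace HexObs

namespace E2

open Finset TS

open scoped ENNReal

lemma app {s t : List Bool} (hs : s ∈ BU) (ht : t ∈ BU) : s ++ t ∈ BU := by
  obtain ⟨a, ha⟩ := hs
  obtain ⟨b, hb⟩ := ht
  exact ⟨a + b, Brd_append ha hb⟩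

lemma nil_BU : ([] : List Bool) ∈ BU := ⟨0, nil_mem_Brd⟩

lemma IU_BU {p : List Bool} (h : p ∈ IU) : p ∈ BU := by
  obtain ⟨r, h⟩ := h
  exact ⟨r, h.1⟩

lemma IU_ne {p : List Bool} (h : p ∈ IU) : p ≠ [] := by
  obtain ⟨r, h⟩ := h
  exact h.2.1

lemma IU_len {p : List Bool} (h : p ∈ IU) : 1 ≤ p.length := List.length_pos_iff.2 (IU_ne h)

lemma IU_irr {p s u : List Bool} (h : p ∈ IU) (hs : s ∈ BU) (hu : u ∈ BU) (e : p = s ++ u) : s = [] ∨ u = [] := by
  obtain ⟨r, h⟩ := h
  obtain ⟨a, ha⟩ := hs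
  obtain ⟨b, hb⟩ := hu
  exact h.2.2 a b s u ha hb e

/-- two cut points of a bridge -/
theorem cmp {s s' u u' : List Bool} (hs : s ∈ BU) (hu : u ∈ BU) (hs' : s' ∈ BU) (h : s ++ u = s' ++ u')
    (hl : s.length ≤ s'.length) : ∃ v ∈ BU, s' = s ++ v ∧ u = v ++ u' := by
  obtain ⟨v, hv⟩ : ∃ v, s' = s ++ v := by
    have h1 : s <+: s' := List.prefix_of_prefix_length_le (List.prefix_append s u)
      (h ▸ List.prefix_append s' u') hl
    obtain ⟨v, hv⟩ := h1
    exact ⟨v, hv.symm⟩
  have hu2 : u = v ++ u' := by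
    rw [hv, List.append_assoc] at h
    exact List.append_cancel_left h
  obtain ⟨a, ha⟩ := hs
  obtain ⟨b, hb⟩ := hu
  obtain ⟨c, hc⟩ := hs'
  have hd : dx up s s.length = up := (mem_Brd.1 ha).2.2.1
  have h4 : lev s s.length = 3 * a := (mem_Brd.1 ha).2.2.2
  have hcut : ∀ j, 1 ≤ j → j ≤ v.length → 3 * (a : ℤ) < lev (s ++ v) (s.length + j) := by
    intro j h1 h2
    rw [lev_cat hd, h4]
    have h5 : lev u j = lev v j := by
      rw [hu2]
      exact lev_append (by omega)
    have h6 := ((mem_Brd.1 hb).1 j h1 (by rw [hu2, List.length_append]; omega)).1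
    rw [h5] at h6
    omega
  exact ⟨v, ⟨_, (Brd_cancel ha (hv ▸ hc) hcut).2⟩, hv, hu2⟩

/-- the first piece -/
lemma first {t : List Bool} (ht : t ∈ BU) (hne : t ≠ []) : ∃ p ∈ IU, ∃ u ∈ BU, t = p ++ u := by
  obtain ⟨T, hT⟩ := ht
  have h1 : 1 ≤ T := by
    rcases Nat.eq_zero_or_pos T with h | h
    · subst h
      rw [Brd_zero] at hT
      exact absurd hT hne
    · exact h
  obtain ⟨r, s, u, -, -, h2, h3, h4⟩ := Brd_first hT h1
  exact ⟨s, ⟨r, h2⟩, u, ⟨_, h3⟩, h4⟩

lemma first_uniq {p p' u u' : List Bool} (hp : p ∈ IU) (hp' : p' ∈ IU) (hu : u ∈ BU) (hu' : u' ∈ BU)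
    (h : p ++ u = p' ++ u') : p = p' := by
  obtain ⟨r, hp⟩ := hp
  obtain ⟨r', hp'⟩ := hp'
  obtain ⟨b, hu⟩ := hu
  obtain ⟨b', hu'⟩ := hu'
  exact (Irr_unique hp hp' hu hu' h).1

private lemma last_aux {s s' p p' : List Bool} (hs : s ∈ BU) (hs' : s' ∈ BU) (hp : p ∈ IU) (hp' : p' ∈ IU)
    (h : s ++ p = s' ++ p') (hl : s.length ≤ s'.length) : s = s' := by
  obtain ⟨v, hv, h1, h2⟩ := cmp hs (IU_BU hp) hs' h hl
  rcases IU_irr hp hv (IU_BU hp') h2 with h3 | h3
  · rw [h1, h3, List.append_nil]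
  · exact absurd h3 (IU_ne hp')

lemma last_uniq {s s' p p' : List Bool} (hs : s ∈ BU) (hs' : s' ∈ BU) (hp : p ∈ IU) (hp' : p' ∈ IU)
    (h : s ++ p = s' ++ p') : s = s' := by
  rcases le_total s.length s'.length with hl | hl
  · exact last_aux hs hs' hp hp' h hl
  · exact (last_aux hs' hs hp' hp h.symm hl).symm

/-- the piece of a bridge that contains the letter number m + 1 -/
theorem split_at : ∀ (N : ℕ) (t : List Bool), t.length ≤ N → t ∈ BU → ∀ m, m < t.length →
    ∃ s ∈ BU, ∃ p ∈ IU, ∃ u ∈ BU, t = s ++ (p ++ u) ∧ s.length ≤ m ∧ m < s.length + p.length := by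
  intro N
  induction N with
  | zero =>
    intro t ht _ m hm
    omega
  | succ N ih =>
    intro t ht h m hm
    have hne : t ≠ [] := by
      rintro rfl
      simp at hm
    obtain ⟨p, hp, u, hu, rfl⟩ := first h hne
    have h1 := IU_len hp
    rw [List.length_append] at ht hm
    by_cases h2 : m < p.length
    · exact ⟨[], nil_BU, p, hp, u, hu, rfl, Nat.zero_le _, by simpa using h2⟩
    · obtain ⟨s, hs, q, hq, v, hv, h3, h4, h5⟩ := ih u (by omega) hu (m - p.length) (by omega)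
      refine ⟨p ++ s, app (IU_BU hp) hs, q, hq, v, hv, ?_, ?_, ?_⟩
      · rw [h3, List.append_assoc]
      · rw [List.length_append]
        omega
      · rw [List.length_append]
        omega

/-! ### Sums over concatenations -/

/-- every word of P is a word of S followed by a word of a set that depends on the first word -/
lemma cat_le {P S : Set (List Bool)} {T : List Bool → Set (List Bool)} {B : ℝ≥0∞}
    (h : ∀ t ∈ P, ∃ s ∈ S, ∃ u ∈ T s, t = s ++ u) (hB : ∀ s ∈ S, gf (T s) ≤ B) : gf P ≤ gf S * B := by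
  classical
  unfold gf
  rw [← ENNReal.tsum_mul_right]
  choose! f hf g hg hfg using h
  let ψ : P → Σ s : S, T s := fun t => ⟨⟨f t, hf t t.2⟩, ⟨g t, hg t t.2⟩⟩
  have hψ : Function.Injective ψ := by
    intro a b hab
    have h1 : f a = f b := congrArg (fun p : (Σ s : S, T s) => (p.1 : List Bool)) hab
    have h2 : g a = g b := congrArg (fun p : (Σ s : S, T s) => (p.2 : List Bool)) hab
    apply Subtype.ext
    rw [hfg a a.2, hfg b b.2, h1, h2]
  calc ∑' t : P, wE t = ∑' t : P, wE (ψ t).1 * wE (ψ t).2 := by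
        apply tsum_congr
        intro t
        rw [← wE_append]
        show wE t = wE (f t ++ g t)
        rw [← hfg t t.2]
    _ ≤ ∑' p : (Σ s : S, T s), wE p.1 * wE p.2 :=
        ENNReal.tsum_comp_le_tsum_of_injective hψ (fun p : (Σ s : S, T s) => wE p.1 * wE p.2)
    _ = ∑' s : S, wE s * gf (T s) := by
        rw [ENNReal.tsum_sigma (fun (s : S) (u : T s) => wE s * wE u)]
        apply tsum_congr
        intro s
        rw [ENNReal.tsum_mul_left]
        rfl
    _ ≤ ∑' s : S, wE s * B := ENNReal.tsum_le_tsum fun s => mul_le_mul' le_rfl (hB s s.2)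

/-! ### Kraft -/

/-- no word of A is a bridge of A followed by a nonempty bridge -/
def Anti (A : Set (List Bool)) : Prop := A ⊆ BU ∧ ∀ s ∈ A, ∀ v ∈ BU, s ++ v ∈ A → v = []

lemma wE_nil : wE [] = 1 := by
  unfold wE
  simp

lemma gf_single (t : List Bool) : gf {t} = wE t := by
  have h := gf_finset {t}
  rw [Finset.coe_singleton, Finset.sum_singleton] at h
  exact h

lemma gf_sub_nil {A : Set (List Bool)} (h : ∀ t ∈ A, t = []) : gf A ≤ 1 := by
  have h1 : A ⊆ {[]} := fun t ht => h t ht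
  refine (gf_mono h1).trans ?_
  rw [gf_single, wE_nil]

private lemma kraft_aux : ∀ (N : ℕ) (A : Set (List Bool)), Anti A → (∀ t ∈ A, t.length ≤ N) → gf A ≤ 1 := by
  intro N
  induction N with
  | zero =>
    intro A _ h
    exact gf_sub_nil fun t ht => List.length_eq_zero_iff.1 (by have := h t ht; omega)
  | succ N ih =>
    intro A hA h
    by_cases h0 : ([] : List Bool) ∈ A
    · exact gf_sub_nil fun t ht => hA.2 [] h0 t (hA.1 ht) ht
    · have h1 : gf A ≤ gf IU * 1 := by
        refine cat_le (T := fun p => {u | u ∈ BU ∧ p ++ u ∈ A}) (fun t ht => ?_) fun p hp => ?_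
        · obtain ⟨p, hp, u, hu, h2⟩ := first (hA.1 ht) (fun h3 => h0 (h3 ▸ ht))
          exact ⟨p, hp, u, ⟨hu, h2 ▸ ht⟩, h2⟩
        · refine ih _ ⟨fun u hu => hu.1, ?_⟩ ?_
          · rintro s ⟨_, hs2⟩ v hv ⟨_, hv3⟩
            rw [← List.append_assoc] at hv3
            exact hA.2 _ hs2 v hv hv3
          · rintro u ⟨_, hu⟩
            have h2 := h _ hu
            have h3 := IU_len hp
            rw [List.length_append] at h2
            omega
      rw [mul_one, BrL.gf_IU] at h1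
      exact h1

/-- **Kraft inequality** -/
theorem kraft {A : Set (List Bool)} (hA : Anti A) : gf A ≤ 1 := by
  classical
  refine gf_le_of_finset fun s hs => ?_
  refine kraft_aux (s.sup List.length) _ ⟨hs.trans hA.1, fun a ha v hv h => hA.2 a (hs ha) v hv (hs h)⟩ fun t ht => ?_
  exact Finset.le_sup (f := List.length) (Finset.mem_coe.1 ht)

/-- if every word of the antichain A starts with a word of S, then A weighs at most as much as S -/
theorem dominate {A S : Set (List Bool)} (hA : Anti A) (h : ∀ t ∈ A, ∃ s ∈ S, s ∈ BU ∧ ∃ v ∈ BU, t = s ++ v) :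
    gf A ≤ gf S := by
  have h1 : gf A ≤ gf S * 1 := by
    refine cat_le (T := fun s => {v | v ∈ BU ∧ s ++ v ∈ A}) (fun t ht => ?_) fun s _ => ?_
    · obtain ⟨s, hs, _, v, hv, e⟩ := h t ht
      exact ⟨s, hs, v, ⟨hv, e ▸ ht⟩, e⟩
    · refine kraft ⟨fun u hu => hu.1, ?_⟩
      rintro u ⟨_, hs2⟩ v hv ⟨_, hv3⟩
      rw [← List.append_assoc] at hv3
      exact hA.2 _ hs2 v hv hv3
  rwa [mul_one] at h1

end E2

end HexObs
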