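import Mathlib

/-!
E2: regular sequences; sums of squares and convolutions.
-/

set_option autoImplicit false

namespace HexObs

namespace E2

open Finset

/-- partial sums -/
def V (x : ℕ → ℝ) (n : ℕ) : ℝ := ∑ j ∈ range (n + 1), x j

/-- a sequence (the weight of the bridges with n letters) with two indices and the pointwise size V n / n for n even -/
structure Reg (x : ℕ → ℝ) (a b c C : ℝ) : Prop where
  nn : ∀ n, 0 ≤ x n
  le1 : ∀ n, x n ≤ 1
  x0 : x 0 = 1
  ha : 1 / 2 < a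
  ha1 : a ≤ 1
  hb : b < 1
  hc : 0 < c
  hC : 1 ≤ C
  up : ∀ n : ℕ, 1 ≤ n → x n ≤ C * (V x n / n)
  low : ∀ n : ℕ, 1 ≤ n → Even n → c * (V x n / n) ≤ x n
  lo : ∀ m n : ℕ, 1 ≤ m → m ≤ n → c * ((n : ℝ) / m) ^ a * V x m ≤ V x n
  hi : ∀ m n : ℕ, 1 ≤ m → m ≤ n → V x n ≤ C * ((n : ℝ) / m) ^ b * V x m

/-- sums of powers -/
lemma sum_pow {p : ℝ} (hp : 0 < p) (hp1 : p ≤ 1) (K : ℕ) : ∑ j ∈ Icc 1 K, (j : ℝ) ^ (p - 1) ≤ (K : ℝ) ^ p / p := by
  induction K with
  | zero => simp [Real.zero_rpow hp.ne']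
  | succ K ih =>
    rw [Finset.sum_Icc_succ_top (by omega)]
    have hK : (0 : ℝ) < ((K + 1 : ℕ) : ℝ) := by positivity
    have h1 : (K : ℝ) ^ p ≤ ((K + 1 : ℕ) : ℝ) ^ p - p * ((K + 1 : ℕ) : ℝ) ^ (p - 1) := by
      have h2 := _root_.rpow_one_add_le_one_add_mul_self (s := -(1 / ((K + 1 : ℕ) : ℝ))) (by
        rw [neg_le_neg_iff, div_le_one hK]
        have : (0 : ℝ) ≤ K := Nat.cast_nonneg K
        push_cast
        linarith) hp.le hp1
      have h3 : (K : ℝ) = ((K + 1 : ℕ) : ℝ) * (1 + -(1 / ((K + 1 : ℕ) : ℝ))) := by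
        field_simp
        push_cast
        ring
      have h4 : (0 : ℝ) ≤ 1 + -(1 / ((K + 1 : ℕ) : ℝ)) := by
        have : 1 / ((K + 1 : ℕ) : ℝ) ≤ 1 := by
          rw [div_le_one hK]
          have : (0 : ℝ) ≤ K := Nat.cast_nonneg K
          push_cast
          linarith
        linarith
      calc (K : ℝ) ^ p = ((K + 1 : ℕ) : ℝ) ^ p * (1 + -(1 / ((K + 1 : ℕ) : ℝ))) ^ p := by
            conv_lhs => rw [h3]
            rw [Real.mul_rpow hK.le h4]
        _ ≤ ((K + 1 : ℕ) : ℝ) ^ p * (1 + p * -(1 / ((K + 1 : ℕ) : ℝ))) := by gcongr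
        _ = _ := by
            rw [Real.rpow_sub_one hK.ne']
            ring
    have h5 : (K : ℝ) ^ p / p + ((K + 1 : ℕ) : ℝ) ^ (p - 1) ≤ ((K + 1 : ℕ) : ℝ) ^ p / p := by
      rw [div_add' _ _ _ hp.ne', div_le_div_iff_of_pos_right hp]
      linarith
    linarith

namespace Reg

variable {x : ℕ → ℝ} {a b c C : ℝ}

lemma mono (h : Reg x a b c C) {m n : ℕ} (hmn : m ≤ n) : V x m ≤ V x n :=
  Finset.sum_le_sum_of_subset_of_nonneg (Finset.range_mono (by omega)) fun i _ _ => h.nn i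

lemma one_le (h : Reg x a b c C) (n : ℕ) : 1 ≤ V x n := by
  have h1 := h.mono (Nat.zero_le n)
  have h2 : V x 0 = 1 := by
    unfold V
    rw [Finset.sum_range_one, h.x0]
  linarith

/-- V n / n is almost decreasing -/
lemma anti (h : Reg x a b c C) {m n : ℕ} (hm : 1 ≤ m) (hmn : m ≤ n) : V x n / n ≤ C * (V x m / m) := by
  have h1 := h.hi m n hm hmn
  have hm0 : (0 : ℝ) < m := by exact_mod_cast hm
  have hn0 : (0 : ℝ) < n := by exact_mod_cast (show 0 < n by omega)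
  have h2 : (1 : ℝ) ≤ (n : ℝ) / m := by
    rw [one_le_div hm0]
    exact_mod_cast hmn
  have h3 : ((n : ℝ) / m) ^ b ≤ (n : ℝ) / m := by
    calc ((n : ℝ) / m) ^ b ≤ ((n : ℝ) / m) ^ (1 : ℝ) := Real.rpow_le_rpow_of_exponent_le h2 h.hb.le
      _ = _ := Real.rpow_one _
  have hV := h.one_le m
  have hC := h.hC
  rw [div_le_iff₀ hn0]
  calc V x n ≤ C * ((n : ℝ) / m) ^ b * V x m := h1
    _ ≤ C * ((n : ℝ) / m) * V x m := by gcongr
    _ = _ := by
      field_simp

/-- the sum of the squares of V j / j -/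
lemma sq_sum (h : Reg x a b c C) {K : ℕ} (hK : 1 ≤ K) :
    ∑ j ∈ Icc 1 K, (V x j / j) ^ 2 ≤ (1 / (c ^ 2 * (2 * a - 1))) * (V x K ^ 2 / K) := by
  have hK0 : (0 : ℝ) < K := by exact_mod_cast hK
  have ha := h.ha
  have ha1 := h.ha1
  have hc := h.hc
  have hp : 0 < 2 * a - 1 := by linarith
  have hV := h.one_le K
  have h1 : ∀ j ∈ Icc 1 K, (V x j / j) ^ 2 ≤ (V x K ^ 2 / (c ^ 2 * (K : ℝ) ^ (2 * a))) * (j : ℝ) ^ (2 * a - 1 - 1) := by
    intro j hj
    rw [Finset.mem_Icc] at hj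
    have hj0 : (0 : ℝ) < j := by exact_mod_cast (show 0 < j by omega)
    have h2 := h.lo j K hj.1 hj.2
    have h3 : V x j ≤ V x K / (c * ((K : ℝ) / j) ^ a) := by
      rw [le_div_iff₀ (by positivity)]
      linarith
    have hVj : 0 ≤ V x j := by
      have := h.one_le j
      linarith
    have h4 : (V x j) ^ 2 ≤ (V x K / (c * ((K : ℝ) / j) ^ a)) ^ 2 := pow_le_pow_left₀ hVj h3 2
    have h5 : (((K : ℝ) / j) ^ a) ^ 2 = (K : ℝ) ^ (2 * a) / (j : ℝ) ^ (2 * a) := by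
      rw [← Real.rpow_natCast, ← Real.rpow_mul (by positivity), Real.div_rpow hK0.le hj0.le]
      norm_num [mul_comm]
    have h6 : (j : ℝ) ^ (2 * a - 1 - 1) = (j : ℝ) ^ (2 * a) / (j : ℝ) ^ 2 := by
      rw [show 2 * a - 1 - 1 = 2 * a - 2 by ring, Real.rpow_sub hj0]
      norm_num
    rw [div_pow, h6]
    calc V x j ^ 2 / (j : ℝ) ^ 2 ≤ (V x K / (c * ((K : ℝ) / j) ^ a)) ^ 2 / (j : ℝ) ^ 2 := by gcongr
      _ = _ := by
        rw [div_pow, mul_pow, h5]
        have : (0 : ℝ) < (j : ℝ) ^ (2 * a) := by positivity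
        field_simp
  refine (Finset.sum_le_sum h1).trans ?_
  rw [← Finset.mul_sum]
  have h2 := sum_pow hp (by linarith) K
  calc (V x K ^ 2 / (c ^ 2 * (K : ℝ) ^ (2 * a))) * ∑ j ∈ Icc 1 K, (j : ℝ) ^ (2 * a - 1 - 1)
      ≤ (V x K ^ 2 / (c ^ 2 * (K : ℝ) ^ (2 * a))) * ((K : ℝ) ^ (2 * a - 1) / (2 * a - 1)) := by gcongr
    _ = _ := by
      rw [Real.rpow_sub_one hK0.ne']
      field_simp

/-- 1 is small -/
lemma one_le_sq (h : Reg x a b c C) {K : ℕ} (hK : 1 ≤ K) : 1 ≤ (1 / c ^ 2) * (V x K ^ 2 / K) := by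
  have hK0 : (1 : ℝ) ≤ K := by exact_mod_cast hK
  have h1 := h.lo 1 K le_rfl hK
  rw [Nat.cast_one, div_one] at h1
  have h2 := h.one_le 1
  have hc := h.hc
  have ha := h.ha
  have h3 : c * (K : ℝ) ^ (1 / 2 : ℝ) ≤ V x K := by
    calc c * (K : ℝ) ^ (1 / 2 : ℝ) ≤ c * (K : ℝ) ^ a * 1 := by
          rw [mul_one]
          gcongr
      _ ≤ c * (K : ℝ) ^ a * V x 1 := by gcongr
      _ ≤ _ := h1
  have h4 : (c * (K : ℝ) ^ (1 / 2 : ℝ)) ^ 2 ≤ V x K ^ 2 := pow_le_pow_left₀ (by positivity) h3 2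
  have h5 : ((K : ℝ) ^ (1 / 2 : ℝ)) ^ 2 = K := by
    rw [← Real.rpow_natCast, ← Real.rpow_mul (by positivity)]
    norm_num
  rw [mul_pow, h5] at h4
  rw [one_div, inv_mul_eq_div, le_div_iff₀ (by positivity), le_div_iff₀ (by positivity)]
  linarith

/-- the constant of conv -/
noncomputable def KC (a c C : ℝ) : ℝ := 2 * (1 / c ^ 2 + C ^ 4 * (1 / (c ^ 2 * (2 * a - 1))))

lemma KC_pos (h : Reg x a b c C) : 0 < KC a c C := by
  have ha := h.ha
  have hc := h.hc
  have hC := h.hC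
  unfold KC
  have : 0 < 2 * a - 1 := by linarith
  positivity

/-- **restricted convolution** -/
theorem conv (h : Reg x a b c C) {K : ℕ} (hK : 1 ≤ K) (N : ℕ) :
    ∑ j ∈ range (K + 1), (if j ≤ N then x (N - j) * x j else 0) ≤ KC a c C * (V x K ^ 2 / K) := by
  have hC := h.hC
  have hsq := h.sq_sum hK
  have h1 := h.one_le_sq hK
  have hC4 : (1 : ℝ) ≤ C ^ 4 := one_le_pow₀ hC
  obtain ⟨y, hy⟩ : ∃ y : ℕ → ℝ, y = fun j => if j = 0 then 1 else C ^ 2 * (V x j / j) := ⟨_, rfl⟩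
  have hy0 : ∀ j, 0 ≤ y j := by
    intro j
    rw [hy]
    simp only
    split_ifs
    · exact zero_le_one
    · have := h.one_le j
      positivity
  -- x is below y, also with a larger argument
  have hxy : ∀ i j : ℕ, j ≤ i → x i ≤ y j := by
    intro i j hij
    rw [hy]
    simp only
    split_ifs with h0
    · exact h.le1 i
    · have h2 := h.up i (by omega)
      have h3 := h.anti (m := j) (n := i) (by omega) hij
      calc x i ≤ C * (V x i / i) := h2
        _ ≤ C * (C * (V x j / j)) := by gcongr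
        _ = _ := by ring
  have hys : ∑ j ∈ range (K + 1), y j ^ 2 ≤ KC a c C / 2 * (V x K ^ 2 / K) := by
    rw [Finset.sum_range_eq_add_Ico _ (by omega)]
    have e1 : y 0 ^ 2 = 1 := by
      rw [hy]
      simp
    have e2 : ∑ j ∈ Ico 1 (K + 1), y j ^ 2 = C ^ 4 * ∑ j ∈ Icc 1 K, (V x j / j) ^ 2 := by
      rw [Finset.mul_sum]
      refine Finset.sum_congr (by ext j; simp only [Finset.mem_Ico, Finset.mem_Icc]; omega) fun j hj => ?_
      rw [Finset.mem_Icc] at hj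
      rw [hy]
      simp only
      rw [if_neg (by omega)]
      ring
    rw [e1, e2]
    unfold KC
    have h4 : C ^ 4 * ∑ j ∈ Icc 1 K, (V x j / j) ^ 2 ≤ C ^ 4 * ((1 / (c ^ 2 * (2 * a - 1))) * (V x K ^ 2 / K)) := by
      gcongr
    nlinarith
  have hmul : ∀ p q s t : ℝ, 0 ≤ q → 0 ≤ s → p ≤ s → q ≤ t → p * q ≤ s ^ 2 + t ^ 2 := by
    intro p q s t hq hs h1 h2
    have h3 : p * q ≤ s * t := mul_le_mul h1 h2 hq hs
    nlinarith [sq_nonneg (s - t), sq_nonneg s, sq_nonneg t]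
  rcases le_or_gt K N with h7 | h7
  · have h5 : ∀ j ∈ range (K + 1), (if j ≤ N then x (N - j) * x j else 0) ≤ y (K - j) ^ 2 + y j ^ 2 := by
      intro j hj
      rw [Finset.mem_range] at hj
      rw [if_pos (by omega)]
      exact hmul _ _ _ _ (h.nn j) (hy0 _) (hxy (N - j) (K - j) (by omega)) (hxy j j le_rfl)
    refine (Finset.sum_le_sum h5).trans ?_
    have h6 := Finset.sum_range_reflect (fun j => y j ^ 2) (K + 1)
    simp only [Nat.add_sub_cancel] at h6
    rw [Finset.sum_add_distrib, h6]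
    linarith
  · have h4 : ∑ j ∈ range (K + 1), (if j ≤ N then x (N - j) * x j else 0) = ∑ j ∈ range (N + 1), x (N - j) * x j := by
      rw [← Finset.sum_filter]
      refine Finset.sum_congr ?_ fun _ _ => rfl
      ext j
      simp only [Finset.mem_filter, Finset.mem_range]
      omega
    rw [h4]
    have h5 : ∀ j ∈ range (N + 1), x (N - j) * x j ≤ y (N - j) ^ 2 + y j ^ 2 := by
      intro j _
      exact hmul _ _ _ _ (h.nn j) (hy0 _) (hxy (N - j) (N - j) le_rfl) (hxy j j le_rfl)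
    refine (Finset.sum_le_sum h5).trans ?_
    have h6 := Finset.sum_range_reflect (fun j => y j ^ 2) (N + 1)
    simp only [Nat.add_sub_cancel] at h6
    rw [Finset.sum_add_distrib, h6]
    have h8 : ∑ j ∈ range (N + 1), y j ^ 2 ≤ ∑ j ∈ range (K + 1), y j ^ 2 :=
      Finset.sum_le_sum_of_subset_of_nonneg (Finset.range_mono (by omega)) fun i _ _ => by positivity
    linarith

/-- the size of the bound of conv -/
theorem scale_sq (h : Reg x a b c C) {K n : ℕ} (hK : 1 ≤ K) (hKn : K ≤ n) :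
    V x K ^ 2 / K ≤ (1 / c ^ 2) * (((K : ℝ) / n) ^ (2 * a - 1) * (V x n ^ 2 / n)) := by
  have hK0 : (0 : ℝ) < K := by exact_mod_cast hK
  have hn0 : (0 : ℝ) < n := by exact_mod_cast (show 0 < n by omega)
  have hc := h.hc
  have h1 := h.lo K n hK hKn
  have hV := h.one_le K
  have h2 : V x K ≤ V x n * (((K : ℝ) / n) ^ a / c) := by
    have h3 : ((K : ℝ) / n) ^ a * ((n : ℝ) / K) ^ a = 1 := by
      rw [← Real.mul_rpow (by positivity) (by positivity)]
      have : (K : ℝ) / n * (n / K) = 1 := by field_simp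
      rw [this, Real.one_rpow]
    calc V x K = (c * ((n : ℝ) / K) ^ a * V x K) * (((K : ℝ) / n) ^ a / c) := by
          have : (c * ((n : ℝ) / K) ^ a * V x K) * (((K : ℝ) / n) ^ a / c) =
            (((K : ℝ) / n) ^ a * ((n : ℝ) / K) ^ a) * V x K := by
              field_simp
          rw [this, h3, one_mul]
      _ ≤ _ := by gcongr
  have h3 : V x K ^ 2 ≤ (V x n * (((K : ℝ) / n) ^ a / c)) ^ 2 := pow_le_pow_left₀ (by linarith) h2 2
  have h4 : (((K : ℝ) / n) ^ a) ^ 2 = ((K : ℝ) / n) ^ (2 * a - 1) * ((K : ℝ) / n) := by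
    rw [← Real.rpow_natCast, ← Real.rpow_mul (by positivity), Real.rpow_sub_one (by positivity)]
    have : (K : ℝ) / n ≠ 0 := by positivity
    field_simp
    push_cast
    rfl
  rw [mul_pow, div_pow, h4] at h3
  rw [div_le_iff₀ hK0]
  refine h3.trans (le_of_eq ?_)
  field_simp

/-- a single length -/
theorem single (h : Reg x a b c C) {j n : ℕ} {d : ℝ} (hd : 0 < d) (hj : d * n ≤ j) (hjn : j ≤ n) (hn : 1 ≤ n) :
    x j ≤ C / d * (V x n / n) := by
  have hn0 : (0 : ℝ) < n := by exact_mod_cast hn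
  have hj0 : (0 : ℝ) < j := lt_of_lt_of_le (by positivity) hj
  have hj1 : 1 ≤ j := by exact_mod_cast hj0
  have hC := h.hC
  have h1 := h.one_le j
  have h2 := h.mono hjn
  have h3 : 0 ≤ V x n := by linarith
  calc x j ≤ C * (V x j / j) := h.up j hj1
    _ ≤ C * (V x n / (d * n)) := by gcongr
    _ = _ := by
      field_simp

end Reg

end E2

end HexObs
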