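import Pool.Agent.E2.Piece
import Pool.Agent.E2.Reg

/-!
E2: bridges with exactly n letters; one cut point in the middle, hereditary classes, tails.
-/

set_option autoImplicit false

namespace HexObs

namespace E2

open Finset TS NTm

open scoped ENNReal

/-- the weight of the bridges with n letters -/
noncomputable def xB (n : ℕ) : ℝ := (gf (BW n)).toReal

lemma gf_BW (n : ℕ) : gf (BW n) = ENNReal.ofReal (xB n) := (ENNReal.ofReal_toReal (BW_ne_top n)).symm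

lemma xB_nn (n : ℕ) : 0 ≤ xB n := ENNReal.toReal_nonneg

lemma gf_BLe (n : ℕ) : gf (BLe n) = ENNReal.ofReal (V xB n) := by
  have h1 : BLe n = ⋃ j ∈ range (n + 1), BW j := by
    ext t
    simp only [Set.mem_iUnion, Finset.mem_range]
    constructor
    · rintro ⟨h1, h2⟩
      exact ⟨t.length, by omega, h1, rfl⟩
    · rintro ⟨j, hj, h1, h2⟩
      exact ⟨h1, by omega⟩
  rw [h1, gf_biUnion]
  · unfold V
    rw [ENNReal.ofReal_sum_of_nonneg fun i _ => xB_nn i]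
    exact Finset.sum_congr rfl fun j _ => gf_BW j
  · intro i _ j _ hij
    rw [Set.disjoint_left]
    rintro t ⟨_, h2⟩ ⟨_, h3⟩
    exact hij (h2.symm.trans h3)

/-- division -/
lemma div_of_mul {q : ℝ≥0∞} {v w : ℝ} (hv : 0 < v) (h : q * ENNReal.ofReal v ≤ ENNReal.ofReal w) :
    q ≤ ENNReal.ofReal (w / v) := by
  calc q = q * ENNReal.ofReal v * ENNReal.ofReal (1 / v) := by
        rw [mul_assoc, ← ENNReal.ofReal_mul hv.le, mul_one_div_cancel hv.ne', ENNReal.ofReal_one, mul_one]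
    _ ≤ ENNReal.ofReal w * ENNReal.ofReal (1 / v) := mul_le_mul' h le_rfl
    _ = ENNReal.ofReal (w / v) := by
        rcases le_total 0 w with hw | hw
        · rw [← ENNReal.ofReal_mul hw, mul_one_div]
        · rw [ENNReal.ofReal_of_nonpos hw, zero_mul, ENNReal.ofReal_of_nonpos (div_nonpos_of_nonpos_of_nonneg hw hv.le)]

variable {a b c C : ℝ}

/-- the ratio of the weights -/
lemma ratio (h : Reg xB a b c C) {n : ℕ} (hn : 1 ≤ n) (he : Even n) {w : ℝ} (hw : 0 ≤ w) :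
    ENNReal.ofReal (w * (V xB n / n)) ≤ ENNReal.ofReal (w / c) * gf (BW n) := by
  have hc := h.hc
  rw [gf_BW, ← ENNReal.ofReal_mul (by positivity)]
  apply ENNReal.ofReal_le_ofReal
  have h1 := h.low n hn he
  calc w * (V xB n / n) = w / c * (c * (V xB n / n)) := by
        field_simp
    _ ≤ _ := by gcongr

lemma near_pre' (h : Reg xB a b c C) {E : Set (List Bool)} {n m : ℕ} {d : ℝ} (hd : 0 < d) (hm : m ≤ n)
    (hdm : d * n ≤ ((n - m : ℕ) : ℝ)) (hn : 1 ≤ n) (he : Even n) :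
    gf {t | t ∈ BW n ∧ ∃ s ∈ BU, ∃ u ∈ BU, t = s ++ u ∧ s.length ≤ m ∧ s ∈ E} ≤
      gf {s | s ∈ PM E ∧ s.length ≤ m} * (ENNReal.ofReal (C / (c * d)) * gf (BW n)) := by
  have hC := h.hC
  have hc := h.hc
  refine near_pre fun j hj => ?_
  have h1 := h.single (j := n - j) hd (hdm.trans (by exact_mod_cast (by omega : n - m ≤ n - j))) (Nat.sub_le _ _) hn
  rw [gf_BW (n - j)]
  refine (ENNReal.ofReal_le_ofReal h1).trans ((ratio h hn he (by positivity)).trans (le_of_eq ?_))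
  congr 2
  field_simp

lemma near_suf' (h : Reg xB a b c C) {E : Set (List Bool)} {n m : ℕ} {d : ℝ} (hd : 0 < d) (hm : m ≤ n)
    (hdm : d * n ≤ ((n - m : ℕ) : ℝ)) (hn : 1 ≤ n) (he : Even n) :
    gf {t | t ∈ BW n ∧ ∃ s ∈ BU, ∃ u ∈ BU, t = s ++ u ∧ u.length ≤ m ∧ u ∈ E} ≤
      gf {s | s ∈ SM E ∧ s.length ≤ m} * (ENNReal.ofReal (C / (c * d)) * gf (BW n)) := by
  have hC := h.hC
  have hc := h.hc
  refine near_suf fun j hj => ?_
  have h1 := h.single (j := n - j) hd (hdm.trans (by exact_mod_cast (by omega : n - m ≤ n - j))) (Nat.sub_le _ _) hn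
  rw [gf_BW (n - j)]
  refine (ENNReal.ofReal_le_ofReal h1).trans ((ratio h hn he (by positivity)).trans (le_of_eq ?_))
  congr 2
  field_simp

/-- the constant of mid -/
noncomputable def KM (a c C : ℝ) : ℝ := Reg.KC a c C / c ^ 3

lemma KM_pos (h : Reg xB a b c C) : 0 < KM a c C := by
  have h1 := h.KC_pos
  have h2 := h.hc
  unfold KM
  positivity

/-- a piece of Q, followed by at most K letters -/
lemma mid (h : Reg xB a b c C) {Q : Set (List Bool)} {n K : ℕ} (hK : 1 ≤ K) (hKn : K ≤ n) (he : Even n) :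
    gf {t | t ∈ BW n ∧ ∃ s ∈ BU, ∃ p ∈ Q, ∃ u ∈ BU, t = s ++ (p ++ u) ∧ u.length ≤ K} ≤
      gf {p | p ∈ Q ∧ p.length ≤ n} *
        (ENNReal.ofReal (KM a c C * ((K : ℝ) / n) ^ (2 * a - 1) * V xB n) * gf (BW n)) := by
  have hC := h.hC
  have hc := h.hc
  have hn : 1 ≤ n := hK.trans hKn
  have hV := h.one_le n
  have hKC := h.KC_pos
  refine middle fun N _ => ?_
  have h1 : ∑ j ∈ range (K + 1), (if j ≤ N then gf (BW (N - j)) * gf (BW j) else 0) =
      ENNReal.ofReal (∑ j ∈ range (K + 1), (if j ≤ N then xB (N - j) * xB j else 0)) := by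
    rw [ENNReal.ofReal_sum_of_nonneg]
    · refine Finset.sum_congr rfl fun j _ => ?_
      split_ifs
      · rw [gf_BW, gf_BW, ← ENNReal.ofReal_mul (xB_nn _)]
      · simp
    · intro j _
      split_ifs
      · exact mul_nonneg (xB_nn _) (xB_nn _)
      · exact le_rfl
  rw [h1]
  have h2 := h.conv hK N
  have h3 := h.scale_sq hK hKn
  have h4 : ∑ j ∈ range (K + 1), (if j ≤ N then xB (N - j) * xB j else 0) ≤
      (Reg.KC a c C / c ^ 2 * ((K : ℝ) / n) ^ (2 * a - 1) * V xB n) * (V xB n / n) := by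
    refine h2.trans ?_
    calc Reg.KC a c C * (V xB K ^ 2 / K) ≤
          Reg.KC a c C * ((1 / c ^ 2) * (((K : ℝ) / n) ^ (2 * a - 1) * (V xB n ^ 2 / n))) := by gcongr
      _ = _ := by ring
  refine (ENNReal.ofReal_le_ofReal h4).trans ((ratio h hn he (by positivity)).trans (le_of_eq ?_))
  unfold KM
  congr 2
  field_simp

/-- long pieces -/
lemma long_piece (h : Reg xB a b c C) {n : ℕ} (hn : 4 ≤ n) :
    gf {p | p ∈ IU ∧ n / 4 < p.length} ≤ ENNReal.ofReal (8 * C / V xB n) := by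
  have hC := h.hC
  have h1 := tail_IU (n / 4)
  have h2 := h.one_le (n / 4)
  rw [gf_BLe, ← ENNReal.ofReal_one] at h1
  refine (div_of_mul (by linarith) h1).trans (ENNReal.ofReal_le_ofReal ?_)
  have hm : 1 ≤ n / 4 := by omega
  have hm0 : (0 : ℝ) < ((n / 4 : ℕ) : ℝ) := by exact_mod_cast hm
  have h3 := h.hi (n / 4) n hm (Nat.div_le_self _ _)
  have h4 : (n : ℝ) / ((n / 4 : ℕ) : ℝ) ≤ 8 := by
    rw [div_le_iff₀ hm0]
    exact_mod_cast (by omega : n ≤ 8 * (n / 4))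
  have h5 : (1 : ℝ) ≤ (n : ℝ) / ((n / 4 : ℕ) : ℝ) := by
    rw [one_le_div hm0]
    exact_mod_cast Nat.div_le_self _ _
  have h6 : ((n : ℝ) / ((n / 4 : ℕ) : ℝ)) ^ b ≤ 8 := by
    calc ((n : ℝ) / ((n / 4 : ℕ) : ℝ)) ^ b ≤ ((n : ℝ) / ((n / 4 : ℕ) : ℝ)) ^ (1 : ℝ) :=
          Real.rpow_le_rpow_of_exponent_le h5 h.hb.le
      _ = (n : ℝ) / ((n / 4 : ℕ) : ℝ) := Real.rpow_one _
      _ ≤ 8 := h4
  have hV := h.one_le n
  rw [div_le_div_iff₀ (by linarith) (by linarith), one_mul]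
  calc V xB n ≤ C * ((n : ℝ) / ((n / 4 : ℕ) : ℝ)) ^ b * V xB (n / 4) := h3
    _ ≤ C * 8 * V xB (n / 4) := by gcongr
    _ = _ := by ring

/-- **one cut point in the middle** -/
theorem cut_split (h : Reg xB a b c C) : ∃ K1 : ℝ, 0 < K1 ∧ ∀ (n : ℕ) (d : ℝ) (E1 E2 H : Set (List Bool)), Even n →
    0 < d → d ≤ 1 / 8 → 1 ≤ d * n →
    (∀ s ∈ BU, ∀ u ∈ BU, s ++ u ∈ H → (s ++ u).length = n → n < 2 * s.length → s ∈ E1 ∨ u ∈ E2) →
    gf {t | t ∈ BW n ∧ t ∈ H} ≤ (ENNReal.ofReal (K1 * d ^ (2 * a - 1)) +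
      (gf {s | s ∈ PM E1 ∧ s.length ≤ n} + gf {s | s ∈ SM E2 ∧ s.length ≤ n}) * ENNReal.ofReal (K1 / d)) *
        gf (BW n) := by
  have hC := h.hC
  have hc := h.hc
  have ha := h.ha
  have hKM := KM_pos h
  refine ⟨max (8 * C * KM a c C) (2 * C / c), lt_max_of_lt_right (by positivity), ?_⟩
  intro n d E1 E2 H he hd hd4 hdn hH
  obtain ⟨K1, hK1⟩ : ∃ K1 : ℝ, K1 = max (8 * C * KM a c C) (2 * C / c) := ⟨_, rfl⟩
  rw [← hK1]
  have hK10 : 0 < K1 := by
    rw [hK1]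
    exact lt_max_of_lt_right (by positivity)
  have hn8 : 8 ≤ n := by
    have : (8 : ℝ) ≤ n := by nlinarith [(Nat.cast_nonneg n : (0 : ℝ) ≤ n)]
    exact_mod_cast this
  have hn4 : 4 ≤ n := by omega
  have hn : 1 ≤ n := by omega
  have hn0 : (0 : ℝ) < n := by exact_mod_cast hn
  obtain ⟨K, hK⟩ : ∃ K : ℕ, K = ⌊d * n⌋₊ := ⟨_, rfl⟩
  have hKle : (K : ℝ) ≤ d * n := by
    rw [hK]
    exact Nat.floor_le (by positivity)
  have hK0 : 1 ≤ K := by
    rw [hK]
    exact Nat.le_floor (by exact_mod_cast hdn)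
  have hKge : d * n ≤ 2 * K := by
    have h1 := Nat.lt_floor_add_one (d * (n : ℝ))
    rw [← hK] at h1
    have h2 : (1 : ℝ) ≤ K := by exact_mod_cast hK0
    linarith
  have hKn4 : 8 * K ≤ n := by
    have : (8 : ℝ) * K ≤ n := by nlinarith
    exact_mod_cast this
  have hV := h.one_le n
  -- the covering
  have hsub : {t | t ∈ BW n ∧ t ∈ H} ⊆
      {t | t ∈ BW n ∧ ∃ s ∈ BU, ∃ p ∈ {p | p ∈ IU ∧ n / 4 < p.length}, ∃ u ∈ BU, t = s ++ (p ++ u) ∧ u.length ≤ K} ∪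
      ({t | t ∈ BW n ∧ ∃ s ∈ BU, ∃ u ∈ BU, t = s ++ u ∧ s.length ≤ n - K ∧ s ∈ E1} ∪
       {t | t ∈ BW n ∧ ∃ s ∈ BU, ∃ u ∈ BU, t = s ++ u ∧ u.length ≤ n - K ∧ u ∈ E2}) := by
    rintro t ⟨⟨htB, htl⟩, htH⟩
    obtain ⟨s, hs, p, hp, u, hu, e, h1, h2⟩ := split_at t.length t le_rfl htB (n / 2) (by omega)
    have hl : s.length + p.length + u.length = n := by
      rw [← htl, e, List.length_append, List.length_append]
      omega
    by_cases h3 : u.length ≤ K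
    · left
      exact ⟨⟨htB, htl⟩, s, hs, p, ⟨hp, by omega⟩, u, hu, e, h3⟩
    · right
      have e2 : t = (s ++ p) ++ u := by rw [e, List.append_assoc]
      have hsp : s ++ p ∈ BU := app hs (IU_BU hp)
      have hlsp : (s ++ p).length = s.length + p.length := List.length_append
      rcases hH (s ++ p) hsp u hu (e2 ▸ htH) (by rw [← e2]; exact htl) (by rw [hlsp]; omega) with h4 | h4
      · left
        exact ⟨⟨htB, htl⟩, s ++ p, hsp, u, hu, e2, by rw [hlsp]; omega, h4⟩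
      · right
        exact ⟨⟨htB, htl⟩, s ++ p, hsp, u, hu, e2, by omega, h4⟩
  refine (gf_mono hsub).trans ((gf_union_le _ _).trans ((add_le_add le_rfl (gf_union_le _ _)).trans ?_))
  have b1 := mid h (Q := {p | p ∈ IU ∧ n / 4 < p.length}) hK0 (by omega : K ≤ n) he
  have hdd : d / 2 * n ≤ ((n - (n - K) : ℕ) : ℝ) := by
    rw [Nat.sub_sub_self (by omega)]
    linarith
  have b2 := near_pre' h (E := E1) (n := n) (m := n - K) (half_pos hd) (Nat.sub_le _ _) hdd hn he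
  have b3 := near_suf' h (E := E2) (n := n) (m := n - K) (half_pos hd) (Nat.sub_le _ _) hdd hn he
  have c1 : gf {p | p ∈ {p | p ∈ IU ∧ n / 4 < p.length} ∧ p.length ≤ n} ≤ ENNReal.ofReal (8 * C / V xB n) :=
    (gf_mono fun p hp => hp.1).trans (long_piece h hn4)
  have c2 : gf {s | s ∈ PM E1 ∧ s.length ≤ n - K} ≤ gf {s | s ∈ PM E1 ∧ s.length ≤ n} :=
    gf_mono fun s hs => ⟨hs.1, hs.2.trans (Nat.sub_le _ _)⟩
  have c3 : gf {s | s ∈ SM E2 ∧ s.length ≤ n - K} ≤ gf {s | s ∈ SM E2 ∧ s.length ≤ n} :=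
    gf_mono fun s hs => ⟨hs.1, hs.2.trans (Nat.sub_le _ _)⟩
  have hKd : (C / (c * (d / 2))) ≤ K1 / d := by
    have h1 : 2 * C / c ≤ K1 := by
      rw [hK1]
      exact le_max_right _ _
    calc C / (c * (d / 2)) = 2 * C / c / d := by
          field_simp
      _ ≤ K1 / d := by gcongr
  have d1 : gf {p | p ∈ {p | p ∈ IU ∧ n / 4 < p.length} ∧ p.length ≤ n} *
      (ENNReal.ofReal (KM a c C * ((K : ℝ) / n) ^ (2 * a - 1) * V xB n) * gf (BW n)) ≤
      ENNReal.ofReal (K1 * d ^ (2 * a - 1)) * gf (BW n) := by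
    rw [← mul_assoc]
    refine mul_le_mul' ?_ le_rfl
    refine (mul_le_mul' c1 le_rfl).trans ?_
    rw [← ENNReal.ofReal_mul (by positivity)]
    apply ENNReal.ofReal_le_ofReal
    have h1 : 8 * C * KM a c C ≤ K1 := by
      rw [hK1]
      exact le_max_left _ _
    have h2 : ((K : ℝ) / n) ^ (2 * a - 1) ≤ d ^ (2 * a - 1) := by
      apply Real.rpow_le_rpow (by positivity) _ (by linarith)
      rw [div_le_iff₀ hn0]
      exact hKle
    calc 8 * C / V xB n * (KM a c C * ((K : ℝ) / n) ^ (2 * a - 1) * V xB n) =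
          8 * C * KM a c C * ((K : ℝ) / n) ^ (2 * a - 1) := by
            have : V xB n ≠ 0 := by linarith
            field_simp
      _ ≤ K1 * d ^ (2 * a - 1) := by gcongr
  refine (add_le_add (b1.trans d1) (add_le_add (b2.trans (mul_le_mul' c2 (mul_le_mul'
    (ENNReal.ofReal_le_ofReal hKd) le_rfl))) (b3.trans (mul_le_mul' c3 (mul_le_mul'
    (ENNReal.ofReal_le_ofReal hKd) le_rfl))))).trans (le_of_eq ?_)
  ring

end E2

end HexObs
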