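import Pool.Agent.E2.Odd
import Pool.Agent.NT.LawH

/-!
E2: from the even n to every n.
-/

set_option autoImplicit false

namespace E2F

open Finset

open HexObs hiding pos

open HexObs.SDN HexObs.NTm NTF

open Pool.Agent.NT.ResNat

open scoped Classical

variable {m : ℕ}

lemma card_succ (hm : Even m) (hm1 : 1 ≤ m) : (bridges (m + 1)).card = (bridges m).card := by
  rw [bridges_succ hm hm1, Finset.card_image_of_injective _ up1_inj]

lemma card_filter_succ (hm : Even m) (hm1 : 1 ≤ m) (P : (Fin (m + 1) → Fin 3) → Prop) :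
    ((bridges (m + 1)).filter P).card = ((bridges m).filter fun s => P (up1 s)).card := by
  rw [bridges_succ hm hm1, Finset.filter_image, Finset.card_image_of_injective _ up1_inj]

lemma sum_succ (hm : Even m) (hm1 : 1 ≤ m) (F : (Fin (m + 1) → Fin 3) → ℝ) :
    ∑ s ∈ bridges (m + 1), F s = ∑ s ∈ bridges m, F (up1 s) := by
  rw [bridges_succ hm hm1, Finset.sum_image fun a _ b _ h => up1_inj h]

/-- a bridge ends at a level at least 1 -/
lemma re_ge {n : ℕ} (hn : 1 ≤ n) {s : Fin n → Fin 3} (hs : s ∈ bridges n) : 1 ≤ (pos s n).re := by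
  obtain ⟨L, L0, L1, L2, L3⟩ := levels s
  rw [mem_bridges] at hs
  have h1 := (hs.2 n hn le_rfl).1
  rw [L1 n le_rfl] at h1 ⊢
  have h2 : 0 < L n := by
    have : (0 : ℝ) < L n := by linarith
    exact_mod_cast this
  have h3 := L3 n le_rfl
  have h4 : 2 ≤ L n := by
    split_ifs at h3
    · omega
    · omega
  have : (2 : ℝ) ≤ L n := by exact_mod_cast h4
  linarith

lemma norm_up {z : ℂ} (hz : 1 ≤ z.re) : ‖z‖ ≤ ‖z + 1‖ ∧ ‖z + 1‖ ≤ 2 * ‖z‖ := by
  have h1 : 1 ≤ ‖z‖ := hz.trans ((le_abs_self _).trans (Complex.abs_re_le_norm z))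
  have h3 : ‖z + 1‖ ≤ ‖z‖ + 1 := by
    have := norm_add_le z 1
    rwa [norm_one] at this
  constructor
  · apply le_of_sq_le_sq _ (norm_nonneg _)
    rw [Complex.sq_norm, Complex.sq_norm, Complex.normSq_apply, Complex.normSq_apply, Complex.add_re, Complex.add_im,
      Complex.one_re, Complex.one_im]
    nlinarith
  · linarith

lemma size_succ (hm : Even m) (hm1 : 1 ≤ m) : size m ≤ size (m + 1) ∧ size (m + 1) ≤ 2 * size m := by
  have h1 : ∑ s ∈ bridges m, ‖pos s m‖ ^ 2 ≤ ∑ s ∈ bridges (m + 1), ‖pos s (m + 1)‖ ^ 2 := by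
    rw [sum_succ hm hm1]
    refine Finset.sum_le_sum fun s hs => ?_
    rw [pos_up1_top hm]
    exact pow_le_pow_left₀ (norm_nonneg _) (norm_up (re_ge hm1 hs)).1 2
  have h2 : ∑ s ∈ bridges (m + 1), ‖pos s (m + 1)‖ ^ 2 ≤ 4 * ∑ s ∈ bridges m, ‖pos s m‖ ^ 2 := by
    rw [sum_succ hm hm1, Finset.mul_sum]
    refine Finset.sum_le_sum fun s hs => ?_
    rw [pos_up1_top hm]
    calc ‖pos s m + 1‖ ^ 2 ≤ (2 * ‖pos s m‖) ^ 2 := pow_le_pow_left₀ (norm_nonneg _) (norm_up (re_ge hm1 hs)).2 2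
      _ = 4 * ‖pos s m‖ ^ 2 := by ring
  unfold size
  rw [card_succ hm hm1]
  constructor
  · exact Real.sqrt_le_sqrt (div_le_div_of_nonneg_right h1 (Nat.cast_nonneg _))
  · have h4 : (2 : ℝ) * Real.sqrt ((∑ s ∈ bridges m, ‖pos s m‖ ^ 2) / ((bridges m).card : ℝ)) =
        Real.sqrt (4 * ((∑ s ∈ bridges m, ‖pos s m‖ ^ 2) / ((bridges m).card : ℝ))) := by
      rw [Real.sqrt_mul (by norm_num), show (4 : ℝ) = 2 ^ 2 by norm_num, Real.sqrt_sq (by norm_num)]
    rw [h4]
    apply Real.sqrt_le_sqrt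
    rw [← mul_div_assoc]
    exact div_le_div_of_nonneg_right h2 (Nat.cast_nonneg _)

lemma size_pos {n : ℕ} (hn : 1 ≤ n) (hne : (bridges n).Nonempty) : 1 ≤ size n := by
  have hc : (0 : ℝ) < ((bridges n).card : ℝ) := by exact_mod_cast hne.card_pos
  have h1 := size_sq hne
  have h2 : ((bridges n).card : ℝ) ≤ ∑ s ∈ bridges n, ‖pos s n‖ ^ 2 := by
    calc ((bridges n).card : ℝ) = ∑ s ∈ bridges n, (1 : ℝ) := by rw [sum_const, nsmul_eq_mul, mul_one]
      _ ≤ _ := Finset.sum_le_sum fun s hs => by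
          have h3 : 1 ≤ ‖pos s n‖ := (re_ge hn hs).trans ((le_abs_self _).trans (Complex.abs_re_le_norm _))
          exact one_le_pow₀ h3
  rw [← h1] at h2
  have h3 : 1 ≤ size n ^ 2 := by
    by_contra hcon
    push Not at hcon
    nlinarith
  by_contra hcon
  push Not at hcon
  have := size_nonneg n
  nlinarith

/-- **from the even n to every n** -/
theorem facts_N {E : Set ℕ} (hE : Facts E) {N0 : ℕ} (hbig : ∀ n, N0 ≤ n → Even n → n ∈ E)
    (hne : ∀ n, 1 ≤ n → (bridges n).Nonempty) (hsz : ∀ R : ℝ, ∃ n1 : ℕ, ∀ n, n1 ≤ n → R ≤ size n) :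
    Facts {n | 1 ≤ n} := by
  refine ⟨fun n hn => ⟨hn, hne n hn⟩, ?_, ?_, ?_⟩
  · intro ε r hε hr
    obtain ⟨ρ, n0, hρ, h1⟩ := hE.mod ε (r / 4) hε (by positivity)
    obtain ⟨n1, hn1⟩ := hsz (2 / r)
    refine ⟨ρ / 2, max (max N0 n0) n1 + 2, by positivity, fun n hn hnn => ?_⟩
    rcases Nat.even_or_odd n with he | ho
    · refine le_trans ?_ (h1 n (hbig n (by omega) he) (by omega))
      rw [Nat.cast_le]
      apply Finset.card_le_card
      intro s hs
      rw [Finset.mem_filter] at hs ⊢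
      obtain ⟨hs1, i, j, h2, h3, h4, h5⟩ := hs
      have hn0 : (0 : ℝ) ≤ n := Nat.cast_nonneg n
      refine ⟨hs1, i, j, h2, h3, ?_, ?_⟩
      · nlinarith
      · have := size_nonneg n
        nlinarith
    · obtain ⟨m, hm⟩ : ∃ m, n = m + 1 := ⟨n - 1, by omega⟩
      subst hm
      have hme : Even m := by
        rcases Nat.even_or_odd m with h | h
        · exact h
        · rw [Nat.odd_add_one] at ho
          exact absurd h ho
      have hm1 : 1 ≤ m := by omega
      obtain ⟨z1, z2⟩ := size_succ hme hm1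
      have hs0 := size_nonneg m
      have hbig2 := hn1 (m + 1) (by omega)
      rw [div_le_iff₀ hr] at hbig2
      rw [card_filter_succ hme hm1, card_succ hme hm1]
      refine le_trans ?_ (h1 m (hbig m (by omega) hme) (by omega))
      rw [Nat.cast_le]
      apply Finset.card_le_card
      intro s hs
      rw [Finset.mem_filter] at hs ⊢
      obtain ⟨hs1, i, j, h2, h3, h4, h5⟩ := hs
      have hm0 : (1 : ℝ) ≤ m := by exact_mod_cast hm1
      have hρm : ρ / 2 * ((m + 1 : ℕ) : ℝ) ≤ ρ * m := by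
        push_cast
        nlinarith
      rcases Nat.lt_or_ge m j with g1 | g1
      · have g2 : j = m + 1 := by omega
        subst g2
        rcases Nat.lt_or_ge m i with g3 | g3
        · exfalso
          have g4 : i = m + 1 := by omega
          subst g4
          rw [sub_self, norm_zero] at h5
          have := size_nonneg (m + 1)
          nlinarith
        · refine ⟨hs1, i, m, g3, le_rfl, ?_, ?_⟩
          · push_cast at h4 hρm
            linarith
          · rw [pos_up1_top hme, pos_up1 s i g3] at h5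
            have h6 : ‖pos s m + 1 - pos s i‖ ≤ ‖pos s m - pos s i‖ + 1 := by
              have := norm_add_le (pos s m - pos s i) 1
              rw [norm_one] at this
              rwa [show pos s m + 1 - pos s i = pos s m - pos s i + 1 by ring]
            nlinarith
      · rw [pos_up1 s j g1, pos_up1 s i (by omega)] at h5
        refine ⟨hs1, i, j, h2, g1, h4.trans hρm, ?_⟩
        nlinarith
  · intro ε hε
    obtain ⟨κ, n0, hκ, h1⟩ := hE.low ε hε
    refine ⟨κ / 2, max N0 n0 + 2, by positivity, fun n hn hnn => ?_⟩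
    rcases Nat.even_or_odd n with he | ho
    · refine le_trans ?_ (h1 n (hbig n (by omega) he) (by omega))
      rw [Nat.cast_le]
      apply Finset.card_le_card
      intro s hs
      rw [Finset.mem_filter] at hs ⊢
      refine ⟨hs.1, hs.2.trans ?_⟩
      have := size_nonneg n
      nlinarith
    · obtain ⟨m, hm⟩ : ∃ m, n = m + 1 := ⟨n - 1, by omega⟩
      subst hm
      have hme : Even m := by
        rcases Nat.even_or_odd m with h | h
        · exact h
        · rw [Nat.odd_add_one] at ho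
          exact absurd h ho
      have hm1 : 1 ≤ m := by omega
      obtain ⟨z1, z2⟩ := size_succ hme hm1
      rw [card_filter_succ hme hm1, card_succ hme hm1]
      refine le_trans ?_ (h1 m (hbig m (by omega) hme) (by omega))
      rw [Nat.cast_le]
      apply Finset.card_le_card
      intro s hs
      rw [Finset.mem_filter] at hs ⊢
      refine ⟨hs.1, ?_⟩
      have h2 := hs.2
      rw [pos_up1_top hme, Complex.add_re, Complex.one_re] at h2
      nlinarith
  · obtain ⟨C, n0, hC, h1⟩ := hE.four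
    refine ⟨16 * C, max N0 n0 + 2, by positivity, fun n hn hnn => ?_⟩
    rcases Nat.even_or_odd n with he | ho
    · refine (h1 n (hbig n (by omega) he) (by omega)).trans ?_
      have h2 : 0 ≤ size n ^ 4 * ((bridges n).card : ℝ) := by
        have := size_nonneg n
        positivity
      nlinarith
    · obtain ⟨m, hm⟩ : ∃ m, n = m + 1 := ⟨n - 1, by omega⟩
      subst hm
      have hme : Even m := by
        rcases Nat.even_or_odd m with h | h
        · exact h
        · rw [Nat.odd_add_one] at ho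
          exact absurd h ho
      have hm1 : 1 ≤ m := by omega
      obtain ⟨z1, z2⟩ := size_succ hme hm1
      have hs0 := size_nonneg m
      rw [sum_succ hme hm1, card_succ hme hm1]
      calc ∑ s ∈ bridges m, ‖pos (up1 s) (m + 1)‖ ^ 4 ≤ ∑ s ∈ bridges m, 16 * ‖pos s m‖ ^ 4 := by
            refine Finset.sum_le_sum fun s hs => ?_
            rw [pos_up1_top hme]
            calc ‖pos s m + 1‖ ^ 4 ≤ (2 * ‖pos s m‖) ^ 4 := pow_le_pow_left₀ (norm_nonneg _) (norm_up (re_ge hm1 hs)).2 4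
              _ = 16 * ‖pos s m‖ ^ 4 := by ring
        _ = 16 * ∑ s ∈ bridges m, ‖pos s m‖ ^ 4 := by rw [Finset.mul_sum]
        _ ≤ 16 * (C * size m ^ 4 * ((bridges m).card : ℝ)) := by
            have := h1 m (hbig m (by omega) hme) (by omega)
            linarith
        _ ≤ 16 * (C * size (m + 1) ^ 4 * ((bridges m).card : ℝ)) := by
            have : size m ^ 4 ≤ size (m + 1) ^ 4 := pow_le_pow_left₀ hs0 z1 4
            gcongr
        _ = _ := by ring

/-- the Hoelder modulus, every n -/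
theorem hold_N {E : Set ℕ} {N0 : ℕ} (hbig : ∀ n, N0 ≤ n → Even n → n ∈ E) {a : ℝ} (ha : 0 < a) (ha1 : a ≤ 1)
    (hH : HoldA a E) {c : ℝ} (hc : 0 < c) {n1 : ℕ} (hsz : ∀ n : ℕ, n1 ≤ n → c * (n : ℝ) ^ a ≤ size n) :
    HoldA a {n | 1 ≤ n} := by
  intro ε hε
  obtain ⟨M0, n0, hM0, h1⟩ := hH ε hε
  obtain ⟨M, hM⟩ : ∃ M : ℝ, M = 4 * M0 + 2 / c := ⟨_, rfl⟩
  have h2c : 0 < 2 / c := by positivity
  have hM0' : 0 < M := by
    rw [hM]
    positivity
  have hMc : 2 ≤ M * c := by
    rw [hM, add_mul, div_mul_cancel₀ _ hc.ne']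
    have : 0 < 4 * M0 * c := by positivity
    linarith
  refine ⟨M, max (max N0 n0) n1 + 2, hM0', fun n hn hnn => ?_⟩
  rcases Nat.even_or_odd n with he | ho
  · refine le_trans ?_ (h1 n (hbig n (by omega) he) (by omega))
    rw [Nat.cast_le]
    apply Finset.card_le_card
    intro s hs
    rw [Finset.mem_filter] at hs ⊢
    obtain ⟨hs1, i, j, h2, h3, h4⟩ := hs
    refine ⟨hs1, i, j, h2, h3, lt_of_le_of_lt ?_ h4⟩
    have h5 := size_nonneg n
    have h6 : (0 : ℝ) ≤ ((j : ℝ) - i) / n := by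
      have : (i : ℝ) ≤ j := by exact_mod_cast h2.le
      exact div_nonneg (by linarith) (Nat.cast_nonneg _)
    have h7 : M0 ≤ M := by
      rw [hM]
      linarith
    gcongr
  · obtain ⟨m, hm⟩ : ∃ m, n = m + 1 := ⟨n - 1, by omega⟩
    subst hm
    have hme : Even m := by
      rcases Nat.even_or_odd m with h | h
      · exact h
      · rw [Nat.odd_add_one] at ho
        exact absurd h ho
    have hm1 : 1 ≤ m := by omega
    obtain ⟨z1, z2⟩ := size_succ hme hm1
    have hs0 := size_nonneg m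
    have hs1' := size_nonneg (m + 1)
    have hm0 : (1 : ℝ) ≤ m := by exact_mod_cast hm1
    have hm00 : (0 : ℝ) < m := by linarith
    have hn0 : (0 : ℝ) < ((m + 1 : ℕ) : ℝ) := by positivity
    have hbig2 := hsz (m + 1) (by omega)
    rw [card_filter_succ hme hm1, card_succ hme hm1]
    refine le_trans ?_ (h1 m (hbig m (by omega) hme) (by omega))
    rw [Nat.cast_le]
    apply Finset.card_le_card
    intro s hs
    rw [Finset.mem_filter] at hs ⊢
    obtain ⟨hs1, i, j, h2, h3, h4⟩ := hs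
    -- times relative to n and m
    have hrel : ∀ x : ℝ, 0 ≤ x → (x / m) ^ a ≤ 2 * (x / ((m + 1 : ℕ) : ℝ)) ^ a := by
      intro x hx
      calc (x / m) ^ a ≤ (2 * (x / ((m + 1 : ℕ) : ℝ))) ^ a := by
            apply Real.rpow_le_rpow (by positivity) _ ha.le
            rw [div_le_iff₀ hm00, mul_div_assoc', div_mul_eq_mul_div, le_div_iff₀ hn0]
            push_cast
            nlinarith
        _ = (2 : ℝ) ^ a * (x / ((m + 1 : ℕ) : ℝ)) ^ a := Real.mul_rpow (by norm_num) (by positivity)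
        _ ≤ (2 : ℝ) ^ (1 : ℝ) * (x / ((m + 1 : ℕ) : ℝ)) ^ a := by
            gcongr
            norm_num
        _ = _ := by rw [Real.rpow_one]
    have hM4 : M0 ≤ M / 4 := by
      rw [hM]
      linarith
    rcases Nat.lt_or_ge m j with g1 | g1
    · have g2 : j = m + 1 := by omega
      subst g2
      have g3 : i ≤ m := by omega
      rw [pos_up1_top hme, pos_up1 s i g3] at h4
      have g4 : (1 : ℝ) ≤ ((m + 1 : ℕ) : ℝ) - i := by
        have : ((i + 1 : ℕ) : ℝ) ≤ ((m + 1 : ℕ) : ℝ) := by exact_mod_cast (by omega : i + 1 ≤ m + 1)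
        push_cast at this ⊢
        linarith
      have g5 : 1 ≤ (M / 2) * size (m + 1) * ((((m + 1 : ℕ) : ℝ) - i) / ((m + 1 : ℕ) : ℝ)) ^ a := by
        have g6 : ((1 : ℝ) / ((m + 1 : ℕ) : ℝ)) ^ a ≤ ((((m + 1 : ℕ) : ℝ) - i) / ((m + 1 : ℕ) : ℝ)) ^ a := by
          apply Real.rpow_le_rpow (by positivity) _ ha.le
          gcongr
        have g7 : ((1 : ℝ) / ((m + 1 : ℕ) : ℝ)) ^ a * ((m + 1 : ℕ) : ℝ) ^ a = 1 := by
          rw [← Real.mul_rpow (by positivity) hn0.le, one_div, inv_mul_cancel₀ hn0.ne', Real.one_rpow]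
        calc (1 : ℝ) ≤ (M * c / 2) * 1 := by linarith
          _ = (M / 2) * (c * ((m + 1 : ℕ) : ℝ) ^ a) * ((1 : ℝ) / ((m + 1 : ℕ) : ℝ)) ^ a := by
              have g8 : (M / 2) * (c * ((m + 1 : ℕ) : ℝ) ^ a) * ((1 : ℝ) / ((m + 1 : ℕ) : ℝ)) ^ a =
                (M * c / 2) * (((1 : ℝ) / ((m + 1 : ℕ) : ℝ)) ^ a * ((m + 1 : ℕ) : ℝ) ^ a) := by ring
              rw [g8, g7]
          _ ≤ _ := by gcongr
      have h6 : ‖pos s m + 1 - pos s i‖ ≤ ‖pos s m - pos s i‖ + 1 := by
        have := norm_add_le (pos s m - pos s i) 1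
        rw [norm_one] at this
        rwa [show pos s m + 1 - pos s i = pos s m - pos s i + 1 by ring]
      have h7 : M / 2 * size (m + 1) * ((((m + 1 : ℕ) : ℝ) - i) / ((m + 1 : ℕ) : ℝ)) ^ a < ‖pos s m - pos s i‖ := by
        have e1 : M * size (m + 1) * ((((m + 1 : ℕ) : ℝ) - i) / ((m + 1 : ℕ) : ℝ)) ^ a =
          2 * (M / 2 * size (m + 1) * ((((m + 1 : ℕ) : ℝ) - i) / ((m + 1 : ℕ) : ℝ)) ^ a) := by ring
        rw [e1] at h4
        linarith
      have g8 : i < m := by
        rcases Nat.lt_or_ge i m with h | h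
        · exact h
        · exfalso
          have : i = m := by omega
          subst this
          rw [sub_self, norm_zero] at h7
          have : 0 ≤ M / 2 * size (i + 1) * ((((i + 1 : ℕ) : ℝ) - i) / ((i + 1 : ℕ) : ℝ)) ^ a := by
            have : (0 : ℝ) ≤ (((i + 1 : ℕ) : ℝ) - i) / ((i + 1 : ℕ) : ℝ) := div_nonneg (by linarith) hn0.le
            positivity
          linarith
      refine ⟨hs1, i, m, g8, le_rfl, lt_of_le_of_lt ?_ h7⟩
      have g9 : (0 : ℝ) ≤ (m : ℝ) - i := by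
        have : (i : ℝ) ≤ m := by exact_mod_cast g3
        linarith
      have g10 := hrel _ g9
      have g11 : (((m : ℝ) - i) / ((m + 1 : ℕ) : ℝ)) ^ a ≤ ((((m + 1 : ℕ) : ℝ) - i) / ((m + 1 : ℕ) : ℝ)) ^ a := by
        apply Real.rpow_le_rpow (by positivity) _ ha.le
        gcongr
      calc M0 * size m * (((m : ℝ) - i) / m) ^ a ≤ (M / 4) * size (m + 1) *
            (2 * ((((m + 1 : ℕ) : ℝ) - i) / ((m + 1 : ℕ) : ℝ)) ^ a) := by
            have := g10.trans (mul_le_mul_of_nonneg_left g11 (by norm_num : (0 : ℝ) ≤ 2))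
            gcongr
        _ = _ := by ring
    · rw [pos_up1 s j g1, pos_up1 s i (by omega)] at h4
      refine ⟨hs1, i, j, h2, g1, lt_of_le_of_lt ?_ h4⟩
      have g9 : (0 : ℝ) ≤ (j : ℝ) - i := by
        have : (i : ℝ) ≤ j := by exact_mod_cast h2.le
        linarith
      have g10 := hrel _ g9
      have g12 : 0 ≤ (((j : ℝ) - i) / ((m + 1 : ℕ) : ℝ)) ^ a := by positivity
      calc M0 * size m * (((j : ℝ) - i) / m) ^ a ≤ (M / 4) * size (m + 1) * (2 * (((j : ℝ) - i) / ((m + 1 : ℕ) : ℝ)) ^ a) := by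
            gcongr
        _ = M / 2 * (size (m + 1) * (((j : ℝ) - i) / ((m + 1 : ℕ) : ℝ)) ^ a) := by ring
        _ ≤ M * (size (m + 1) * (((j : ℝ) - i) / ((m + 1 : ℕ) : ℝ)) ^ a) := by
            gcongr
            linarith
        _ = _ := by ring

end E2F
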