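import Pool.Agent.E2.Scale
import Pool.Agent.NT.FactsG

/-!
E2: the bridges with exactly n letters, every even n: the properties used in the limit.
-/

set_option autoImplicit false

namespace HexObs

namespace E2

open Finset TS NTm SDN

open scoped ENNReal

variable {l : ℕ → ℕ} {θ cc : ℝ} {a b c C : ℝ}

/-- the even lengths at least n0 of the scale k -/
def AE (l : ℕ → ℕ) (n0 : ℕ) : ℕ → Set ℕ := fun k => {n | Even n ∧ n0 ≤ n ∧ Lf l n = k}

theorem factH_univ (hS : ScaleE l θ cc) (hcc : 4 / 3 ≤ cc) {p : ℝ} (hp : 0 < p) (hpc : p * cc < 1) :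
    FactH p l Set.univ := by
  obtain ⟨K, hK, hgood⟩ := hS.good
  obtain ⟨c', hc'⟩ : ∃ c' : ℝ, c' = (cc + 1 / p) / 2 := ⟨_, rfl⟩
  have h1 : cc < 1 / p := by
    rw [lt_div_iff₀ hp]
    linarith
  have h2 : cc < c' := by
    rw [hc']
    linarith
  have h3 : p * c' < 1 := by
    have h4 : c' < 1 / p := by
      rw [hc']
      linarith
    rw [lt_div_iff₀ hp] at h4
    linarith
  have h4 := factHK_of disp_q deep hS.seq K (by linarith) hp h3
  have h5 : ∀ L, L ∈ GCK K c' l := by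
    intro L j hj
    refine (hgood L j hj).trans ?_
    gcongr
    · norm_num
  intro e he
  obtain ⟨M, L0, hM, h⟩ := h4 e he
  exact ⟨M, L0, hM, fun L _ hL => h L (h5 L) hL⟩

/-- the modulus -/
theorem hcore_of (hS : ScaleE l θ cc) (h : Reg xB a b c C) {p : ℝ} (hp : 0 < p) (hF : FactH p l Set.univ) :
    ∃ n0 : ℕ, ∀ n1 : ℕ, n0 ≤ n1 → HCore p Set.univ (AE l n1) := by
  obtain ⟨D, m1, hD, hm1, hsc⟩ := scale_facts hS h
  obtain ⟨K1, hK1, key⟩ := dev_of h
  have ha := h.ha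
  refine ⟨m1, fun n1 hn1 e he => ?_⟩
  -- the choice of d
  have hlim : Filter.Tendsto (fun j : ℕ => ((1 / 2 : ℝ) ^ (2 * a - 1)) ^ j) Filter.atTop (nhds 0) :=
    tendsto_pow_atTop_nhds_zero_of_lt_one (by positivity)
      (Real.rpow_lt_one (by norm_num) (by norm_num) (by linarith))
  obtain ⟨j0, hj0⟩ := Filter.eventually_atTop.1 (hlim.eventually_lt_const (show 0 < e / (2 * K1) by positivity))
  obtain ⟨j, hj⟩ : ∃ j, j = max j0 3 := ⟨_, rfl⟩
  obtain ⟨d, hd⟩ : ∃ d : ℝ, d = (1 / 2) ^ j := ⟨_, rfl⟩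
  have hd0 : 0 < d := by
    rw [hd]
    positivity
  have hd8 : d ≤ 1 / 8 := by
    rw [hd]
    calc ((1 : ℝ) / 2) ^ j ≤ (1 / 2) ^ 3 := pow_le_pow_of_le_one (by norm_num) (by norm_num) (by rw [hj]; exact le_max_right _ _)
      _ = 1 / 8 := by norm_num
  have hde : K1 * d ^ (2 * a - 1) ≤ e / 2 := by
    have h1 : d ^ (2 * a - 1) = ((1 / 2 : ℝ) ^ (2 * a - 1)) ^ j := by
      rw [hd, ← Real.rpow_natCast, ← Real.rpow_natCast, ← Real.rpow_mul (by norm_num), ← Real.rpow_mul (by norm_num), mul_comm]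
    have h2 := (hj0 j (by rw [hj]; exact le_max_left _ _)).le
    rw [← h1] at h2
    calc K1 * d ^ (2 * a - 1) ≤ K1 * (e / (2 * K1)) := by gcongr
      _ = e / 2 := by field_simp
  obtain ⟨e', he'⟩ : ∃ e' : ℝ, e' = e * d / (2 * K1 * D) := ⟨_, rfl⟩
  have he0 : 0 < e' := by
    rw [he']
    positivity
  obtain ⟨M, L0, hM, hFM⟩ := hF e' he0
  obtain ⟨n2, hn2⟩ := Lf_large hS L0
  obtain ⟨L2, hL2⟩ : ∃ L2 : ℕ, ∀ n, L2 ≤ Lf l n → (1 / d ≤ n ∧ n2 ≤ n) := by
    refine ⟨Lf l (⌈1 / d⌉₊ + n2) + 1, fun n hn => ?_⟩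
    by_contra hcon
    have h1 : n ≤ ⌈1 / d⌉₊ + n2 := by
      by_contra h2
      push Not at h2
      apply hcon
      constructor
      · refine (Nat.le_ceil _).trans ?_
        exact_mod_cast (by omega : ⌈1 / d⌉₊ ≤ n)
      · omega
    have h3 : Lf l n ≤ Lf l (⌈1 / d⌉₊ + n2) := by
      by_contra h4
      push Not at h4
      have h5 := Lf_min h4
      have h6 := Lf_spec hS (⌈1 / d⌉₊ + n2)
      omega
    omega
  refine ⟨2 * M, max L0 L2, by positivity, ?_⟩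
  rintro k - hk n ⟨hev, hn, hLk⟩
  have hn1' : 1 ≤ n := by omega
  have hn0 : (0 : ℝ) < n := by exact_mod_cast hn1'
  obtain ⟨s1, s2, s3, s4⟩ := hsc n (by omega)
  rw [hLk] at s1 s2 s3 s4
  have hspec := Lf_spec hS n
  rw [hLk] at hspec
  obtain ⟨g1, -⟩ := hL2 n (by rw [hLk]; exact (le_max_right _ _).trans hk)
  have hV := h.one_le n
  have hl0 : (0 : ℝ) < l k := by
    have : 1 ≤ l k := hS.seq.one k
    exact_mod_cast this
  obtain ⟨X, hX⟩ : ∃ X : ℝ, X = M * 2 ^ k / (l k : ℝ) ^ p := ⟨_, rfl⟩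
  have hX0 : 0 ≤ X := by
    rw [hX]
    positivity
  have hpos : ∀ i j : ℕ, i < j → (0 : ℝ) ≤ (j : ℝ) - i := by
    intro i j hij
    have : (i : ℝ) ≤ j := by exact_mod_cast hij.le
    linarith
  have hT : gf {t | t ∈ BU ∧ t.length ≤ 2 * n ∧ t ∈ Dev X p} ≤ ENNReal.ofReal (e' * D * V xB n) := by
    refine (gf_mono ?_).trans ((hFM k (Set.mem_univ _) ((le_max_left _ _).trans hk)).trans (ENNReal.ofReal_le_ofReal ?_))
    · rintro t ⟨h1, h2, dir, i, j, h3, h4, h5⟩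
      refine ⟨h1, ?_, dir, i, j, h3, h4, ?_⟩
      · have : (t.length : ℝ) ≤ l k := by exact_mod_cast (by omega : t.length ≤ l k)
        linarith
      · refine le_trans (le_of_eq ?_) h5
        rw [hX, Real.div_rpow (hpos i j h3) hl0.le]
        ring
    · calc e' * Ub k ≤ e' * (D * V xB n) := by gcongr
        _ = _ := by ring
  have h1 := key n d (e' * D) X p hev hd0 hd8 (by
    rw [div_le_iff₀ hd0] at g1
    linarith) (by positivity) hX0 hp.le hT
  refine (gf_mono ?_).trans (h1.trans (mul_le_mul' (ENNReal.ofReal_le_ofReal ?_) le_rfl))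
  · rintro t ⟨h2, dir, i, j, h3, h4, h5⟩
    refine ⟨h2, dir, i, j, h3, by rw [h2.2]; exact h4, ?_⟩
    refine le_trans ?_ h5
    have h6 : (n : ℝ) ≤ l k := by exact_mod_cast (by omega : n ≤ l k)
    have h7 : 2 * X * ((j : ℝ) - i) ^ p = 2 * M * 2 ^ k * (((j : ℝ) - i) ^ p / (l k : ℝ) ^ p) := by
      rw [hX]
      ring
    rw [h7, Real.div_rpow (hpos i j h3) hn0.le]
    have h8 : (n : ℝ) ^ p ≤ (l k : ℝ) ^ p := Real.rpow_le_rpow hn0.le h6 hp.le
    have h9 := hpos i j h3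
    gcongr
  · have h2 : K1 * (d ^ (2 * a - 1) + e' * D / d) = K1 * d ^ (2 * a - 1) + e / 2 := by
      rw [he', mul_add]
      congr 1
      field_simp
    rw [h2]
    linarith

end E2

end HexObs
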