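import Pool.Agent.E2.FinA

/-!
E2: the bridges with exactly n letters, every even n: heights, tail, exponents.
-/

set_option autoImplicit false

namespace HexObs

namespace E2

open Finset TS NTm SDN

open scoped ENNReal

variable {l : ℕ → ℕ} {θ cc : ℝ} {a b c C : ℝ}

lemma BW_ne (h : Reg xB a b c C) {n : ℕ} (hn : 1 ≤ n) (he : Even n) : gf (BW n) ≠ 0 := by
  have h1 := h.low n hn he
  have hV := h.one_le n
  have hc := h.hc
  have hn0 : (0 : ℝ) < n := by exact_mod_cast hn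
  have h2 : 0 < xB n := lt_of_lt_of_le (by positivity) h1
  rw [gf_BW, Ne, ENNReal.ofReal_eq_zero, not_le]
  exact h2

/-- the end of a bridge, additive -/
lemma end_add (dir : Bool) : ∀ s ∈ BU, ∀ u ∈ BU, ((lvl dir (vx oo up (s ++ u) (s ++ u).length) : ℤ) : ℝ) =
    ((lvl dir (vx oo up s s.length) : ℤ) : ℝ) + ((lvl dir (vx oo up u u.length) : ℤ) : ℝ) := by
  intro s hs u _
  rw [List.length_append, lvl_suf hs]
  push_cast
  rfl

/-- the tail of the end -/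
theorem tail_fin (hS : ScaleE l θ cc) (h : Reg xB a b c C) : ∃ (K : ℝ) (n0 : ℕ), 0 < K ∧ ∀ n, n0 ≤ n → Even n → ∀ i : ℕ,
    gf {t | t ∈ BW n ∧ ∃ dir : Bool, (2 : ℝ) ^ i * 2 ^ Lf l n ≤ |((lvl dir (vx oo up t n) : ℤ) : ℝ)|} ≤
      ENNReal.ofReal (K / 2 ^ (12 * i)) * gf (BW n) := by
  obtain ⟨D, m1, hD, hm1, hsc⟩ := scale_facts hS h
  obtain ⟨K2, hK2, key⟩ := tail_of h
  obtain ⟨Kf, L0, hKf, hf⟩ := facts_tail hS.seq
  obtain ⟨n2, hn2⟩ := Lf_large hS L0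
  obtain ⟨K, hK⟩ : ∃ K : ℝ, K = 2 ^ 48 + 2 * (K2 * (Kf * 2 ^ 48 * D)) := ⟨_, rfl⟩
  have hK0 : 0 < K := by
    rw [hK]
    positivity
  refine ⟨K, max m1 n2, hK0, fun n hn he i => ?_⟩
  have hn1 : m1 ≤ n := (le_max_left _ _).trans hn
  obtain ⟨s1, s2, s3, s4⟩ := hsc n hn1
  have hL := hn2 n ((le_max_right _ _).trans hn)
  obtain ⟨L, hLd⟩ : ∃ L, L = Lf l n := ⟨_, rfl⟩
  rw [← hLd] at s1 s2 s3 s4 hL ⊢
  have hspec : 3 * n ≤ l L := by
    rw [hLd]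
    exact Lf_spec hS n
  have hV := h.one_le n
  rcases Nat.lt_or_ge i 4 with hi | hi
  · calc gf {t | t ∈ BW n ∧ ∃ dir : Bool, (2 : ℝ) ^ i * 2 ^ L ≤ |((lvl dir (vx oo up t n) : ℤ) : ℝ)|}
        ≤ 1 * gf (BW n) := by
          rw [one_mul]
          exact gf_mono fun t ht => ht.1
      _ ≤ _ := by
          refine mul_le_mul' ?_ le_rfl
          rw [← ENNReal.ofReal_one]
          apply ENNReal.ofReal_le_ofReal
          rw [le_div_iff₀ (by positivity), one_mul, hK]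
          have h1 : (2 : ℝ) ^ (12 * i) ≤ 2 ^ 48 := pow_le_pow_right₀ (by norm_num) (by omega)
          have : 0 < 2 * (K2 * (Kf * 2 ^ 48 * D)) := by positivity
          linarith
  obtain ⟨i', hi'⟩ : ∃ i', i = i' + 4 := ⟨i - 4, by omega⟩
  have hdir : ∀ dir : Bool, gf {t | t ∈ BW n ∧ (2 : ℝ) ^ i * 2 ^ L ≤ |((lvl dir (vx oo up t t.length) : ℤ) : ℝ)|} ≤
      ENNReal.ofReal (K2 * (Kf * 2 ^ 48 * D / 2 ^ (12 * i))) * gf (BW n) := by
    intro dir
    refine key n (Kf * 2 ^ 48 * D / 2 ^ (12 * i)) ((2 : ℝ) ^ i * 2 ^ L)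
      (fun t => ((lvl dir (vx oo up t t.length) : ℤ) : ℝ)) he (by omega) (by positivity) (end_add dir) ?_
    refine (gf_mono ?_).trans ((hf L i' hL).trans (ENNReal.ofReal_le_ofReal ?_))
    · rintro t ⟨h1, h2, h3⟩
      refine ⟨h1, ?_, dir, le_trans ?_ h3⟩
      · have : (t.length : ℝ) ≤ l L := by exact_mod_cast (by omega : t.length ≤ l L)
        linarith
      · rw [hi', pow_add]
        have : (0 : ℝ) < 2 ^ i' * 2 ^ L := by positivity
        nlinarith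
    · have e1 : (2 : ℝ) ^ (12 * i) = 2 ^ (12 * i') * 2 ^ 48 := by
        rw [hi', ← pow_add]
        congr 1
      have e2 : Kf * 2 ^ 48 * D / 2 ^ (12 * i) = Kf * D / 2 ^ (12 * i') := by
        rw [e1]
        field_simp
      rw [e2]
      calc Kf / 2 ^ (12 * i') * Ub L ≤ Kf / 2 ^ (12 * i') * (D * V xB n) := by gcongr
        _ = _ := by ring
  have hsub : {t | t ∈ BW n ∧ ∃ dir : Bool, (2 : ℝ) ^ i * 2 ^ L ≤ |((lvl dir (vx oo up t n) : ℤ) : ℝ)|} ⊆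
      {t | t ∈ BW n ∧ (2 : ℝ) ^ i * 2 ^ L ≤ |((lvl false (vx oo up t t.length) : ℤ) : ℝ)|} ∪
      {t | t ∈ BW n ∧ (2 : ℝ) ^ i * 2 ^ L ≤ |((lvl true (vx oo up t t.length) : ℤ) : ℝ)|} := by
    rintro t ⟨h1, dir, h2⟩
    rw [← h1.2] at h2
    cases dir
    · left
      exact ⟨h1, h2⟩
    · right
      exact ⟨h1, h2⟩
  refine (gf_mono hsub).trans ((gf_union_le _ _).trans ((add_le_add (hdir _) (hdir _)).trans ?_))
  rw [← add_mul, ← ENNReal.ofReal_add (by positivity) (by positivity)]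
  refine mul_le_mul' (ENNReal.ofReal_le_ofReal ?_) le_rfl
  rw [hK]
  have e1 : K2 * (Kf * 2 ^ 48 * D / 2 ^ (12 * i)) + K2 * (Kf * 2 ^ 48 * D / 2 ^ (12 * i)) =
      2 * (K2 * (Kf * 2 ^ 48 * D)) / 2 ^ (12 * i) := by ring
  rw [e1]
  gcongr
  linarith [show (0 : ℝ) < 2 ^ 48 by norm_num]

/-- few bridges are low -/
theorem hgt_fin (hS : ScaleE l θ cc) (h : Reg xB a b c C) : ∀ e : ℝ, 0 < e → ∃ (κ : ℝ) (n0 : ℕ), 0 < κ ∧
    ∀ n, n0 ≤ n → Even n →
    gf {t | t ∈ BW n ∧ (lev t n : ℝ) ≤ κ * 2 ^ Lf l n} ≤ ENNReal.ofReal e * gf (BW n) := by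
  intro e he
  obtain ⟨D, m1, hD, hm1, hsc⟩ := scale_facts hS h
  obtain ⟨K3, hK3, key⟩ := low_of h
  obtain ⟨b0, hb0, k0, hgrow⟩ := seq_grow hS.seq hS.h0 hS.h1
  obtain ⟨Cm, hCm, hmean⟩ := hS.mean
  obtain ⟨cU, CU, hcU, hCU, hU⟩ := BAR.UU_two
  -- y = Y 2^-j
  obtain ⟨Y, hY⟩ : ∃ Y : ℝ, Y = 3 * Cm * D * 4 * (4 / b0) := ⟨_, rfl⟩
  have hY0 : 0 < Y := by
    rw [hY]
    positivity
  obtain ⟨Z, hZ⟩ : ∃ Z : ℝ, Z = 1 + D * (CU / cU) := ⟨_, rfl⟩
  have hZ0 : 0 < Z := by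
    rw [hZ]
    positivity
  have hlim : Filter.Tendsto (fun j : ℕ => ((1 / 2 : ℝ) ^ (1 / 4 : ℝ)) ^ j) Filter.atTop (nhds 0) :=
    tendsto_pow_atTop_nhds_zero_of_lt_one (by positivity)
      (Real.rpow_lt_one (by norm_num) (by norm_num) (by norm_num))
  obtain ⟨j0, hj0⟩ := Filter.eventually_atTop.1 (hlim.eventually_lt_const (show 0 < e / (K3 * Y * Z) by positivity))
  obtain ⟨j, hj⟩ : ∃ j, j = max j0 2 := ⟨_, rfl⟩
  have hj2 : 2 ≤ j := by
    rw [hj]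
    exact le_max_right _ _
  obtain ⟨n2, hn2⟩ := Lf_large hS (k0 + j)
  refine ⟨(1 / 2) ^ j, max m1 n2, by positivity, fun n hn hev => ?_⟩
  have hn1 : m1 ≤ n := (le_max_left _ _).trans hn
  obtain ⟨s1, s2, s3, s4⟩ := hsc n hn1
  have hL := hn2 n ((le_max_right _ _).trans hn)
  obtain ⟨L, hLd⟩ : ∃ L, L = Lf l n := ⟨_, rfl⟩
  rw [← hLd] at s1 s2 s3 s4 hL ⊢
  have hn1' : 1 ≤ n := by omega
  have hn0 : (0 : ℝ) < n := by exact_mod_cast hn1'
  have hV := h.one_le n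
  obtain ⟨g, hg⟩ : ∃ g : ℕ, g = 2 ^ (L - j) := ⟨_, rfl⟩
  have hg1 : 1 ≤ g := by
    rw [hg]
    exact Nat.one_le_two_pow
  have hgU : 0 < UU g := Num2Aux.UU_pos _
  have hgR : (g : ℝ) = 2 ^ (L - j) := by
    rw [hg]
    push_cast
    rfl
  obtain ⟨y, hy⟩ : ∃ y : ℝ, y = Y * (1 / 2) ^ j := ⟨_, rfl⟩
  have hy0 : 0 < y := by
    rw [hy]
    positivity
  -- the bridges of height at most 3 g with at least n / 3 letters
  have hlong : gf {t | t ∈ BU ∧ hgt t ≤ 3 * g ∧ n ≤ 3 * t.length} ≤ ENNReal.ofReal (y * UU g) := by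
    have h1 : gf {t | t ∈ BU ∧ hgt t ≤ 3 * g ∧ n ≤ 3 * t.length} ≤ TL (2 ^ (L - j + 2)) ((n : ℝ) / 3) := by
      unfold TL
      rw [← gf_biUnion]
      · apply gf_mono
        rintro t ⟨h1, h2, h3⟩
        simp only [Set.mem_iUnion, Finset.mem_range]
        refine ⟨hgt t, ?_, BU_hgt h1, ?_⟩
        · have h4 : 2 ^ (L - j + 2) = 4 * g := by
            rw [hg]
            ring
          rw [h4]
          omega
        · rw [div_le_iff₀ (by norm_num)]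
          have : (n : ℝ) ≤ 3 * t.length := by exact_mod_cast h3
          linarith
      · intro i _ j _ hij
        rw [Set.disjoint_left]
        rintro t ⟨h4, _⟩ ⟨h5, _⟩
        exact hij (Brd_height h4 h5)
    refine h1.trans ((hmean _ _ (by positivity)).trans (ENNReal.ofReal_le_ofReal ?_))
    have h2 : b0 * (2 : ℝ) ^ (j - 2) * l (L - j + 2) ≤ l L := by
      have := hgrow (L - j + 2) (j - 2) (by omega)
      rwa [show L - j + 2 + (j - 2) = L by omega] at this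
    have h3 : (2 : ℝ) ^ j = 2 ^ (j - 2) * 4 := by
      rw [show (4 : ℝ) = 2 ^ 2 by norm_num, ← pow_add]
      congr 1
      omega
    have h4 : (l (L - j + 2) : ℝ) ≤ (4 / b0) * (1 / 2) ^ j * (D * n) := by
      have h5 : (l (L - j + 2) : ℝ) * (b0 * (2 : ℝ) ^ (j - 2)) ≤ D * n := by
        calc (l (L - j + 2) : ℝ) * (b0 * (2 : ℝ) ^ (j - 2)) = b0 * (2 : ℝ) ^ (j - 2) * l (L - j + 2) := by ring
          _ ≤ l L := h2
          _ ≤ _ := s2
      rw [← le_div_iff₀ (by positivity)] at h5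
      refine h5.trans (le_of_eq ?_)
      rw [one_div, inv_pow, h3]
      field_simp
    have h5 : Ub (L - j + 2) ≤ 4 * UU g := by
      have := DL.Ub_add (L - j) 2
      rw [hg]
      show Ub (L - j + 2) ≤ 4 * Ub (L - j)
      linarith
    calc Cm * ((l (L - j + 2) : ℝ) / ((n : ℝ) / 3)) * Ub (L - j + 2)
        ≤ Cm * (((4 / b0) * (1 / 2) ^ j * (D * n)) / ((n : ℝ) / 3)) * (4 * UU g) := by
          have := Ub_pos (L - j + 2)
          gcongr
      _ = y * UU g := by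
          rw [hy, hY]
          field_simp
  -- the ratio
  have hrat : 1 + V xB n / UU g ≤ Z * (2 : ℝ) ^ ((3 / 4 : ℝ) * j) := by
    have h1 : V xB n / UU g ≤ D * (CU / cU) * (2 : ℝ) ^ ((3 / 4 : ℝ) * j) := by
      rw [div_le_iff₀ hgU]
      have h2 := (hU g hg1).1
      have h3 := (hU (2 ^ L) Nat.one_le_two_pow).2
      have h4 : (((2 ^ L : ℕ) : ℝ)) ^ (3 / 4 : ℝ) = (2 : ℝ) ^ ((3 / 4 : ℝ) * j) * (g : ℝ) ^ (3 / 4 : ℝ) := by
        have h5 : ((2 ^ L : ℕ) : ℝ) = (2 : ℝ) ^ (j : ℝ) * g := by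
          rw [hgR, Real.rpow_natCast, ← pow_add]
          push_cast
          congr 1
          omega
        rw [h5, Real.mul_rpow (by positivity) (by positivity), ← Real.rpow_mul (by norm_num)]
        congr 2
        ring
      calc V xB n ≤ D * Ub L := s4
        _ ≤ D * (CU * (((2 ^ L : ℕ) : ℝ)) ^ (3 / 4 : ℝ)) := by
            gcongr
            exact h3
        _ = D * (CU / cU) * (2 : ℝ) ^ ((3 / 4 : ℝ) * j) * (cU * (g : ℝ) ^ (3 / 4 : ℝ)) := by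
            rw [h4]
            field_simp
        _ ≤ _ := by gcongr
    have h2 : (1 : ℝ) ≤ (2 : ℝ) ^ ((3 / 4 : ℝ) * j) := Real.one_le_rpow (by norm_num) (by positivity)
    rw [hZ]
    linarith
  have h1 := key n g y hev hn1' hy0.le hlong
  refine (gf_mono ?_).trans (h1.trans (mul_le_mul' (ENNReal.ofReal_le_ofReal ?_) le_rfl))
  · rintro t ⟨h2, h3⟩
    refine ⟨h2, ?_⟩
    obtain ⟨⟨m, hm⟩, hl⟩ := h2
    have h4 : lev t n = 3 * m := by
      rw [← hl]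
      have := (mem_Brd.1 hm).2.2.2
      omega
    rw [hgt_eq hm]
    rw [h4] at h3
    have h5 : ((1 : ℝ) / 2) ^ j * 2 ^ L = g := by
      rw [hgR, one_div, inv_pow]
      rw [show (2 : ℝ) ^ L = 2 ^ (L - j) * 2 ^ j by rw [← pow_add]; congr 1; omega]
      field_simp
    rw [h5] at h3
    push_cast at h3
    have h6 : (m : ℝ) ≤ g := by
      have : (0 : ℝ) ≤ m := Nat.cast_nonneg m
      linarith
    exact_mod_cast h6
  · calc K3 * y * (1 + V xB n / UU g) ≤ K3 * y * (Z * (2 : ℝ) ^ ((3 / 4 : ℝ) * j)) := by gcongr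
      _ = K3 * Y * Z * ((1 / 2) ^ j * (2 : ℝ) ^ ((3 / 4 : ℝ) * j)) := by
          rw [hy]
          ring
      _ = K3 * Y * Z * ((1 / 2 : ℝ) ^ (1 / 4 : ℝ)) ^ j := by
          congr 1
          rw [← Real.rpow_natCast, ← Real.rpow_natCast, ← Real.rpow_mul (by norm_num), one_div,
            Real.inv_rpow (by norm_num), Real.inv_rpow (by norm_num), ← Real.rpow_neg (by norm_num),
            ← Real.rpow_neg (by norm_num), ← Real.rpow_add (by norm_num)]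
          congr 1
          ring
      _ ≤ K3 * Y * Z * (e / (K3 * Y * Z)) := by
          have := (hj0 j (by rw [hj]; exact le_max_left _ _)).le
          gcongr
      _ = e := by field_simp

/-- the exponents -/
theorem exps_fin (hS : ScaleE l θ cc) (h : Reg xB a b c C) : ∀ η : ℝ, 0 < η → ∃ n0 : ℕ, ∀ n, n0 ≤ n →
    (2 : ℝ) ^ ((4 / 3 - η) * Lf l n) ≤ n ∧ (n : ℝ) ≤ (2 : ℝ) ^ ((4 / 3 + η) * Lf l n) := by
  intro η hη
  obtain ⟨D, m1, hD, hm1, hsc⟩ := scale_facts hS h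
  obtain ⟨Cu, hCu, hup⟩ := hS.seq.up (η / 2) (by positivity)
  obtain ⟨k0, hlow⟩ := hS.seq.low (η / 2) (by positivity)
  obtain ⟨k1, hk1⟩ : ∃ k1 : ℕ, ∀ k : ℕ, k1 ≤ k → max D Cu ≤ (2 : ℝ) ^ (η / 2 * k) := by
    have h1 : 1 < (2 : ℝ) ^ (η / 2) := Real.one_lt_rpow (by norm_num) (by positivity)
    obtain ⟨k1, hk1⟩ := pow_unbounded_of_one_lt (max D Cu) h1
    refine ⟨k1, fun k hk => ?_⟩
    calc max D Cu ≤ ((2 : ℝ) ^ (η / 2)) ^ k1 := hk1.le
      _ ≤ ((2 : ℝ) ^ (η / 2)) ^ k := pow_le_pow_right₀ h1.le hk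
      _ = _ := by rw [← Real.rpow_natCast, ← Real.rpow_mul (by norm_num)]
  obtain ⟨n2, hn2⟩ := Lf_large hS (max k0 k1)
  refine ⟨max m1 n2, fun n hn => ?_⟩
  obtain ⟨s1, s2, s3, s4⟩ := hsc n ((le_max_left _ _).trans hn)
  have hL := hn2 n ((le_max_right _ _).trans hn)
  have hspec := Lf_spec hS n
  obtain ⟨L, hLd⟩ : ∃ L, L = Lf l n := ⟨_, rfl⟩
  rw [← hLd] at s1 s2 s3 s4 hL hspec ⊢
  have h1 := hk1 L ((le_max_right _ _).trans hL)
  have h2 := hlow L ((le_max_left _ _).trans hL)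
  have h3 := hup L
  have hspec' : 3 * (n : ℝ) ≤ l L := by exact_mod_cast hspec
  constructor
  · have h4 : (2 : ℝ) ^ ((4 / 3 - η) * L) * (2 : ℝ) ^ (η / 2 * L) = (2 : ℝ) ^ ((4 / 3 - η / 2) * L) := by
      rw [← Real.rpow_add (by norm_num)]
      congr 1
      ring
    have h5 : (2 : ℝ) ^ ((4 / 3 - η) * L) * D ≤ n * D := by
      calc (2 : ℝ) ^ ((4 / 3 - η) * L) * D ≤ (2 : ℝ) ^ ((4 / 3 - η) * L) * (2 : ℝ) ^ (η / 2 * L) := by
            gcongr
            exact (le_max_left _ _).trans h1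
        _ = (2 : ℝ) ^ ((4 / 3 - η / 2) * L) := h4
        _ ≤ l L := h2
        _ ≤ D * n := s2
        _ = _ := by ring
    exact le_of_mul_le_mul_right h5 (by linarith)
  · have h4 : (2 : ℝ) ^ (η / 2 * L) * (2 : ℝ) ^ ((4 / 3 + η / 2) * L) = (2 : ℝ) ^ ((4 / 3 + η) * L) := by
      rw [← Real.rpow_add (by norm_num)]
      congr 1
      ring
    have hn0 : (0 : ℝ) ≤ n := Nat.cast_nonneg n
    calc (n : ℝ) ≤ l L := by linarith
      _ ≤ Cu * (2 : ℝ) ^ ((4 / 3 + η / 2) * L) := h3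
      _ ≤ (2 : ℝ) ^ (η / 2 * L) * (2 : ℝ) ^ ((4 / 3 + η / 2) * L) := by
          gcongr
          exact (le_max_right _ _).trans h1
      _ = _ := h4

end E2

end HexObs
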