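import Pool.Agent.E2.FinB

/-!
E2: the bridges with exactly n letters, every even n: the structure used in the limit.
-/

set_option autoImplicit false

namespace HexObs

namespace E2

open Finset TS NTm SDN

open scoped ENNReal

variable {l : ℕ → ℕ} {θ cc : ℝ} {a b c C : ℝ}

/-- **all even lengths** -/
theorem core_of (hS : ScaleE l θ cc) (hcc : 4 / 3 ≤ cc) (hcc1 : cc < 8) (h : Reg xB a b c C) : ∃ n0 : ℕ, 2 ≤ n0 ∧
    Core 1 Set.univ (AE l n0) ∧ ∀ p : ℝ, 0 < p → p * cc < 1 → ∃ n1 : ℕ, n0 ≤ n1 ∧ HCore p Set.univ (AE l n1) := by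
  obtain ⟨nh, hh⟩ := hcore_of hS h (p := 1 / 8) (by norm_num) (factH_univ hS hcc (by norm_num) (by linarith))
  obtain ⟨K, nt, hK, ht⟩ := tail_fin hS h
  obtain ⟨n0, hn0⟩ : ∃ n0, n0 = max (max nh nt) 2 := ⟨_, rfl⟩
  have g1 : nh ≤ n0 := by rw [hn0]; exact (le_max_left _ _).trans (le_max_left _ _)
  have g2 : nt ≤ n0 := by rw [hn0]; exact (le_max_right _ _).trans (le_max_left _ _)
  have g3 : 2 ≤ n0 := by rw [hn0]; exact le_max_right _ _
  -- a large scale means a large n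
  have hbig : ∀ m : ℕ, ∃ k0 : ℕ, ∀ n, k0 ≤ Lf l n → m ≤ n := by
    intro m
    refine ⟨Lf l m + 1, fun n hn => ?_⟩
    by_contra hcon
    push Not at hcon
    have h3 : Lf l n ≤ Lf l m := by
      by_contra h4
      push Not at h4
      have h5 := Lf_min h4
      have h6 := Lf_spec hS m
      omega
    omega
  refine ⟨n0, g3, ⟨?_, ?_, ?_, ?_, ?_, ?_⟩, ?_⟩
  · intro k _
    rw [ENNReal.ofReal_one, one_mul]
    exact Finset.sum_le_sum fun h _ => gf_mono fun t ht => ht.1
  · rintro k - n ⟨he, hn, -⟩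
    exact ⟨by omega, BW_ne h (by omega) he⟩
  · intro η hη
    obtain ⟨m, hm⟩ := exps_fin hS h η hη
    obtain ⟨k0, hk0⟩ := hbig m
    refine ⟨k0, ?_⟩
    rintro k - hk n ⟨-, -, hLk⟩
    have := hm n (hk0 n (by rw [hLk]; exact hk))
    rwa [hLk] at this
  · intro r e hr he
    obtain ⟨M, k0, hM, hH⟩ := hh n0 g1 e he
    obtain ⟨ρ, hρ⟩ : ∃ ρ : ℝ, ρ = (r / (M + r)) ^ (8 : ℝ) := ⟨_, rfl⟩
    have hρ0 : 0 < ρ := by
      rw [hρ]
      positivity
    refine ⟨ρ, k0, hρ0, ?_⟩
    rintro k hkG hk n hn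
    refine (gf_mono ?_).trans (hH k hkG hk n hn)
    have hn0' : (0 : ℝ) < n := by
      have := hn.2.1
      exact_mod_cast (by omega : 0 < n)
    rintro t ⟨h1, dir, i, j, h2, h3, h4, h5⟩
    have hij : i < j := by
      rcases Nat.lt_or_ge i j with h6 | h6
      · exact h6
      · exfalso
        have h7 : i = j := by omega
        subst h7
        rw [sub_self, Int.cast_zero, abs_zero] at h5
        have : 0 < r * 2 ^ k := by positivity
        linarith
    refine ⟨h1, dir, i, j, hij, h3, le_trans ?_ h5⟩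
    have h6 : (0 : ℝ) ≤ ((j : ℝ) - i) / n := by
      have : (i : ℝ) ≤ j := by exact_mod_cast h2
      exact div_nonneg (by linarith) hn0'.le
    have h7 : (((j : ℝ) - i) / n) ^ (1 / 8 : ℝ) ≤ r / (M + r) := by
      calc (((j : ℝ) - i) / n) ^ (1 / 8 : ℝ) ≤ ρ ^ (1 / 8 : ℝ) := by
            apply Real.rpow_le_rpow h6 _ (by norm_num)
            rw [div_le_iff₀ hn0']
            exact h4
        _ = r / (M + r) := by
            rw [hρ, ← Real.rpow_mul (by positivity)]
            norm_num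
    calc M * 2 ^ k * (((j : ℝ) - i) / n) ^ (1 / 8 : ℝ) ≤ M * 2 ^ k * (r / (M + r)) := by gcongr
      _ = M / (M + r) * (r * 2 ^ k) := by
          field_simp
      _ ≤ 1 * (r * 2 ^ k) := by
          gcongr
          rw [div_le_one (by positivity)]
          linarith
      _ = _ := one_mul _
  · intro e he
    obtain ⟨κ, m, hκ, hm⟩ := hgt_fin hS h e he
    obtain ⟨k0, hk0⟩ := hbig m
    refine ⟨κ, k0, hκ, ?_⟩
    rintro k - hk n ⟨hev, -, hLk⟩
    have := hm n (hk0 n (by rw [hLk]; exact hk)) hev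
    rwa [hLk] at this
  · refine ⟨K, hK, ?_⟩
    rintro k - n ⟨hev, hn, hLk⟩ i
    have h1 := ht n (g2.trans hn) hev i
    rw [hLk] at h1
    refine h1.trans (mul_le_mul' (ENNReal.ofReal_le_ofReal ?_) le_rfl)
    have h2 : (32 : ℝ) ^ i ≤ 2 ^ (12 * i) := by
      rw [pow_mul]
      exact pow_le_pow_left₀ (by norm_num) (by norm_num) i
    gcongr
  · intro p hp hpc
    obtain ⟨n1, hn1⟩ := hcore_of hS h hp (factH_univ hS hcc hp hpc)
    exact ⟨max n0 n1, le_max_left _ _, hn1 _ (le_max_right _ _)⟩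

end E2

end HexObs
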