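import Pool.Agent.E2.ScaleV
import Pool.Agent.E2.FactsN
import Pool.Agent.NT.LimN

/-!
E2: the bridges with n steps, every n, with the constants of plan V.
-/

set_option autoImplicit false

open MeasureTheory Filter Topology ENNReal

namespace E2F

open Finset

open HexObs hiding pos

open HexObs.SDN HexObs.NTm NTF HexObs.E2

open Pool.Agent.NT.ResNat

open scoped Classical

/-- the inputs -/
structure InV : Prop where
  mean : ∃ C : ℝ, 0 ≤ C ∧ HexObs.T2.MeanLen (4 / 3) C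
  lo : LoV
  up : UpV

lemma bridges_ne (h : InV) : ∀ n, 1 ≤ n → (bridges n).Nonempty := by
  obtain ⟨c, C, hR⟩ := reg_of (by norm_num) (by norm_num) (indB2_of h.lo h.up)
  have he : ∀ m, 1 ≤ m → Even m → (bridges m).Nonempty := fun m hm hme => bridges_nonempty (BW_ne hR hm hme)
  intro n hn
  rcases Nat.even_or_odd n with h1 | h1
  · exact he n hn h1
  · rcases Nat.eq_or_lt_of_le hn with h2 | h2
    · subst h2
      refine ⟨fun _ => 0, ?_⟩
      rw [mem_bridges]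
      have e1 : pos (fun _ : Fin 1 => (0 : Fin 3)) 1 = 1 := by
        rw [pos_succ _ 0 (by omega), pos_zero, step_zero (by decide), zero_add]
      constructor
      · intro j k hj hk he
        interval_cases j <;> interval_cases k
        · rfl
        · rw [pos_zero, e1] at he
          exact absurd he (by norm_num)
        · rw [pos_zero, e1] at he
          exact absurd he (by norm_num)
        · rfl
      · intro k k1 k2
        have : k = 1 := by omega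
        subst this
        rw [e1]
        norm_num
    · obtain ⟨m, hm⟩ : ∃ m, n = m + 1 := ⟨n - 1, by omega⟩
      subst hm
      have hme : Even m := by
        rcases Nat.even_or_odd m with h3 | h3
        · exact h3
        · rw [Nat.odd_add_one] at h1
          exact absurd h3 h1
      rw [bridges_succ hme (by omega)]
      exact (he m (by omega) hme).image _

lemma ev_lo {f g : ℕ → ℝ} (hf : ∀ n, 1 ≤ n → 0 < f n) (hg : ∀ n, 1 ≤ n → 0 < g n) : ∀ (N : ℕ) (c : ℝ), 0 < c →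
    (∀ n, 1 ≤ n → N ≤ n → c * g n ≤ f n) → ∃ c' : ℝ, 0 < c' ∧ ∀ n, 1 ≤ n → c' * g n ≤ f n := by
  intro N
  induction N with
  | zero => exact fun c hc h => ⟨c, hc, fun n hn => h n hn (Nat.zero_le _)⟩
  | succ N ih =>
    intro c hc h
    rcases Nat.eq_zero_or_pos N with h0 | h0
    · subst h0
      exact ⟨c, hc, fun n hn => h n hn (by omega)⟩
    have h1 := hf N h0
    have h2 := hg N h0
    refine ih (min c (f N / g N)) (by positivity) fun n hn hNn => ?_
    rcases Nat.eq_or_lt_of_le hNn with h3 | h3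
    · subst h3
      calc min c (f N / g N) * g N ≤ f N / g N * g N := by
            gcongr
            exact min_le_right _ _
        _ = f N := div_mul_cancel₀ _ h2.ne'
    · refine le_trans ?_ (h n hn h3)
      have := hg n hn
      gcongr
      exact min_le_left _ _

/-- **everything about the bridges with n steps, every n** -/
theorem all_n (h : InV) : Facts {n | 1 ≤ n} ∧ (∀ a : ℝ, 0 < a → a < 3 / 4 → HoldA a {n | 1 ≤ n}) ∧
    ∃ c C : ℝ, 0 < c ∧ 0 < C ∧ ∀ n : ℕ, 1 ≤ n → c * (n : ℝ) ^ (3 / 4 : ℝ) ≤ size n ∧ size n ≤ C * (n : ℝ) ^ (3 / 4 : ℝ) := by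
  have hne := bridges_ne h
  obtain ⟨c, C, hR⟩ := reg_of (by norm_num) (by norm_num) (indB2_of h.lo h.up)
  obtain ⟨Cl, hCl, hS⟩ := scaleE_of h.mean h.up
  obtain ⟨n0, hn0, hcore, hhold⟩ := core_of hS le_rfl (by norm_num) hR
  obtain ⟨k1, hk1⟩ := factsG_of hcore
  obtain ⟨hF, -, hH⟩ := hk1 k1 le_rfl
  obtain ⟨N1, hN1⟩ := Lf_large hS k1
  have hbig : ∀ n, max n0 N1 ≤ n → Even n → n ∈ AU Set.univ (AE (lV Cl) n0) k1 := fun n hn he =>
    ⟨Lf (lV Cl) n, Set.mem_univ _, hN1 n ((le_max_right _ _).trans hn), he, (le_max_left _ _).trans hn, rfl⟩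
  -- the size
  obtain ⟨c1, C1, k0, hc1, hC1, hsize⟩ := core_size hcore
  obtain ⟨D, m1, hD, hm1, hsc⟩ := scale_facts hS hR
  obtain ⟨N2, hN2⟩ := Lf_large hS k0
  have hev : ∀ n : ℕ, max (max n0 m1) N2 ≤ n → Even n →
      c1 * (3 / (2 * Cl)) ^ (3 / 4 : ℝ) * (n : ℝ) ^ (3 / 4 : ℝ) ≤ size n ∧
      size n ≤ C1 * (D / Cl) ^ (3 / 4 : ℝ) * (n : ℝ) ^ (3 / 4 : ℝ) := by
    intro n hn he
    have g1 : n0 ≤ n := (le_max_left _ _).trans ((le_max_left _ _).trans hn)
    have g2 : m1 ≤ n := (le_max_right _ _).trans ((le_max_left _ _).trans hn)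
    have g3 : N2 ≤ n := (le_max_right _ _).trans hn
    obtain ⟨L, hL⟩ : ∃ L, L = Lf (lV Cl) n := ⟨_, rfl⟩
    obtain ⟨z1, z2⟩ := hsize L (Set.mem_univ _) n ⟨he, g1, hL.symm⟩
    have z3 := z2 (by rw [hL]; exact hN2 n g3)
    obtain ⟨s1, s2, -, -⟩ := hsc n g2
    have s3 := Lf_spec hS n
    rw [← hL] at s1 s2 s3
    have s3' : 3 * (n : ℝ) ≤ lV Cl L := by exact_mod_cast s3
    have l1 := lV_lo Cl L
    have l2 := lV_hi hCl L
    have hn0' : (0 : ℝ) ≤ n := Nat.cast_nonneg n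
    have e1 : ((2 : ℝ) ^ ((4 / 3 : ℝ) * L)) ^ (3 / 4 : ℝ) = 2 ^ L := by
      rw [← Real.rpow_mul (by norm_num), ← Real.rpow_natCast]
      congr 1
      ring
    constructor
    · refine le_trans ?_ z3
      rw [mul_assoc, ← Real.mul_rpow (by positivity) hn0', ← e1]
      have : 3 / (2 * Cl) * (n : ℝ) ≤ (2 : ℝ) ^ ((4 / 3 : ℝ) * L) := by
        rw [div_mul_eq_mul_div, div_le_iff₀ (by positivity)]
        linarith
      gcongr
    · refine z1.trans ?_
      rw [mul_assoc, ← Real.mul_rpow (by positivity) hn0', ← e1]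
      have : (2 : ℝ) ^ ((4 / 3 : ℝ) * L) ≤ D / Cl * n := by
        have h0 : D / Cl * (n : ℝ) = D * n / Cl := by ring
        rw [h0, le_div_iff₀ (by positivity)]
        linarith
      gcongr
  -- every n
  obtain ⟨N3, hN3⟩ : ∃ N3, N3 = max (max n0 m1) N2 := ⟨_, rfl⟩
  rw [← hN3] at hev
  obtain ⟨u, hu⟩ : ∃ u : ℝ, u = c1 * (3 / (2 * Cl)) ^ (3 / 4 : ℝ) := ⟨_, rfl⟩
  obtain ⟨v, hv⟩ : ∃ v : ℝ, v = C1 * (D / Cl) ^ (3 / 4 : ℝ) := ⟨_, rfl⟩
  rw [← hu, ← hv] at hev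
  have hu0 : 0 < u := by
    rw [hu]
    positivity
  have hv0 : 0 < v := by
    rw [hv]
    positivity
  have hall : ∀ n : ℕ, 1 ≤ n → N3 + 2 ≤ n → u / 2 * (n : ℝ) ^ (3 / 4 : ℝ) ≤ size n ∧ size n ≤ 2 * v * (n : ℝ) ^ (3 / 4 : ℝ) := by
    intro n hn1 hn
    have hp : (0 : ℝ) ≤ (n : ℝ) ^ (3 / 4 : ℝ) := by positivity
    rcases Nat.even_or_odd n with he | ho
    · obtain ⟨a1, a2⟩ := hev n (by omega) he
      constructor <;> nlinarith
    · obtain ⟨m, hm⟩ : ∃ m, n = m + 1 := ⟨n - 1, by omega⟩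
      subst hm
      have hme : Even m := by
        rcases Nat.even_or_odd m with h3 | h3
        · exact h3
        · rw [Nat.odd_add_one] at ho
          exact absurd h3 ho
      have hm1' : 1 ≤ m := by omega
      obtain ⟨a1, a2⟩ := hev m (by omega) hme
      obtain ⟨z1, z2⟩ := size_succ hme hm1'
      have hm0 : (0 : ℝ) ≤ m := Nat.cast_nonneg m
      have h5 : ((m + 1 : ℕ) : ℝ) ^ (3 / 4 : ℝ) ≤ 2 * (m : ℝ) ^ (3 / 4 : ℝ) := by
        calc ((m + 1 : ℕ) : ℝ) ^ (3 / 4 : ℝ) ≤ (2 * (m : ℝ)) ^ (3 / 4 : ℝ) := by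
              apply Real.rpow_le_rpow (by positivity) _ (by norm_num)
              have : m + 1 ≤ 2 * m := by omega
              exact_mod_cast this
          _ = (2 : ℝ) ^ (3 / 4 : ℝ) * (m : ℝ) ^ (3 / 4 : ℝ) := Real.mul_rpow (by norm_num) hm0
          _ ≤ (2 : ℝ) ^ (1 : ℝ) * (m : ℝ) ^ (3 / 4 : ℝ) := by
              gcongr
              · norm_num
              · norm_num
          _ = _ := by rw [Real.rpow_one]
      have h6 : (m : ℝ) ^ (3 / 4 : ℝ) ≤ ((m + 1 : ℕ) : ℝ) ^ (3 / 4 : ℝ) := by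
        apply Real.rpow_le_rpow hm0 _ (by norm_num)
        push_cast
        linarith
      constructor
      · refine le_trans ?_ (a1.trans z1)
        nlinarith
      · refine z2.trans ?_
        nlinarith
  have hsp : ∀ n : ℕ, 1 ≤ n → 0 < size n := fun n hn => lt_of_lt_of_le one_pos (size_pos hn (hne n hn))
  have hgp : ∀ n : ℕ, 1 ≤ n → 0 < (n : ℝ) ^ (3 / 4 : ℝ) := fun n hn => by
    have : (0 : ℝ) < n := by exact_mod_cast hn
    positivity
  obtain ⟨cA, hcA, hlo⟩ := ev_lo hsp hgp (N3 + 2) (u / 2) (by positivity) fun n hn hNn => (hall n hn hNn).1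
  obtain ⟨cB, hcB, hhi⟩ := ev_lo hgp hsp (N3 + 2) (1 / (2 * v)) (by positivity) fun n hn hNn => by
    rw [one_div_mul_eq_div, div_le_iff₀ (by positivity), mul_comm]
    exact (hall n hn hNn).2
  have hsize2 : ∀ n : ℕ, 1 ≤ n → cA * (n : ℝ) ^ (3 / 4 : ℝ) ≤ size n ∧ size n ≤ 1 / cB * (n : ℝ) ^ (3 / 4 : ℝ) := by
    intro n hn
    refine ⟨hlo n hn, ?_⟩
    rw [one_div_mul_eq_div, le_div_iff₀ hcB, mul_comm]
    exact hhi n hn
  refine ⟨?_, ?_, cA, 1 / cB, hcA, by positivity, hsize2⟩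
  · refine facts_N hF hbig hne fun R => ?_
    have hlim : Filter.Tendsto (fun n : ℕ => (n : ℝ) ^ (3 / 4 : ℝ)) Filter.atTop Filter.atTop :=
      (tendsto_rpow_atTop (by norm_num)).comp tendsto_natCast_atTop_atTop
    obtain ⟨n1, hn1⟩ := Filter.eventually_atTop.1 (hlim.eventually_ge_atTop (R / cA))
    refine ⟨max n1 1, fun n hn => ?_⟩
    have h1 := hn1 n ((le_max_left _ _).trans hn)
    rw [div_le_iff₀ hcA, mul_comm] at h1
    exact h1.trans (hsize2 n ((le_max_right _ _).trans hn)).1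
  · intro a ha ha1
    obtain ⟨nH, hnH, hHC⟩ := hhold a ha (by linarith)
    -- the Hoelder modulus at the large even n
    have hHC' : ∀ ε : ℝ, 0 < ε → ∃ (M : ℝ) (n0' : ℕ), 0 < M ∧ ∀ n ∈ {n | Even n ∧ 1 ≤ n}, n0' ≤ n →
        (((bridges n).filter fun s => ∃ i j : ℕ, i < j ∧ j ≤ n ∧
          M * size n * (((j : ℝ) - i) / n) ^ a < ‖pos s j - pos s i‖).card : ℝ) ≤ ε * ((bridges n).card : ℝ) := by
      intro ε hε
      obtain ⟨M, kH, hM, h4⟩ := hHC ε hε
      obtain ⟨N4, hN4⟩ := Lf_large hS kH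
      refine ⟨M / c1, max (max (max (max n0 m1) N2) N4) nH, by positivity, fun n hn hnn => ?_⟩
      obtain ⟨he, hn1⟩ := hn
      have g0 : max (max n0 m1) N2 ≤ n := (le_max_left _ _).trans ((le_max_left _ _).trans hnn)
      have g1 : n0 ≤ n := (le_max_left _ _).trans ((le_max_left _ _).trans g0)
      have g3 : N2 ≤ n := (le_max_right _ _).trans g0
      have g4 : N4 ≤ n := (le_max_right _ _).trans ((le_max_left _ _).trans hnn)
      have g5 : nH ≤ n := (le_max_right _ _).trans hnn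
      obtain ⟨L, hL⟩ : ∃ L, L = Lf (lV Cl) n := ⟨_, rfl⟩
      obtain ⟨z1, z2⟩ := hsize L (Set.mem_univ _) n ⟨he, g1, hL.symm⟩
      have z3 := z2 (by rw [hL]; exact hN2 n g3)
      refine prop_le (BW_ne hR hn1 he) _ hε.le ?_
        (h4 L (Set.mem_univ _) (by rw [hL]; exact hN4 n g4) n ⟨he, g5, hL.symm⟩)
      rintro t ht ⟨i, j, hij, hj, h5⟩
      rw [pos_sw n t j hj, pos_sw n t i (hij.le.trans hj), ← JJ_sub] at h5
      have hij' : (0 : ℝ) ≤ (j : ℝ) - i := by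
        have : (i : ℝ) ≤ j := by exact_mod_cast hij.le
        linarith
      have h7 : (0 : ℝ) ≤ (((j : ℝ) - i) / n) ^ a := by positivity
      have h8 : M * 2 ^ L * (((j : ℝ) - i) / n) ^ a ≤ ‖JJ (vx oo up t j - vx oo up t i)‖ := by
        refine le_trans ?_ h5.le
        apply mul_le_mul_of_nonneg_right _ h7
        calc M * 2 ^ L = M / c1 * (c1 * 2 ^ L) := by field_simp
          _ ≤ M / c1 * size n := mul_le_mul_of_nonneg_left z3 (by positivity)
      obtain ⟨dir, h9⟩ := exists_dir (by positivity) h8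
      rw [lvl_sub] at h9
      exact ⟨ht, dir, i, j, hij, hj, h9⟩
    refine hold_N (E := {n | Even n ∧ 1 ≤ n}) (N0 := 1) (fun n hn he => ⟨he, hn⟩) ha (by linarith) hHC' hcA (n1 := 1)
      fun n hn => le_trans ?_ (hsize2 n hn).1
    have : (1 : ℝ) ≤ n := by exact_mod_cast hn
    have h5 : (n : ℝ) ^ a ≤ (n : ℝ) ^ (3 / 4 : ℝ) := Real.rpow_le_rpow_of_exponent_le this ha1.le
    gcongr

/-- the final statement: every n -/
def Concl : Prop := (∃ c C : ℝ, 0 < c ∧ 0 < C ∧ ∀ n : ℕ, 1 ≤ n → c * (n : ℝ) ^ (3 / 4 : ℝ) ≤ size n ∧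
      size n ≤ C * (n : ℝ) ^ (3 / 4 : ℝ)) ∧
  (∀ n : ℕ, 1 ≤ n → (bridges n).Nonempty ∧ IsProbabilityMeasure (law n)) ∧
  (∀ a : NNReal, (a : ℝ) < 3 / 4 → ∀ ε : ℝ, 0 < ε → ∃ M : NNReal, ∀ n : ℕ, 1 ≤ n →
    law n {γ : C(unitInterval, ℂ) | ¬ HolderWith M a γ} ≤ ENNReal.ofReal ε) ∧
  IsTightMeasureSet {μ | ∃ n : ℕ, 1 ≤ n ∧ μ = law n} ∧
  (∀ φ : ℕ → ℕ, (∀ k, 1 ≤ φ k) → ∃ ψ : ℕ → ℕ, StrictMono ψ ∧ ∃ ν : Measure C(unitInterval, ℂ),
    IsProbabilityMeasure ν ∧ LawTo (fun k => φ (ψ k)) ν) ∧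
  ∀ (φ : ℕ → ℕ) (ν : Measure C(unitInterval, ℂ)), Tendsto φ atTop atTop →
    IsProbabilityMeasure ν → LawTo φ ν →
    (∀ᵐ γ : C(unitInterval, ℂ) ∂ν, γ 0 = 0 ∧ (∀ u, 0 ≤ (γ u).re ∧ (γ u).re ≤ (γ 1).re) ∧ 0 < (γ 1).re ∧
      ∀ a : NNReal, (a : ℝ) < 3 / 4 → ∃ M : NNReal, HolderWith M a γ) ∧
    ∫ γ : C(unitInterval, ℂ), ‖γ 1‖ ^ 2 ∂ν = 1

theorem concl_of (h : InV) : Concl := by
  obtain ⟨hF, hH, hsize⟩ := all_n h
  have hpos : ∀ a : NNReal, (a : ℝ) < 3 / 4 → ∀ ε : ℝ, 0 < ε → ∃ M : NNReal, ∀ n : ℕ, 1 ≤ n →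
      law n {γ : C(unitInterval, ℂ) | ¬ HolderWith M a γ} ≤ ENNReal.ofReal ε := by
    intro a ha ε hε
    rcases eq_or_lt_of_le (zero_le (a := a)) with h0 | h0
    · -- exponent 0: bounded
      obtain ⟨M, hM⟩ := law_holder hF (a := 1 / 2) (by
        have := hH (1 / 2) (by norm_num) (by norm_num)
        simpa using this) (by norm_num) (by norm_num) hε
      refine ⟨M, fun n hn => (measure_mono ?_).trans (hM n hn)⟩
      intro γ hγ h1
      apply hγ
      rw [← h0]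
      intro x y
      refine (h1 x y).trans ?_
      rw [NNReal.coe_zero, ENNReal.rpow_zero, mul_one]
      have h2 : edist x y ≤ 1 := by
        rw [edist_dist, ← ENNReal.ofReal_one]
        apply ENNReal.ofReal_le_ofReal
        rw [Subtype.dist_eq, Real.dist_eq, abs_le]
        have := x.2.1
        have := x.2.2
        have := y.2.1
        have := y.2.2
        constructor <;> linarith
      calc (M : ℝ≥0∞) * edist x y ^ ((1 / 2 : NNReal) : ℝ) ≤ M * 1 := by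
            gcongr
            exact ENNReal.rpow_le_one h2 (by positivity)
        _ = M := mul_one _
    · exact law_holder hF (hH a h0 ha) h0 (by linarith) hε
  refine ⟨hsize, fun n hn => ⟨(hF.one n hn).2, law_prob (hF.one n hn).2⟩, hpos, ?_, ?_, ?_⟩
  · exact tight hF
  · intro φ hφ
    exact subseq hF (A := {n | 1 ≤ n}) hφ
  · intro φ ν hφ hν hlim
    -- a sequence with values at least 1
    obtain ⟨k0, hk0⟩ := Filter.eventually_atTop.1 (hφ.eventually_ge_atTop 1)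
    obtain ⟨φ', hφ'⟩ : ∃ φ' : ℕ → ℕ, φ' = fun k => φ (k + k0) := ⟨_, rfl⟩
    have hφ1 : Tendsto φ' atTop atTop := by
      rw [hφ']
      exact hφ.comp (tendsto_add_atTop_nat k0)
    have hφA : ∀ k, φ' k ∈ {n : ℕ | 1 ≤ n} := fun k => by
      rw [hφ']
      exact hk0 (k + k0) (Nat.le_add_left _ _)
    have hlim' : LawTo φ' ν := by
      intro f
      have := (hlim f).comp (tendsto_add_atTop_nat k0)
      rw [hφ']
      exact this
    obtain ⟨h1, h2⟩ := limit_props hF hφ1 hφA hν hlim'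
    refine ⟨?_, h2⟩
    filter_upwards [h1, limit_holder_all hF hH hφA hν hlim'] with γ h3 h4
    exact ⟨h3.1, h3.2.1, h3.2.2, h4⟩

end E2F
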