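import Pool.Agent.E2.FinV
import Pool.Agent.VF.BLU
import Pool.Agent.VF.SharpZ
import Pool.Agent.VF.RenC
import Pool.Agent.NTA.TbM
import Pool.Agent.NTA.C1Z

/-!
# E2, the facts for the bridges with `n` steps, every `n`, without hypothesis (helper21)
-/

set_option autoImplicit false

namespace E2F

open HexObs HexObs.E2

/-- the three inputs -/
theorem inV : InV := by
  have hz := VF.zUpC_of VF.sharpZ
  refine ⟨Pool.Agent.VF.meanLen_C hz, ?_, ?_⟩
  · obtain ⟨c, hc, h⟩ := Pool.Agent.VF.lo_UU_Z hz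
    exact ⟨c, hc, h⟩
  · obtain ⟨c0, hc0, hm⟩ := VF.mLow VF.sharpZ
    obtain ⟨C, -, h⟩ := Pool.Agent.VF.uup_of hc0 hm (NTA.c1_mZ NTA.mlow_M NTA.mup_M NTA.tb_M)
    exact ⟨C, h⟩

/-- **the bridges with `n` steps, every `n`** -/
theorem concl : Concl := concl_of inV

end E2F

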