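import Pool.Agent.E2.Tail
import Pool.Agent.T2.Amplify
import Pool.Agent.T2.ANorm

/-!
E2: bridges with exactly n letters and a small height.
-/

set_option autoImplicit false

namespace HexObs

namespace E2

open Finset TS NTm

open scoped ENNReal

variable {a b c C : ℝ}

/-- the bridges of Y without a piece of Q -/
def NQ (Q Y : Set (List Bool)) : Set (List Bool) :=
  {s | s ∈ Y ∧ ∀ s1 ∈ BU, ∀ p ∈ Q, ∀ s2 ∈ BU, s ≠ s1 ++ (p ++ s2)}

private lemma first_badG {Q Y : Set (List Bool)} (hQ : Q ⊆ IU)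
    (hsub : ∀ s ∈ BU, ∀ v ∈ BU, s ++ v ∈ Y → s ∈ Y ∧ v ∈ Y) : ∀ (N : ℕ) (s s1 p s2 : List Bool), s1.length ≤ N →
    s ∈ Y → s1 ∈ BU → p ∈ Q → s2 ∈ BU → s = s1 ++ (p ++ s2) →
    ∃ s1 ∈ NQ Q Y, ∃ p ∈ Q, ∃ s2 ∈ Y, s = (s1 ++ p) ++ s2 := by
  intro N
  induction N with
  | zero =>
    intro s s1 p s2 hl hs h1 hp h2 e
    have h3 : s1 = [] := List.length_eq_zero_iff.1 (by omega)
    subst h3
    have g1 := hsub [] nil_BU (p ++ s2) (app (IU_BU (hQ hp)) h2) (e ▸ hs)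
    have g2 := hsub p (IU_BU (hQ hp)) s2 h2 g1.2
    refine ⟨[], ⟨g1.1, fun a _ q hq b _ e2 => ?_⟩, p, hp, s2, g2.2, ?_⟩
    · have h4 := congrArg List.length e2
      have h5 := IU_len (hQ hq)
      simp only [List.length_append, List.length_nil] at h4
      omega
    · rw [e, List.append_assoc]
  | succ N ih =>
    intro s s1 p s2 hl hs h1 hp h2 e
    have g1 := hsub s1 h1 (p ++ s2) (app (IU_BU (hQ hp)) h2) (e ▸ hs)
    have g2 := hsub p (IU_BU (hQ hp)) s2 h2 g1.2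
    by_cases h : s1 ∈ NQ Q Y
    · exact ⟨s1, h, p, hp, s2, g2.2, by rw [e, List.append_assoc]⟩
    · have h3 : ¬ ∀ a ∈ BU, ∀ q ∈ Q, ∀ b ∈ BU, s1 ≠ a ++ (q ++ b) := fun h3 => h ⟨g1.1, h3⟩
      push Not at h3
      obtain ⟨a, ha, q, hq, b, hb, e2⟩ := h3
      have h5 := IU_len (hQ hq)
      have h6 : a.length ≤ N := by
        rw [e2] at hl
        simp only [List.length_append] at hl
        omega
      refine ih s a q (b ++ (p ++ s2)) h6 hs ha hq (app hb (app (IU_BU (hQ hp)) h2)) ?_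
      rw [e, e2]
      simp only [List.append_assoc]

/-- **the weight of a class of pieces**, general form -/
theorem pieceG {Q E X Y : Set (List Bool)} (hQ : Q ⊆ IU) (hY : Y ⊆ BU) (hYf : gf Y ≠ ∞)
    (hsub : ∀ s ∈ BU, ∀ v ∈ BU, s ++ v ∈ Y → s ∈ Y ∧ v ∈ Y)
    (hE : ∀ s ∈ Y, ∀ p ∈ Q, ∃ r ∈ {r | r ∈ PM E ∧ r ∈ X}, ∃ v ∈ BU, s ++ p = r ++ v)
    (hy : gf {s | s ∈ PM E ∧ s ∈ X} ≤ 1 / 2) :
    gf Q * gf Y ≤ 2 * gf {s | s ∈ PM E ∧ s ∈ X} := by
  obtain ⟨A, hA⟩ : ∃ A : Set (List Bool), A = {t | ∃ s ∈ NQ Q Y, ∃ p ∈ Q, t = s ++ p} := ⟨_, rfl⟩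
  have hBU : A ⊆ BU := by
    rw [hA]
    rintro t ⟨s, hs, p, hp, rfl⟩
    exact app (hY hs.1) (IU_BU (hQ hp))
  have hanti : Anti A := by
    refine ⟨hBU, ?_⟩
    rw [hA]
    rintro t ⟨s, hs, p, hp, rfl⟩ v hv ⟨s', hs', p', hp', e⟩
    rcases le_or_gt (s ++ p).length s'.length with hl | hl
    · obtain ⟨w, hw, e1, -⟩ := cmp (app (hY hs.1) (IU_BU (hQ hp))) hv (hY hs'.1) e hl
      exact absurd (by rw [e1, List.append_assoc]) (hs'.2 s (hY hs.1) p hp w hw)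
    · obtain ⟨w, hw, e1, e2⟩ := cmp (hY hs'.1) (IU_BU (hQ hp')) (app (hY hs.1) (IU_BU (hQ hp))) e.symm hl.le
      rcases IU_irr (hQ hp') hw hv e2 with h | h
      · rw [e1, h, List.append_nil] at hl
        exact absurd hl (lt_irrefl _)
      · exact h
  have h1 : gf (NQ Q Y) * gf Q ≤ gf A := by
    refine mul_le_gf (fun s hs p hp => ?_) fun s hs p hp s' hs' p' hp' e =>
      last_uniq (hY hs.1) (hY hs'.1) (hQ hp) (hQ hp') e
    rw [hA]
    exact ⟨s, hs, p, hp, rfl⟩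
  have h2 : gf A ≤ gf {s | s ∈ PM E ∧ s ∈ X} := by
    refine dominate hanti fun t ht => ?_
    rw [hA] at ht
    obtain ⟨s, hs, p, hp, rfl⟩ := ht
    obtain ⟨r, hr, v, hv, e⟩ := hE s hs.1 p hp
    exact ⟨r, hr, hr.1.1, v, hv, e⟩
  have h3 : gf Y ≤ gf (NQ Q Y) + gf A * gf Y := by
    have h4 : Y ⊆ NQ Q Y ∪ {t | ∃ s ∈ A, ∃ u ∈ Y, t = s ++ u} := by
      intro s hs
      by_cases h : s ∈ NQ Q Y
      · exact Or.inl h
      · right
        have h5 : ¬ ∀ a ∈ BU, ∀ q ∈ Q, ∀ b ∈ BU, s ≠ a ++ (q ++ b) := fun h5 => h ⟨hs, h5⟩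
        push Not at h5
        obtain ⟨a, ha, q, hq, b, hb, e⟩ := h5
        obtain ⟨s1, g1, p, g2, s2, g3, g4⟩ := first_badG hQ hsub a.length s a q b le_rfl hs ha hq hb e
        refine ⟨s1 ++ p, ?_, s2, g3, g4⟩
        rw [hA]
        exact ⟨s1, g1, p, g2, rfl⟩
    exact (gf_mono h4).trans ((gf_union_le _ _).trans (add_le_add le_rfl (gf_le_mul fun t ht => by
      obtain ⟨s, hs, u, hu, e⟩ := ht
      exact ⟨s, hs, u, hu, e⟩)))
  have h4 : gf Y ≤ 2 * gf (NQ Q Y) := by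
    have h5 : gf A * gf Y ≤ 2⁻¹ * gf Y := by
      refine mul_le_mul' (h2.trans (hy.trans (le_of_eq (by rw [one_div])))) le_rfl
    have h6 : 2⁻¹ * gf Y + 2⁻¹ * gf Y ≤ gf (NQ Q Y) + 2⁻¹ * gf Y := by
      rw [← add_mul, ENNReal.inv_two_add_inv_two, one_mul]
      exact h3.trans (add_le_add le_rfl h5)
    have h7 : 2⁻¹ * gf Y ≠ ∞ := ENNReal.mul_ne_top (by simp) hYf
    have h8 := (ENNReal.add_le_add_iff_right h7).1 h6
    calc gf Y = 2 * (2⁻¹ * gf Y) := by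
          rw [← mul_assoc, ENNReal.mul_inv_cancel (by simp) (by simp), one_mul]
      _ ≤ _ := mul_le_mul' le_rfl h8
  calc gf Q * gf Y ≤ gf Q * (2 * gf (NQ Q Y)) := mul_le_mul' le_rfl h4
    _ = 2 * (gf (NQ Q Y) * gf Q) := by ring
    _ ≤ 2 * gf {s | s ∈ PM E ∧ s ∈ X} := mul_le_mul' le_rfl (h1.trans h2)

/-- the bridges of height at most g -/
def HLe (g : ℕ) : Set (List Bool) := {t | t ∈ BU ∧ hgt t ≤ g}

lemma gf_HLe (g : ℕ) : gf (HLe g) = ENNReal.ofReal (UU g) := by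
  have h1 : HLe g = ⋃ j ∈ range (g + 1), Brd j := by
    ext t
    simp only [Set.mem_iUnion, Finset.mem_range]
    constructor
    · rintro ⟨h1, h2⟩
      exact ⟨hgt t, by omega, BU_hgt h1⟩
    · rintro ⟨j, hj, h1⟩
      refine ⟨⟨j, h1⟩, ?_⟩
      rw [hgt_eq h1]
      omega
  rw [h1, gf_biUnion, T2.Amp.ofReal_UU]
  · exact Finset.sum_congr rfl fun j _ => gf_Brd j
  · intro i _ j _ hij
    rw [Set.disjoint_left]
    intro t h2 h3
    exact hij (Brd_height h2 h3)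

/-- **bridges with n letters and a height at most g** -/
theorem low_of (h : Reg xB a b c C) : ∃ K3 : ℝ, 0 < K3 ∧ ∀ (n g : ℕ) (y : ℝ), Even n → 1 ≤ n → 0 ≤ y →
    gf {t | t ∈ BU ∧ hgt t ≤ 3 * g ∧ n ≤ 3 * t.length} ≤ ENNReal.ofReal (y * UU g) →
    gf {t | t ∈ BW n ∧ hgt t ≤ g} ≤ ENNReal.ofReal (K3 * y * (1 + V xB n / UU g)) * gf (BW n) := by
  have hC := h.hC
  have hc := h.hc
  have ha := h.ha
  have hKM := KM_pos h
  obtain ⟨K3, hK3⟩ : ∃ K3 : ℝ, K3 = 2 + 2 * KM a c C + 4 * C / c := ⟨_, rfl⟩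
  have hK30 : 0 < K3 := by
    rw [hK3]
    positivity
  refine ⟨K3, hK30, ?_⟩
  intro n g y he hn hy hT
  have hV := h.one_le n
  have hU : 0 < UU g := Num2Aux.UU_pos _
  rcases le_or_gt (1 / 2) y with h4 | h4
  · have h1 : 1 ≤ ENNReal.ofReal (K3 * y * (1 + V xB n / UU g)) := by
      rw [← ENNReal.ofReal_one]
      apply ENNReal.ofReal_le_ofReal
      have h2 : 2 ≤ K3 := by
        rw [hK3]
        have : 0 < 4 * C / c := by positivity
        linarith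
      have h3 : 0 ≤ V xB n / UU g := by positivity
      have h5 : 1 ≤ K3 * y := by nlinarith
      nlinarith
    calc gf {t | t ∈ BW n ∧ hgt t ≤ g} ≤ 1 * gf (BW n) := by
          rw [one_mul]
          exact gf_mono fun t ht => ht.1
      _ ≤ _ := mul_le_mul' h1 le_rfl
  have hHB : HLe g ⊆ BU := fun t ht => ht.1
  -- first passages
  have hpm : ∀ g' : ℕ, g' ≤ 2 * g → gf {s | s ∈ PM {t | hgt t ≤ g' ∧ n ≤ 3 * t.length} ∧ s ∈ (Set.univ : Set (List Bool))} ≤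
      ENNReal.ofReal y := by
    intro g' hg'
    have h1 : gf {s | s ∈ PM {t | hgt t ≤ g' ∧ n ≤ 3 * t.length} ∧ s ∈ (Set.univ : Set (List Bool))} * gf (HLe g) ≤
        gf {t | t ∈ BU ∧ hgt t ≤ 3 * g ∧ n ≤ 3 * t.length} := by
      refine stop_pre hHB fun s hs _ u hu => ?_
      have h2 : hgt s ≤ g' := hs.2.1.1
      have h3 : n ≤ 3 * s.length := hs.2.1.2
      have h4 : hgt u ≤ g := hu.2
      refine ⟨app hs.1 hu.1, ?_, by rw [List.length_append]; omega⟩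
      rw [T2.AN.hgt_app hs.1 hu.1]
      omega
    rw [gf_HLe] at h1
    refine (div_of_mul hU (h1.trans hT)).trans (le_of_eq ?_)
    rw [mul_div_cancel_right₀ _ hU.ne']
  have hsm : gf {s | s ∈ SM {t | hgt t ≤ g ∧ n ≤ 3 * t.length} ∧ s ∈ (Set.univ : Set (List Bool))} ≤
      ENNReal.ofReal y := by
    have h1 : gf {s | s ∈ SM {t | hgt t ≤ g ∧ n ≤ 3 * t.length} ∧ s ∈ (Set.univ : Set (List Bool))} * gf (HLe g) ≤
        gf {t | t ∈ BU ∧ hgt t ≤ 3 * g ∧ n ≤ 3 * t.length} := by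
      refine stop_suf hHB fun s hs _ u hu => ?_
      have h2 : hgt s ≤ g := hs.2.1.1
      have h3 : n ≤ 3 * s.length := hs.2.1.2
      have h4 : hgt u ≤ g := hu.2
      refine ⟨app hu.1 hs.1, ?_, by rw [List.length_append]; omega⟩
      rw [T2.AN.hgt_app hu.1 hs.1]
      omega
    rw [gf_HLe] at h1
    refine (div_of_mul hU (h1.trans hT)).trans (le_of_eq ?_)
    rw [mul_div_cancel_right₀ _ hU.ne']
  -- the pieces
  obtain ⟨Q, hQ⟩ : ∃ Q : Set (List Bool), Q = {p | p ∈ IU ∧ hgt p ≤ g ∧ n ≤ 3 * p.length} := ⟨_, rfl⟩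
  have hQw : gf Q ≤ ENNReal.ofReal (2 * y / UU g) := by
    have h1 : gf Q * gf (HLe g) ≤
        2 * gf {s | s ∈ PM {t | hgt t ≤ 2 * g ∧ n ≤ 3 * t.length} ∧ s ∈ (Set.univ : Set (List Bool))} := by
      refine pieceG (by rw [hQ]; exact fun p hp => hp.1) hHB (by rw [gf_HLe]; exact ENNReal.ofReal_ne_top) ?_ ?_ ?_
      · intro s hs v hv hsv
        have h2 : hgt (s ++ v) ≤ g := hsv.2
        rw [T2.AN.hgt_app hs hv] at h2
        exact ⟨⟨hs, by omega⟩, ⟨hv, by omega⟩⟩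
      · intro s hs p hp
        rw [hQ] at hp
        obtain ⟨hp1, hp2, hp3⟩ := hp
        have h2 : hgt s ≤ g := hs.2
        obtain ⟨r, hr, v, hv, e⟩ := PM_ex {t | hgt t ≤ 2 * g ∧ n ≤ 3 * t.length} _ (s ++ p) le_rfl (app hs.1 (IU_BU hp1))
          (by
            refine ⟨?_, ?_⟩
            · rw [T2.AN.hgt_app hs.1 (IU_BU hp1)]
              omega
            · rw [List.length_append]
              omega)
        exact ⟨r, ⟨hr, Set.mem_univ _⟩, v, hv, e⟩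
      · refine (hpm _ le_rfl).trans ?_
        rw [show (1 / 2 : ℝ≥0∞) = ENNReal.ofReal (1 / 2) by
          rw [ENNReal.ofReal_div_of_pos (by norm_num)]
          norm_num]
        exact ENNReal.ofReal_le_ofReal h4.le
    rw [gf_HLe] at h1
    refine div_of_mul hU (h1.trans ?_)
    calc 2 * gf {s | s ∈ PM {t | hgt t ≤ 2 * g ∧ n ≤ 3 * t.length} ∧ s ∈ (Set.univ : Set (List Bool))} ≤
          2 * ENNReal.ofReal y := mul_le_mul' le_rfl (hpm _ le_rfl)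
      _ = ENNReal.ofReal (2 * y) := by
          rw [show (2 : ℝ≥0∞) = ENNReal.ofReal 2 by simp, ← ENNReal.ofReal_mul (by norm_num)]
  -- the covering
  have hsub : {t | t ∈ BW n ∧ hgt t ≤ g} ⊆
      {t | t ∈ BW n ∧ ∃ s ∈ BU, ∃ p ∈ Q, ∃ u ∈ BU, t = s ++ (p ++ u) ∧ u.length ≤ n} ∪
      ({t | t ∈ BW n ∧ ∃ s ∈ BU, ∃ u ∈ BU, t = s ++ u ∧ s.length ≤ n / 2 ∧ s ∈ {t | hgt t ≤ g ∧ n ≤ 3 * t.length}} ∪
       {t | t ∈ BW n ∧ ∃ s ∈ BU, ∃ u ∈ BU, t = s ++ u ∧ u.length ≤ n / 2 ∧ u ∈ {t | hgt t ≤ g ∧ n ≤ 3 * t.length}}) := by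
    rintro t ⟨⟨htB, htl⟩, htg⟩
    obtain ⟨s, hs, p, hp, u, hu, e, h1, h2⟩ := split_at t.length t le_rfl htB (n / 2) (by omega)
    have hl : s.length + p.length + u.length = n := by
      rw [← htl, e, List.length_append, List.length_append]
      omega
    have e2 : t = (s ++ p) ++ u := by rw [e, List.append_assoc]
    have hh : hgt s + (hgt p + hgt u) ≤ g := by
      have h5 : hgt t ≤ g := htg
      rw [e, T2.AN.hgt_app hs (app (IU_BU hp) hu), T2.AN.hgt_app (IU_BU hp) hu] at h5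
      exact h5
    by_cases c1 : n ≤ 3 * p.length
    · left
      refine ⟨⟨htB, htl⟩, s, hs, p, ?_, u, hu, e, by omega⟩
      rw [hQ]
      exact ⟨hp, by omega, c1⟩
    by_cases c2 : n ≤ 3 * s.length
    · right; left
      exact ⟨⟨htB, htl⟩, s, hs, p ++ u, app (IU_BU hp) hu, e, h1, by omega, c2⟩
    right; right
    exact ⟨⟨htB, htl⟩, s ++ p, app hs (IU_BU hp), u, hu, e2, by omega, by omega, by omega⟩
  refine (gf_mono hsub).trans ((gf_union_le _ _).trans ((add_le_add le_rfl (gf_union_le _ _)).trans ?_))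
  have b1 := mid h (Q := Q) hn (le_refl n) he
  have hn0 : (0 : ℝ) < n := by exact_mod_cast hn
  have hdd : 1 / 2 * (n : ℝ) ≤ ((n - n / 2 : ℕ) : ℝ) := by
    have : (n : ℝ) ≤ 2 * ((n - n / 2 : ℕ) : ℝ) := by exact_mod_cast (by omega : n ≤ 2 * (n - n / 2))
    linarith
  have b2 := near_pre' h (E := {t | hgt t ≤ g ∧ n ≤ 3 * t.length}) (n := n) (m := n / 2) (d := 1 / 2) (by norm_num)
    (Nat.div_le_self _ _) hdd hn he
  have b3 := near_suf' h (E := {t | hgt t ≤ g ∧ n ≤ 3 * t.length}) (n := n) (m := n / 2) (d := 1 / 2) (by norm_num)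
    (Nat.div_le_self _ _) hdd hn he
  have c2 : gf {s | s ∈ PM {t | hgt t ≤ g ∧ n ≤ 3 * t.length} ∧ s.length ≤ n / 2} ≤ ENNReal.ofReal y :=
    (gf_mono (Q := {s | s ∈ PM {t | hgt t ≤ g ∧ n ≤ 3 * t.length} ∧ s ∈ (Set.univ : Set (List Bool))})
      fun s hs => ⟨hs.1, Set.mem_univ _⟩).trans (hpm g (by omega))
  have c3 : gf {s | s ∈ SM {t | hgt t ≤ g ∧ n ≤ 3 * t.length} ∧ s.length ≤ n / 2} ≤ ENNReal.ofReal y :=
    (gf_mono (Q := {s | s ∈ SM {t | hgt t ≤ g ∧ n ≤ 3 * t.length} ∧ s ∈ (Set.univ : Set (List Bool))})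
      fun s hs => ⟨hs.1, Set.mem_univ _⟩).trans hsm
  have c1 : gf {p | p ∈ Q ∧ p.length ≤ n} ≤ ENNReal.ofReal (2 * y / UU g) :=
    (gf_mono fun p hp => hp.1).trans hQw
  have e1 : ((n : ℝ) / n) ^ (2 * a - 1) = 1 := by
    rw [div_self hn0.ne', Real.one_rpow]
  rw [e1, mul_one] at b1
  have d1 := b1.trans (mul_le_mul' c1 le_rfl)
  have d2 := b2.trans (mul_le_mul' c2 le_rfl)
  have d3 := b3.trans (mul_le_mul' c3 le_rfl)
  refine (add_le_add d1 (add_le_add d2 d3)).trans ?_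
  rw [← mul_assoc, ← mul_assoc, ← ENNReal.ofReal_mul (by positivity), ← ENNReal.ofReal_mul (by positivity),
    ← add_mul, ← add_mul, ← ENNReal.ofReal_add (by positivity) (by positivity),
    ← ENNReal.ofReal_add (by positivity) (by positivity)]
  refine mul_le_mul' (ENNReal.ofReal_le_ofReal ?_) le_rfl
  have e2 : 2 * y / UU g * (KM a c C * V xB n) + (y * (C / (c * (1 / 2))) + y * (C / (c * (1 / 2)))) =
      y * (2 * KM a c C * (V xB n / UU g) + 4 * C / c) := by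
    field_simp
    ring
  rw [e2, hK3]
  have h5 : 0 ≤ V xB n / UU g := by positivity
  have h6 : 0 < C / c := by positivity
  have h7 : 4 * C / c = 4 * (C / c) := by ring
  rw [h7]
  have h8 : 2 * KM a c C * (V xB n / UU g) + 4 * (C / c) ≤ (2 + 2 * KM a c C + 4 * (C / c)) * (1 + V xB n / UU g) := by
    nlinarith [mul_nonneg h6.le h5]
  calc y * (2 * KM a c C * (V xB n / UU g) + 4 * (C / c)) ≤
      y * ((2 + 2 * KM a c C + 4 * (C / c)) * (1 + V xB n / UU g)) := by gcongr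
    _ = _ := by ring

end E2

end HexObs
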