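import Pool.Agent.E2.Low
import Pool.Agent.NT.SeqDefsH

/-!
E2: hereditary classes; the Hoelder modulus of the bridges with exactly n letters.
-/

set_option autoImplicit false

namespace HexObs

namespace E2

open Finset TS NTm SDN

open scoped ENNReal

variable {a b c C : ℝ}

/-- **hereditary classes** -/
theorem hered_of (h : Reg xB a b c C) : ∃ K1 : ℝ, 0 < K1 ∧ ∀ (n : ℕ) (d ε : ℝ) (E H : Set (List Bool)), Even n →
    0 < d → d ≤ 1 / 8 → 1 ≤ d * n → 0 ≤ ε →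
    (∀ s ∈ BU, ∀ u ∈ BU, s ∈ E → s ++ u ∈ E) → (∀ s ∈ BU, ∀ u ∈ BU, u ∈ E → s ++ u ∈ E) →
    (∀ s ∈ BU, ∀ u ∈ BU, s ++ u ∈ H → s ∈ E ∨ u ∈ E) →
    gf {t | t ∈ BU ∧ t.length ≤ 2 * n ∧ t ∈ E} ≤ ENNReal.ofReal (ε * V xB n) →
    gf {t | t ∈ BW n ∧ t ∈ H} ≤ ENNReal.ofReal (K1 * (d ^ (2 * a - 1) + ε / d)) * gf (BW n) := by
  obtain ⟨K1, hK1, key⟩ := cut_split h
  refine ⟨2 * K1, by positivity, ?_⟩
  intro n d ε E H he hd hd8 hdn hε hE1 hE2 hH hT
  have hV := h.one_le n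
  have hB : BLe n ⊆ BU := fun t ht => ht.1
  have h1 : gf {s | s ∈ PM E ∧ s.length ≤ n} ≤ ENNReal.ofReal ε := by
    have h2 : gf {s | s ∈ PM E ∧ s ∈ {s : List Bool | s.length ≤ n}} * gf (BLe n) ≤
        gf {t | t ∈ BU ∧ t.length ≤ 2 * n ∧ t ∈ E} := by
      refine stop_pre hB fun s hs hl u hu => ?_
      have hl' : s.length ≤ n := hl
      have hu' := hu.2
      exact ⟨app hs.1 hu.1, by rw [List.length_append]; omega, hE1 s hs.1 u hu.1 hs.2.1⟩
    rw [gf_BLe] at h2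
    refine (div_of_mul (by linarith) (h2.trans hT)).trans (le_of_eq ?_)
    rw [mul_div_cancel_right₀ _ (by linarith)]
  have h2 : gf {s | s ∈ SM E ∧ s.length ≤ n} ≤ ENNReal.ofReal ε := by
    have h2 : gf {s | s ∈ SM E ∧ s ∈ {s : List Bool | s.length ≤ n}} * gf (BLe n) ≤
        gf {t | t ∈ BU ∧ t.length ≤ 2 * n ∧ t ∈ E} := by
      refine stop_suf hB fun s hs hl u hu => ?_
      have hl' : s.length ≤ n := hl
      have hu' := hu.2
      exact ⟨app hu.1 hs.1, by rw [List.length_append]; omega, hE2 u hu.1 s hs.1 hs.2.1⟩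
    rw [gf_BLe] at h2
    refine (div_of_mul (by linarith) (h2.trans hT)).trans (le_of_eq ?_)
    rw [mul_div_cancel_right₀ _ (by linarith)]
  refine (key n d E E H he hd hd8 hdn fun s hs u hu hsu _ _ => hH s hs u hu hsu).trans ?_
  refine mul_le_mul' ?_ le_rfl
  refine (add_le_add le_rfl (mul_le_mul' (add_le_add h1 h2) le_rfl)).trans ?_
  rw [← ENNReal.ofReal_add hε hε, ← ENNReal.ofReal_mul (by positivity), ← ENNReal.ofReal_add (by positivity) (by positivity)]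
  apply ENNReal.ofReal_le_ofReal
  have h3 : 0 ≤ K1 * d ^ (2 * a - 1) := by positivity
  have h4 : (ε + ε) * (K1 / d) = 2 * K1 * (ε / d) := by
    field_simp
    ring
  rw [h4]
  nlinarith

/-- a displacement of at least X times the power p of the time -/
def Dev (X p : ℝ) : Set (List Bool) :=
  {t | ∃ (dir : Bool) (i j : ℕ), i < j ∧ j ≤ t.length ∧
    X * ((j : ℝ) - i) ^ p ≤ |((lvl dir (vx oo up t j) - lvl dir (vx oo up t i) : ℤ) : ℝ)|}

lemma BU_dx {s : List Bool} (hs : s ∈ BU) : dx up s s.length = up := by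
  obtain ⟨n, hn⟩ := hs
  exact (mem_Brd.1 hn).2.2.1

lemma lvl_pre {s u : List Bool} {dir : Bool} {i : ℕ} (hi : i ≤ s.length) :
    lvl dir (vx oo up (s ++ u) i) = lvl dir (vx oo up s i) := by
  rw [vx_append (by omega)]

lemma lvl_suf {s u : List Bool} (hs : s ∈ BU) (dir : Bool) (j : ℕ) :
    lvl dir (vx oo up (s ++ u) (s.length + j)) = lvl dir (vx oo up s s.length) + lvl dir (vx oo up u j) := by
  rw [vx_cat (BU_dx hs)]
  unfold lvl
  rw [ip_add_left]

lemma Dev_pre {X p : ℝ} {s u : List Bool} (h : s ∈ Dev X p) : s ++ u ∈ Dev X p := by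
  obtain ⟨dir, i, j, h1, h2, h3⟩ := h
  refine ⟨dir, i, j, h1, by rw [List.length_append]; omega, ?_⟩
  rw [lvl_pre h2, lvl_pre (by omega)]
  exact h3

lemma Dev_suf {X p : ℝ} {s u : List Bool} (hs : s ∈ BU) (h : u ∈ Dev X p) : s ++ u ∈ Dev X p := by
  obtain ⟨dir, i, j, h1, h2, h3⟩ := h
  refine ⟨dir, s.length + i, s.length + j, by omega, by rw [List.length_append]; omega, ?_⟩
  rw [lvl_suf hs, lvl_suf hs]
  have e1 : lvl dir (vx oo up s s.length) + lvl dir (vx oo up u j) - (lvl dir (vx oo up s s.length) + lvl dir (vx oo up u i)) =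
      lvl dir (vx oo up u j) - lvl dir (vx oo up u i) := by ring
  rw [e1]
  have e2 : (((s.length + j : ℕ) : ℝ) - ((s.length + i : ℕ) : ℝ)) = (j : ℝ) - i := by
    push_cast
    ring
  rw [e2]
  exact h3

lemma Dev_split {X p : ℝ} (hX : 0 ≤ X) (hp : 0 ≤ p) {s u : List Bool} (hs : s ∈ BU)
    (h : s ++ u ∈ Dev (2 * X) p) : s ∈ Dev X p ∨ u ∈ Dev X p := by
  obtain ⟨dir, i, j, h1, h2, h3⟩ := h
  rw [List.length_append] at h2
  have hji : (0 : ℝ) < (j : ℝ) - i := by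
    have : (i : ℝ) < j := by exact_mod_cast h1
    linarith
  have hpow : 0 ≤ ((j : ℝ) - i) ^ p := by positivity
  by_cases c1 : j ≤ s.length
  · left
    refine ⟨dir, i, j, h1, c1, ?_⟩
    rw [lvl_pre c1, lvl_pre (by omega)] at h3
    refine le_trans ?_ h3
    nlinarith
  push Not at c1
  obtain ⟨j', hj'⟩ : ∃ j', j = s.length + j' := ⟨j - s.length, by omega⟩
  by_cases c2 : s.length ≤ i
  · right
    obtain ⟨i', hi'⟩ : ∃ i', i = s.length + i' := ⟨i - s.length, by omega⟩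
    refine ⟨dir, i', j', by omega, by omega, ?_⟩
    rw [hi', hj', lvl_suf hs, lvl_suf hs] at h3
    have e1 : lvl dir (vx oo up s s.length) + lvl dir (vx oo up u j') - (lvl dir (vx oo up s s.length) + lvl dir (vx oo up u i')) =
        lvl dir (vx oo up u j') - lvl dir (vx oo up u i') := by ring
    have e2 : (((s.length + j' : ℕ) : ℝ) - ((s.length + i' : ℕ) : ℝ)) = (j' : ℝ) - i' := by
      push_cast
      ring
    rw [e1, e2] at h3
    refine le_trans ?_ h3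
    have h4 : (0 : ℝ) ≤ (j' : ℝ) - i' := by
      have : (i' : ℝ) ≤ j' := by exact_mod_cast (by omega : i' ≤ j')
      linarith
    have : 0 ≤ ((j' : ℝ) - i') ^ p := by positivity
    nlinarith
  push Not at c2
  -- the two parts
  have h5 : |((lvl dir (vx oo up (s ++ u) j) - lvl dir (vx oo up (s ++ u) i) : ℤ) : ℝ)| ≤
      |((lvl dir (vx oo up s s.length) - lvl dir (vx oo up s i) : ℤ) : ℝ)| +
      |((lvl dir (vx oo up u j') - lvl dir (vx oo up u 0) : ℤ) : ℝ)| := by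
    rw [hj', lvl_suf hs, lvl_pre c2.le]
    have e0 : lvl dir (vx oo up u 0) = 0 := by
      show ip oo (hd dir) = 0
      unfold ip oo
      simp
    rw [e0]
    refine le_trans (le_of_eq ?_) (abs_add_le _ _)
    congr 1
    push_cast
    ring
  have h6 : 2 * X * ((j : ℝ) - i) ^ p ≤ |((lvl dir (vx oo up s s.length) - lvl dir (vx oo up s i) : ℤ) : ℝ)| +
      |((lvl dir (vx oo up u j') - lvl dir (vx oo up u 0) : ℤ) : ℝ)| := h3.trans h5
  have h7 : ((s.length : ℝ) - i) ^ p ≤ ((j : ℝ) - i) ^ p := by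
    apply Real.rpow_le_rpow _ _ hp
    · have : (i : ℝ) ≤ s.length := by exact_mod_cast c2.le
      linarith
    · have : (s.length : ℝ) ≤ j := by exact_mod_cast c1.le
      linarith
  have h8 : ((j' : ℝ) - (0 : ℕ)) ^ p ≤ ((j : ℝ) - i) ^ p := by
    apply Real.rpow_le_rpow _ _ hp
    · simp
    · have : (i : ℝ) ≤ s.length := by exact_mod_cast c2.le
      rw [hj']
      push_cast
      linarith
  by_cases c3 : X * ((j : ℝ) - i) ^ p ≤ |((lvl dir (vx oo up s s.length) - lvl dir (vx oo up s i) : ℤ) : ℝ)|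
  · left
    exact ⟨dir, i, s.length, c2, le_rfl, (mul_le_mul_of_nonneg_left h7 hX).trans c3⟩
  · right
    refine ⟨dir, 0, j', by omega, by omega, (mul_le_mul_of_nonneg_left h8 hX).trans ?_⟩
    push Not at c3
    linarith

/-- **the modulus at exact length** -/
theorem dev_of (h : Reg xB a b c C) : ∃ K1 : ℝ, 0 < K1 ∧ ∀ (n : ℕ) (d ε X p : ℝ), Even n →
    0 < d → d ≤ 1 / 8 → 1 ≤ d * n → 0 ≤ ε → 0 ≤ X → 0 ≤ p →
    gf {t | t ∈ BU ∧ t.length ≤ 2 * n ∧ t ∈ Dev X p} ≤ ENNReal.ofReal (ε * V xB n) →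
    gf {t | t ∈ BW n ∧ t ∈ Dev (2 * X) p} ≤ ENNReal.ofReal (K1 * (d ^ (2 * a - 1) + ε / d)) * gf (BW n) := by
  obtain ⟨K1, hK1, key⟩ := hered_of h
  refine ⟨K1, hK1, ?_⟩
  intro n d ε X p he hd hd8 hdn hε hX hp hT
  exact key n d ε (Dev X p) (Dev (2 * X) p) he hd hd8 hdn hε (fun s _ u _ hs => Dev_pre hs)
    (fun s hs u _ hu => Dev_suf hs hu) (fun s hs u _ hsu => Dev_split hX hp hs hsu) hT

end E2

end HexObs
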