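import Pool.Agent.NT.FactsG

/-!
E2: the bridges with n + 1 steps, n even: the bridges with n steps and one more step.
-/

set_option autoImplicit false

namespace E2F

open Finset

open HexObs hiding pos

open HexObs.SDN HexObs.NTm NTF

open Pool.Agent.NT.ResNat

/-- one more step, in the direction of the bridge -/
def up1 {m : ℕ} (s : Fin m → Fin 3) : Fin (m + 1) → Fin 3 := Fin.snoc (α := fun _ => Fin 3) s 0

lemma up1_cast {m : ℕ} (s : Fin m → Fin 3) (i : ℕ) (hi : i < m) : up1 s ⟨i, by omega⟩ = s ⟨i, hi⟩ := by
  have h := Fin.snoc_castSucc (α := fun _ => Fin 3) (x := (0 : Fin 3)) (p := s) (i := ⟨i, hi⟩)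
  exact h

lemma up1_last {m : ℕ} (s : Fin m → Fin 3) : up1 s ⟨m, by omega⟩ = 0 := by
  have h := Fin.snoc_last (α := fun _ => Fin 3) (0 : Fin 3) s
  exact h

lemma up1_inj {m : ℕ} : Function.Injective (up1 (m := m)) := by
  intro s s' h
  funext i
  have h1 := congrFun h ⟨i, by omega⟩
  rw [up1_cast s i i.2, up1_cast s' i i.2] at h1
  exact h1

lemma pos_agree {m n : ℕ} {s : Fin m → Fin 3} {s' : Fin n → Fin 3} (hmn : m ≤ n)
    (h : ∀ i (hi : i < m), s' ⟨i, by omega⟩ = s ⟨i, hi⟩) (k : ℕ) (hk : k ≤ m) : pos s' k = pos s k := by
  induction k with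
  | zero => rw [pos_zero, pos_zero]
  | succ k ih => rw [pos_succ s' k (by omega), pos_succ s k hk, ih (by omega), h k hk]

lemma pos_up1 {m : ℕ} (s : Fin m → Fin 3) (k : ℕ) (hk : k ≤ m) : pos (up1 s) k = pos s k :=
  pos_agree (Nat.le_succ m) (fun i hi => up1_cast s i hi) k hk

lemma step_zero {m : ℕ} (hm : Even m) : step m 0 = 1 := by
  unfold step
  rw [hm.neg_one_pow]
  simp

lemma pos_up1_top {m : ℕ} (hm : Even m) (s : Fin m → Fin 3) : pos (up1 s) (m + 1) = pos s m + 1 := by
  rw [pos_succ _ m (by omega), pos_up1 s m le_rfl, up1_last, step_zero hm]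

/-- integer levels -/
lemma levels {n : ℕ} (s : Fin n → Fin 3) : ∃ L : ℕ → ℤ, L 0 = 0 ∧ (∀ k, k ≤ n → (pos s k).re = (L k : ℝ) / 2) ∧
    (∀ k (hk : k < n), L (k + 1) = L k + lvl false (de k (s ⟨k, hk⟩))) ∧
    ∀ k, k ≤ n → (3 : ℤ) ∣ L k + (if Even k then 0 else 1) := by
  obtain ⟨L, hL⟩ : ∃ L : ℕ → ℤ, L = fun k => ∑ i ∈ range k, if h : i < n then lvl false (de i (s ⟨i, h⟩)) else 0 := ⟨_, rfl⟩
  have hs : ∀ k (hk : k < n), L (k + 1) = L k + lvl false (de k (s ⟨k, hk⟩)) := by
    intro k hk
    rw [hL]
    show ∑ i ∈ range (k + 1), _ = _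
    rw [sum_range_succ, dif_pos hk]
  have h0 : L 0 = 0 := by
    rw [hL]
    rfl
  refine ⟨L, h0, ?_, hs, ?_⟩
  · intro k
    induction k with
    | zero =>
      intro _
      rw [pos_zero, h0]
      simp
    | succ k ih =>
      intro hk
      rw [pos_succ s k hk, Complex.add_re, ih (by omega), ← JJ_de, JJ_lvl, hs k hk]
      push_cast
      ring
  · intro k
    induction k with
    | zero =>
      intro _
      rw [h0]
      simp
    | succ k ih =>
      intro hk
      have h1 := ih (by omega)
      rw [hs k hk]
      have ke : ∀ a : Fin 3, (3 : ℤ) ∣ lvl false (Ed a) + 1 := by decide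
      have ko : ∀ a : Fin 3, (3 : ℤ) ∣ lvl false (-Ed a) - 1 := by decide
      rcases Nat.even_or_odd k with h | h
      · rw [if_pos h] at h1
        rw [if_neg (by rw [Nat.even_add_one]; exact fun h' => h' h)]
        have h2 : de k (s ⟨k, hk⟩) = Ed (s ⟨k, hk⟩) := by
          unfold de
          rw [if_pos h]
        rw [h2]
        have := ke (s ⟨k, hk⟩)
        omega
      · have hne := Nat.not_even_iff_odd.2 h
        rw [if_neg hne] at h1
        rw [if_pos (by rw [Nat.even_add_one]; exact hne)]
        have h2 : de k (s ⟨k, hk⟩) = -Ed (s ⟨k, hk⟩) := by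
          unfold de
          rw [if_neg hne]
        rw [h2]
        have := ko (s ⟨k, hk⟩)
        omega

/-- **the bridges with n + 1 steps, n even** -/
theorem bridges_succ {m : ℕ} (hm : Even m) (hm1 : 1 ≤ m) : bridges (m + 1) = (bridges m).image up1 := by
  ext s
  rw [Finset.mem_image]
  constructor
  · intro hs
    rw [mem_bridges] at hs
    obtain ⟨hinj, hre⟩ := hs
    obtain ⟨L, L0, L1, L2, L3⟩ := levels s
    -- the last step
    have ke : ∀ a : Fin 3, lvl false (Ed a) = 2 ∧ a = 0 ∨ lvl false (Ed a) = -1 := by decide
    have ko : ∀ a : Fin 3, lvl false (-Ed a) = -2 ∨ lvl false (-Ed a) = 1 := by decide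
    have hle : ∀ k, 1 ≤ k → k ≤ m + 1 → 0 < L k ∧ L k ≤ L (m + 1) := by
      intro k k1 k2
      obtain ⟨h1, h2⟩ := hre k k1 k2
      rw [L1 k k2] at h1 h2
      rw [L1 (m + 1) le_rfl] at h2
      constructor
      · have : (0 : ℝ) < L k := by linarith
        exact_mod_cast this
      · have : (L k : ℝ) ≤ L (m + 1) := by linarith
        exact_mod_cast this
    have hlast : s ⟨m, by omega⟩ = 0 ∧ L (m + 1) = L m + 2 := by
      have h1 := L2 m (by omega)
      have h2 := (hle m hm1 (by omega)).2
      have h3 : de m (s ⟨m, by omega⟩) = Ed (s ⟨m, by omega⟩) := by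
        unfold de
        rw [if_pos hm]
      rw [h3] at h1
      rcases ke (s ⟨m, by omega⟩) with h4 | h4
      · exact ⟨h4.2, by rw [h1, h4.1]⟩
      · rw [h4] at h1
        omega
    obtain ⟨s', hs'⟩ : ∃ s' : Fin m → Fin 3, s' = fun i : Fin m => s ⟨i.1, by have := i.2; omega⟩ := ⟨_, rfl⟩
    have hup : up1 s' = s := by
      funext i
      rcases Nat.lt_or_ge i m with h | h
      · have := up1_cast s' i h
        rw [hs'] at this ⊢
        exact this
      · have h1 : i = ⟨m, by omega⟩ := Fin.ext (by show (i : ℕ) = m; have := i.2; omega)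
        rw [h1, up1_last, hlast.1]
    refine ⟨s', ?_, hup⟩
    have hpos : ∀ k, k ≤ m → pos s' k = pos s k := fun k hk => by rw [← hup, pos_up1 s' k hk]
    rw [mem_bridges]
    constructor
    · intro j k hj hk h
      rw [hpos j hj, hpos k hk] at h
      exact hinj j k (by omega) (by omega) h
    · intro k k1 k2
      rw [hpos k k2, hpos m le_rfl]
      refine ⟨(hre k k1 (by omega)).1, ?_⟩
      rw [L1 k (by omega), L1 m (by omega)]
      have key : L k ≤ L m := by
        by_contra hcon
        push Not at hcon
        have h1 := (hle k k1 (by omega)).2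
        rw [hlast.2] at h1
        have h2 := L3 k (by omega)
        have h3 := L3 m (by omega)
        rw [if_pos hm] at h3
        rcases Nat.even_or_odd k with h | h
        · rw [if_pos h] at h2
          omega
        · have hne := Nat.not_even_iff_odd.2 h
          rw [if_neg hne] at h2
          have h4 : L k = L m + 2 := by omega
          have hkm : k < m := by
            rcases Nat.lt_or_ge k m with h5 | h5
            · exact h5
            · exact absurd ((show k = m by omega) ▸ hm) hne
          -- the next step
          have h5 := L2 k (by omega)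
          have h6 : de k (s ⟨k, by omega⟩) = -Ed (s ⟨k, by omega⟩) := by
            unfold de
            rw [if_neg hne]
          rw [h6] at h5
          have h7 := (hle (k + 1) (by omega) (by omega)).2
          rw [hlast.2] at h7
          obtain ⟨k', hk'⟩ : ∃ k', k = k' + 1 := ⟨k - 1, by omega⟩
          subst hk'
          have hev : Even k' := by
            rw [Nat.even_add_one, not_not] at hne
            exact hne
          have h8 := L2 k' (by omega)
          have h9 : de k' (s ⟨k', by omega⟩) = Ed (s ⟨k', by omega⟩) := by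
            unfold de
            rw [if_pos hev]
          rw [h9] at h8
          have ko2 : ∀ a : Fin 3, lvl false (-Ed a) = -2 → a = 0 := by decide
          rcases ke (s ⟨k', by omega⟩) with g1 | g1
          · rcases ko (s ⟨k' + 1, by omega⟩) with g2 | g2
            · -- back and forth
              have g3 := ko2 _ g2
              have g4 : pos s (k' + 1 + 1) = pos s k' := by
                rw [pos_succ s (k' + 1) (by omega), pos_succ s k' (by omega), ← JJ_de, ← JJ_de]
                have g5 : de (k' + 1) (s ⟨k' + 1, by omega⟩) = -Ed (s ⟨k' + 1, by omega⟩) := h6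
                rw [g5, h9, g3, g1.2, JJ_neg]
                ring
              have := hinj _ _ (by omega) (by omega) g4
              omega
            · rw [g2] at h5
              omega
          · rw [g1] at h8
            rcases Nat.eq_zero_or_pos k' with h0 | h0
            · subst h0
              rw [L0] at h8
              have := (hle (0 + 1) le_rfl (by omega)).1
              omega
            · have := (hle k' h0 (by omega)).2
              rw [hlast.2] at this
              omega
      have : (L k : ℝ) ≤ L m := by exact_mod_cast key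
      linarith
  · rintro ⟨s', hs', rfl⟩
    rw [mem_bridges] at hs' ⊢
    obtain ⟨hinj, hre⟩ := hs'
    have htop : (pos (up1 s') (m + 1)).re = (pos s' m).re + 1 := by
      rw [pos_up1_top hm, Complex.add_re, Complex.one_re]
    have hlt : ∀ k, k ≤ m → (pos (up1 s') k).re < (pos (up1 s') (m + 1)).re := by
      intro k hk
      rw [htop, pos_up1 s' k hk]
      rcases Nat.eq_zero_or_pos k with h0 | h0
      · rw [h0, pos_zero, Complex.zero_re]
        have := (hre m hm1 le_rfl).1
        linarith
      · have := (hre k h0 hk).2
        linarith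
    constructor
    · intro j k hj hk h
      rcases Nat.lt_or_ge m j with h1 | h1
      · rcases Nat.lt_or_ge m k with h2 | h2
        · omega
        · exfalso
          have h3 : j = m + 1 := by omega
          subst h3
          have := hlt k h2
          rw [h] at this
          exact lt_irrefl _ this
      · rcases Nat.lt_or_ge m k with h2 | h2
        · exfalso
          have h3 : k = m + 1 := by omega
          subst h3
          have := hlt j h1
          rw [h] at this
          exact lt_irrefl _ this
        · rw [pos_up1 s' j h1, pos_up1 s' k h2] at h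
          exact hinj j k h1 h2 h
    · intro k k1 k2
      rcases Nat.lt_or_ge m k with h2 | h2
      · have h3 : k = m + 1 := by omega
        subst h3
        refine ⟨?_, le_rfl⟩
        rw [htop]
        have := (hre m hm1 le_rfl).1
        linarith
      · refine ⟨?_, (hlt k h2).le⟩
        rw [pos_up1 s' k h2]
        exact (hre k k1 h2).1

end E2F
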