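import Pool.Agent.E2.Stop

/-!
E2: the weight of a class of irreducible bridges, from the first passage.
-/

set_option autoImplicit false

namespace HexObs

namespace E2

open Finset TS NTm

open scoped ENNReal

/-- the bridges with at most n letters -/
def BLe (n : ℕ) : Set (List Bool) := {t | t ∈ BU ∧ t.length ≤ n}

lemma BLe_ne_top (n : ℕ) : gf (BLe n) ≠ ∞ :=
  BrL.gf_finite ((List.finite_length_le Bool n).subset fun _ h => h.2)

lemma BW_ne_top (n : ℕ) : gf (BW n) ≠ ∞ :=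
  BrL.gf_finite ((List.finite_length_eq Bool n).subset fun _ h => h.2)

lemma one_le_BLe (n : ℕ) : 1 ≤ gf (BLe n) := by
  rw [← wE_nil, ← gf_single]
  apply gf_mono
  rintro t rfl
  exact ⟨nil_BU, Nat.zero_le _⟩

/-- no piece of Q -/
def NB (Q : Set (List Bool)) (n : ℕ) : Set (List Bool) :=
  {s | s ∈ BLe n ∧ ∀ s1 ∈ BU, ∀ p ∈ Q, ∀ s2 ∈ BU, s ≠ s1 ++ (p ++ s2)}

private lemma first_bad {Q : Set (List Bool)} (hQ : Q ⊆ IU) {n : ℕ} : ∀ (N : ℕ) (s s1 p s2 : List Bool), s1.length ≤ N →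
    s ∈ BLe n → s1 ∈ BU → p ∈ Q → s2 ∈ BU → s = s1 ++ (p ++ s2) →
    ∃ s1 ∈ NB Q n, ∃ p ∈ Q, ∃ s2 ∈ BLe n, s = (s1 ++ p) ++ s2 := by
  intro N
  induction N with
  | zero =>
    intro s s1 p s2 hl hs h1 hp h2 e
    have h3 : s1 = [] := List.length_eq_zero_iff.1 (by omega)
    subst h3
    have hlen := hs.2
    rw [e] at hlen
    simp only [List.length_append, List.length_nil] at hlen
    refine ⟨[], ⟨⟨nil_BU, Nat.zero_le _⟩, fun a _ q hq b _ e2 => ?_⟩, p, hp, s2, ⟨h2, by omega⟩, ?_⟩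
    · have h4 := congrArg List.length e2
      have h5 := IU_len (hQ hq)
      simp only [List.length_append, List.length_nil] at h4
      omega
    · rw [e, List.append_assoc]
  | succ N ih =>
    intro s s1 p s2 hl hs h1 hp h2 e
    have hlen := hs.2
    rw [e] at hlen
    simp only [List.length_append] at hlen
    by_cases h : s1 ∈ NB Q n
    · exact ⟨s1, h, p, hp, s2, ⟨h2, by omega⟩, by rw [e, List.append_assoc]⟩
    · have h3 : ¬ ∀ a ∈ BU, ∀ q ∈ Q, ∀ b ∈ BU, s1 ≠ a ++ (q ++ b) := fun h3 => h ⟨⟨h1, by omega⟩, h3⟩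
      push Not at h3
      obtain ⟨a, ha, q, hq, b, hb, e2⟩ := h3
      have h5 := IU_len (hQ hq)
      have h6 : a.length ≤ N := by
        rw [e2] at hl
        simp only [List.length_append] at hl
        omega
      refine ih s a q (b ++ (p ++ s2)) h6 hs ha hq (app hb (app (IU_BU (hQ hp)) h2)) ?_
      rw [e, e2]
      simp only [List.append_assoc]

/-- **the weight of a class of pieces** -/
theorem piece {Q E : Set (List Bool)} (hQ : Q ⊆ IU) {n : ℕ} (hn : ∀ p ∈ Q, p.length ≤ n)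
    (hE : ∀ s ∈ BU, ∀ p ∈ Q, s ∈ E ∨ s ++ p ∈ E)
    (hy : gf {s | s ∈ PM E ∧ s.length ≤ 2 * n} ≤ 1 / 2) :
    gf Q * gf (BLe n) ≤ 2 * gf {s | s ∈ PM E ∧ s.length ≤ 2 * n} := by
  obtain ⟨A, hA⟩ : ∃ A : Set (List Bool), A = {t | ∃ s ∈ NB Q n, ∃ p ∈ Q, t = s ++ p} := ⟨_, rfl⟩
  have hBU : A ⊆ BU := by
    rw [hA]
    rintro t ⟨s, hs, p, hp, rfl⟩
    exact app hs.1.1 (IU_BU (hQ hp))
  have hanti : Anti A := by
    refine ⟨hBU, ?_⟩
    rw [hA]
    rintro t ⟨s, hs, p, hp, rfl⟩ v hv ⟨s', hs', p', hp', e⟩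
    rcases le_or_gt (s ++ p).length s'.length with hl | hl
    · obtain ⟨w, hw, e1, -⟩ := cmp (app hs.1.1 (IU_BU (hQ hp))) hv hs'.1.1 e hl
      exact absurd (by rw [e1, List.append_assoc]) (hs'.2 s hs.1.1 p hp w hw)
    · obtain ⟨w, hw, e1, e2⟩ := cmp hs'.1.1 (IU_BU (hQ hp')) (app hs.1.1 (IU_BU (hQ hp))) e.symm hl.le
      rcases IU_irr (hQ hp') hw hv e2 with h | h
      · rw [e1, h, List.append_nil] at hl
        exact absurd hl (lt_irrefl _)
      · exact h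
  have h1 : gf (NB Q n) * gf Q ≤ gf A := by
    refine mul_le_gf (fun s hs p hp => ?_) fun s hs p hp s' hs' p' hp' e =>
      last_uniq hs.1.1 hs'.1.1 (hQ hp) (hQ hp') e
    rw [hA]
    exact ⟨s, hs, p, hp, rfl⟩
  have h2 : gf A ≤ gf {s | s ∈ PM E ∧ s.length ≤ 2 * n} := by
    refine dominate hanti fun t ht => ?_
    rw [hA] at ht
    obtain ⟨s, hs, p, hp, rfl⟩ := ht
    have hls := hs.1.2
    have hlp := hn p hp
    rcases hE s hs.1.1 p hp with h | h
    · obtain ⟨r, hr, v, hv, e⟩ := PM_ex E s.length s le_rfl hs.1.1 h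
      refine ⟨r, ⟨hr, ?_⟩, hr.1, v ++ p, app hv (IU_BU (hQ hp)), by rw [e, List.append_assoc]⟩
      rw [e, List.length_append] at hls
      omega
    · obtain ⟨r, hr, v, hv, e⟩ := PM_ex E _ (s ++ p) le_rfl (app hs.1.1 (IU_BU (hQ hp))) h
      refine ⟨r, ⟨hr, ?_⟩, hr.1, v, hv, e⟩
      have h3 := congrArg List.length e
      rw [List.length_append, List.length_append] at h3
      omega
  have h3 : gf (BLe n) ≤ gf (NB Q n) + gf A * gf (BLe n) := by
    have h4 : BLe n ⊆ NB Q n ∪ {t | ∃ s ∈ A, ∃ u ∈ BLe n, t = s ++ u} := by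
      intro s hs
      by_cases h : s ∈ NB Q n
      · exact Or.inl h
      · right
        have h5 : ¬ ∀ a ∈ BU, ∀ q ∈ Q, ∀ b ∈ BU, s ≠ a ++ (q ++ b) := fun h5 => h ⟨hs, h5⟩
        push Not at h5
        obtain ⟨a, ha, q, hq, b, hb, e⟩ := h5
        obtain ⟨s1, g1, p, g2, s2, g3, g4⟩ := first_bad hQ a.length s a q b le_rfl hs ha hq hb e
        refine ⟨s1 ++ p, ?_, s2, g3, g4⟩
        rw [hA]
        exact ⟨s1, g1, p, g2, rfl⟩
    exact (gf_mono h4).trans ((gf_union_le _ _).trans (add_le_add le_rfl (gf_le_mul fun t ht => by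
      obtain ⟨s, hs, u, hu, e⟩ := ht
      exact ⟨s, hs, u, hu, e⟩)))
  have h4 : gf (BLe n) ≤ 2 * gf (NB Q n) := by
    have h5 : gf A * gf (BLe n) ≤ 2⁻¹ * gf (BLe n) := by
      refine mul_le_mul' (h2.trans (hy.trans (le_of_eq (by rw [one_div])))) le_rfl
    have h6 : 2⁻¹ * gf (BLe n) + 2⁻¹ * gf (BLe n) ≤ gf (NB Q n) + 2⁻¹ * gf (BLe n) := by
      rw [← add_mul, ENNReal.inv_two_add_inv_two, one_mul]
      exact h3.trans (add_le_add le_rfl h5)
    have h7 : 2⁻¹ * gf (BLe n) ≠ ∞ := ENNReal.mul_ne_top (by simp) (BLe_ne_top n)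
    have h8 := (ENNReal.add_le_add_iff_right h7).1 h6
    calc gf (BLe n) = 2 * (2⁻¹ * gf (BLe n)) := by
          rw [← mul_assoc, ENNReal.mul_inv_cancel (by simp) (by simp), one_mul]
      _ ≤ _ := mul_le_mul' le_rfl h8
  calc gf Q * gf (BLe n) ≤ gf Q * (2 * gf (NB Q n)) := mul_le_mul' le_rfl h4
    _ = 2 * (gf (NB Q n) * gf Q) := by ring
    _ ≤ 2 * gf {s | s ∈ PM E ∧ s.length ≤ 2 * n} := mul_le_mul' le_rfl (h1.trans h2)

/-- **the tail of the law of the irreducible bridges** -/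
theorem tail_IU (m : ℕ) : gf {p | p ∈ IU ∧ m < p.length} * gf (BLe m) ≤ 1 := by
  obtain ⟨A, hA⟩ : ∃ A : Set (List Bool), A = {t | ∃ s ∈ BLe m, ∃ p ∈ {p | p ∈ IU ∧ m < p.length}, t = s ++ p} :=
    ⟨_, rfl⟩
  have hanti : Anti A := by
    constructor
    · rw [hA]
      rintro t ⟨s, hs, p, hp, rfl⟩
      exact app hs.1 (IU_BU hp.1)
    · rw [hA]
      rintro t ⟨s, hs, p, hp, rfl⟩ v hv ⟨s', hs', p', hp', e⟩
      have hp2 : m < p.length := hp.2
      have hs2 := hs'.2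
      have hl : s'.length ≤ (s ++ p).length := by
        rw [List.length_append]
        omega
      obtain ⟨w, hw, e1, e2⟩ := cmp hs'.1 (IU_BU hp'.1) (app hs.1 (IU_BU hp.1)) e.symm hl
      rcases IU_irr hp'.1 hw hv e2 with h | h
      · have h3 := congrArg List.length e1
        rw [h, List.append_nil, List.length_append] at h3
        omega
      · exact h
  have h1 : gf (BLe m) * gf {p | p ∈ IU ∧ m < p.length} ≤ gf A := by
    refine mul_le_gf (fun s hs p hp => ?_) fun s hs p hp s' hs' p' hp' e =>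
      last_uniq hs.1 hs'.1 hp.1 hp'.1 e
    rw [hA]
    exact ⟨s, hs, p, hp, rfl⟩
  rw [mul_comm]
  exact h1.trans (kraft hanti)

end E2

end HexObs
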