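import Pool.Agent.E2.Est
import Pool.Agent.PW.RenI

/-!
E2: the weights of the bridges with n letters are regular, from the two indices.
-/

set_option autoImplicit false

namespace HexObs

namespace E2

open Finset TS NTm

open scoped ENNReal

lemma xB_even (k : ℕ) : xB (2 * k) = BrL.ub k := rfl

lemma xB_odd {n : ℕ} (hn : ¬ Even n) : xB n = 0 := by
  have h1 : BW n = ∅ := by
    rw [Set.eq_empty_iff_forall_notMem]
    rintro t ⟨⟨h, ht⟩, hl⟩
    exact hn (hl ▸ BrL.even_length ht)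
  unfold xB
  rw [h1]
  unfold gf
  simp

/-- partial sums of ub -/
noncomputable def Wb (n : ℕ) : ℝ := ∑ j ∈ range n, BrL.ub j

lemma Wb_mono {m n : ℕ} (h : m ≤ n) : Wb m ≤ Wb n :=
  Finset.sum_le_sum_of_subset_of_nonneg (Finset.range_mono h) fun _ _ _ => ENNReal.toReal_nonneg

lemma Wb_nonneg (n : ℕ) : 0 ≤ Wb n := Finset.sum_nonneg fun _ _ => ENNReal.toReal_nonneg

lemma V_eq (n : ℕ) : V xB n = Wb (n / 2 + 1) := by
  have key : ∀ k : ℕ, V xB (2 * k) = Wb (k + 1) ∧ V xB (2 * k + 1) = Wb (k + 1) := by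
    intro k
    induction k with
    | zero =>
      have h0 : V xB (2 * 0) = Wb (0 + 1) := by
        unfold V Wb
        simp only [mul_zero, zero_add, Finset.sum_range_one]
        exact xB_even 0
      refine ⟨h0, ?_⟩
      have : V xB (2 * 0 + 1) = V xB (2 * 0) + xB (2 * 0 + 1) := Finset.sum_range_succ _ _
      rw [this, xB_odd (by decide), add_zero, h0]
    | succ k ih =>
      have e1 : V xB (2 * (k + 1)) = V xB (2 * k + 1) + xB (2 * (k + 1)) := by
        rw [show 2 * (k + 1) = (2 * k + 1) + 1 by ring]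
        exact Finset.sum_range_succ _ _
      have e2 : Wb (k + 1 + 1) = Wb (k + 1) + BrL.ub (k + 1) := Finset.sum_range_succ _ _
      have e3 : V xB (2 * (k + 1)) = Wb (k + 1 + 1) := by rw [e1, ih.2, e2, xB_even]
      refine ⟨e3, ?_⟩
      have e4 : V xB (2 * (k + 1) + 1) = V xB (2 * (k + 1)) + xB (2 * (k + 1) + 1) := Finset.sum_range_succ _ _
      have e5 : ¬ Even (2 * (k + 1) + 1) := by
        rw [Nat.not_even_iff_odd]
        exact ⟨k + 1, rfl⟩
      rw [e4, xB_odd e5, add_zero, e3]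
  rcases Nat.even_or_odd' n with ⟨k, hk | hk⟩
  · rw [hk, (key k).1]
    congr 1
    omega
  · rw [hk, (key k).2]
    congr 1
    omega

/-- **the two indices give a regular sequence** -/
theorem reg_of {a1 : ℝ} (h1 : 1 / 2 < a1) (h2 : a1 ≤ 3 / 5) (hI : BrL.IndB2 a1) :
    ∃ c C : ℝ, Reg xB a1 (3 / 5) c C := by
  obtain ⟨c', C', hc', hC', hpt⟩ := BrL.ub_two h1 h2 hI
  obtain ⟨c0, C0, hc0, hC0, hind⟩ := hI
  have hlo : ∀ b x : ℕ, 1 ≤ b → 1 ≤ x → c0 * (b : ℝ) ^ a1 * Wb x ≤ Wb (b * x) := fun b x hb hx => (hind b x hb hx).1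
  have hhi : ∀ b x : ℕ, 1 ≤ b → 1 ≤ x → Wb (b * x) ≤ C0 * (b : ℝ) ^ (3 / 5 : ℝ) * Wb x :=
    fun b x hb hx => (hind b x hb hx).2
  obtain ⟨D, hD⟩ : ∃ D : ℝ, D = C0 * (2 : ℝ) ^ (3 / 5 : ℝ) := ⟨_, rfl⟩
  have hD0 : 0 < D := by
    rw [hD]
    positivity
  obtain ⟨c, hc⟩ : ∃ c : ℝ, c = min (c' / D) (c0 / 6) := ⟨_, rfl⟩
  obtain ⟨C, hC⟩ : ∃ C : ℝ, C = max 1 (max (2 * C') (6 * C0)) := ⟨_, rfl⟩
  have hcpos : 0 < c := by
    rw [hc]
    exact lt_min (by positivity) (by positivity)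
  have hcD : c ≤ c' / D := by
    rw [hc]
    exact min_le_left _ _
  have hc6 : c ≤ c0 / 6 := by
    rw [hc]
    exact min_le_right _ _
  have hC1 : 1 ≤ C := by
    rw [hC]
    exact le_max_left _ _
  have hC2 : 2 * C' ≤ C := by
    rw [hC]
    exact (le_max_left _ _).trans (le_max_right _ _)
  have hC6 : 6 * C0 ≤ C := by
    rw [hC]
    exact (le_max_right _ _).trans (le_max_right _ _)
  have hub : ∀ k, BrL.ub k ≤ 1 := fun k => NUX.u_le_one BrL.ren k
  refine ⟨c, C, ⟨xB_nn, ?_, ?_, h1, by linarith, by norm_num, hcpos, hC1, ?_, ?_, ?_, ?_⟩⟩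
  · intro n
    rcases Nat.even_or_odd' n with ⟨k, hk | hk⟩
    · rw [hk, xB_even]
      exact hub k
    · rw [xB_odd (by rw [hk, Nat.not_even_iff_odd]; exact ⟨k, rfl⟩)]
      exact zero_le_one
  · have := xB_even 0
    rw [mul_zero] at this
    rw [this]
    exact BrL.ub_zero
  · -- up
    intro n hn
    have hn0 : (0 : ℝ) < n := by exact_mod_cast hn
    have hV0 : 0 ≤ V xB n := by
      rw [V_eq]
      exact Wb_nonneg _
    rcases Nat.even_or_odd' n with ⟨k, hk | hk⟩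
    · have hk1 : 1 ≤ k := by omega
      have hk0 : (0 : ℝ) < k := by exact_mod_cast hk1
      have e1 : xB n = BrL.ub k := by rw [hk, xB_even]
      have e2 : Wb k ≤ V xB n := by
        rw [V_eq]
        exact Wb_mono (by omega)
      have e3 : (n : ℝ) = 2 * k := by
        rw [hk]
        push_cast
        ring
      rw [e1]
      calc BrL.ub k ≤ C' * (Wb k / k) := (hpt k hk1).2
        _ ≤ C' * (V xB n / k) := by gcongr
        _ = 2 * C' * (V xB n / n) := by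
            rw [e3]
            field_simp
        _ ≤ C * (V xB n / n) := by gcongr
    · rw [xB_odd (by rw [hk, Nat.not_even_iff_odd]; exact ⟨k, rfl⟩)]
      positivity
  · -- low
    intro n hn he
    have hn0 : (0 : ℝ) < n := by exact_mod_cast hn
    have hV0 : 0 ≤ V xB n := by
      rw [V_eq]
      exact Wb_nonneg _
    obtain ⟨k, hk⟩ := he
    have hk1 : 1 ≤ k := by omega
    have hk0 : (0 : ℝ) < k := by exact_mod_cast hk1
    have hk2 : n = 2 * k := by omega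
    have e1 : xB n = BrL.ub k := by rw [hk2, xB_even]
    have e2 : V xB n ≤ D * Wb k := by
      rw [V_eq]
      calc Wb (n / 2 + 1) ≤ Wb (2 * k) := Wb_mono (by omega)
        _ ≤ C0 * ((2 : ℕ) : ℝ) ^ (3 / 5 : ℝ) * Wb k := hhi 2 k (by norm_num) hk1
        _ = D * Wb k := by
            rw [hD]
            norm_num
    have e3 : (n : ℝ) = 2 * k := by
      rw [hk2]
      push_cast
      ring
    have hW := Wb_nonneg k
    rw [e1]
    calc c * (V xB n / n) ≤ c' / D * (V xB n / n) := by gcongr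
      _ ≤ c' / D * (V xB n / k) := by
          gcongr
          omega
      _ ≤ c' / D * (D * Wb k / k) := by gcongr
      _ = c' * (Wb k / k) := by
          field_simp
      _ ≤ BrL.ub k := (hpt k hk1).1
  · -- lo
    intro m n hm hmn
    have hm0 : (0 : ℝ) < m := by exact_mod_cast hm
    have hn0 : (0 : ℝ) < n := by exact_mod_cast (show 0 < n by omega)
    obtain ⟨x, hx⟩ : ∃ x, x = m / 2 + 1 := ⟨_, rfl⟩
    obtain ⟨y, hy⟩ : ∃ y, y = n / 2 + 1 := ⟨_, rfl⟩
    obtain ⟨b, hb⟩ : ∃ b, b = y / x := ⟨_, rfl⟩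
    have hx1 : 1 ≤ x := by omega
    have hb1 : 1 ≤ b := by
      rw [hb]
      exact (Nat.one_le_div_iff (by omega)).2 (by omega)
    have hbx : b * x ≤ y := by
      rw [hb]
      exact Nat.div_mul_le_self y x
    have hbx2 : y < (b + 1) * x := by
      rw [hb]
      exact Nat.lt_mul_of_div_lt (Nat.lt_succ_self _) (by omega)
    rw [V_eq, V_eq, ← hx, ← hy]
    have h3 := hlo b x hb1 hx1
    have h4 := Wb_mono hbx
    have hb0 : (0 : ℝ) < b := by exact_mod_cast hb1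
    have h5 : (n : ℝ) / m ≤ 6 * b := by
      rw [div_le_iff₀ hm0]
      have h6 : n ≤ 6 * b * m := by
        have h7 : 2 * x ≤ 3 * m := by omega
        have h8 : n < 2 * ((b + 1) * x) := by omega
        have h9 : 2 * ((b + 1) * x) ≤ (b + 1) * (3 * m) := by
          calc 2 * ((b + 1) * x) = (b + 1) * (2 * x) := by ring
            _ ≤ (b + 1) * (3 * m) := Nat.mul_le_mul_left _ h7
        have h10 : (b + 1) * (3 * m) ≤ 6 * b * m := by nlinarith
        omega
      exact_mod_cast h6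
    have ha0 : 0 < a1 := by linarith
    have h6 : ((n : ℝ) / m) ^ a1 ≤ 6 * (b : ℝ) ^ a1 := by
      calc ((n : ℝ) / m) ^ a1 ≤ (6 * (b : ℝ)) ^ a1 := Real.rpow_le_rpow (by positivity) h5 ha0.le
        _ = 6 ^ a1 * (b : ℝ) ^ a1 := Real.mul_rpow (by norm_num) hb0.le
        _ ≤ 6 * (b : ℝ) ^ a1 := by
            gcongr
            calc (6 : ℝ) ^ a1 ≤ 6 ^ (1 : ℝ) := Real.rpow_le_rpow_of_exponent_le (by norm_num) (by linarith)
              _ = 6 := Real.rpow_one _
    have hW := Wb_nonneg x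
    calc c * ((n : ℝ) / m) ^ a1 * Wb x ≤ c0 / 6 * (6 * (b : ℝ) ^ a1) * Wb x := by gcongr
      _ = c0 * (b : ℝ) ^ a1 * Wb x := by ring
      _ ≤ Wb (b * x) := h3
      _ ≤ Wb y := h4
  · -- hi
    intro m n hm hmn
    have hm0 : (0 : ℝ) < m := by exact_mod_cast hm
    have hn0 : (0 : ℝ) < n := by exact_mod_cast (show 0 < n by omega)
    obtain ⟨x, hx⟩ : ∃ x, x = m / 2 + 1 := ⟨_, rfl⟩
    obtain ⟨y, hy⟩ : ∃ y, y = n / 2 + 1 := ⟨_, rfl⟩
    obtain ⟨b, hb⟩ : ∃ b, b = y / x := ⟨_, rfl⟩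
    have hx1 : 1 ≤ x := by omega
    have hb1 : 1 ≤ b := by
      rw [hb]
      exact (Nat.one_le_div_iff (by omega)).2 (by omega)
    have hbx : b * x ≤ y := by
      rw [hb]
      exact Nat.div_mul_le_self y x
    have hbx2 : y < (b + 1) * x := by
      rw [hb]
      exact Nat.lt_mul_of_div_lt (Nat.lt_succ_self _) (by omega)
    rw [V_eq, V_eq, ← hx, ← hy]
    have h3 := hhi (b + 1) x (by omega) hx1
    have h4 := Wb_mono hbx2.le
    have h5 : ((b + 1 : ℕ) : ℝ) ≤ 6 * ((n : ℝ) / m) := by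
      rw [mul_div_assoc', le_div_iff₀ hm0]
      have h6 : (b + 1) * m ≤ 6 * n := by
        have h7 : m ≤ 2 * x := by omega
        have h8 : (b + 1) * m ≤ 2 * b * (2 * x) := Nat.mul_le_mul (by omega) h7
        have h9 : 2 * b * (2 * x) = 4 * (b * x) := by ring
        omega
      exact_mod_cast h6
    have h6 : (((b + 1 : ℕ) : ℝ)) ^ (3 / 5 : ℝ) ≤ 6 * ((n : ℝ) / m) ^ (3 / 5 : ℝ) := by
      calc (((b + 1 : ℕ) : ℝ)) ^ (3 / 5 : ℝ) ≤ (6 * ((n : ℝ) / m)) ^ (3 / 5 : ℝ) :=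
            Real.rpow_le_rpow (by positivity) h5 (by norm_num)
        _ = 6 ^ (3 / 5 : ℝ) * ((n : ℝ) / m) ^ (3 / 5 : ℝ) := Real.mul_rpow (by norm_num) (by positivity)
        _ ≤ 6 * ((n : ℝ) / m) ^ (3 / 5 : ℝ) := by
            gcongr
            calc (6 : ℝ) ^ (3 / 5 : ℝ) ≤ 6 ^ (1 : ℝ) := Real.rpow_le_rpow_of_exponent_le (by norm_num) (by norm_num)
              _ = 6 := Real.rpow_one _
    have hW := Wb_nonneg x
    calc Wb y ≤ Wb ((b + 1) * x) := h4
      _ ≤ C0 * (((b + 1 : ℕ) : ℝ)) ^ (3 / 5 : ℝ) * Wb x := h3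
      _ ≤ C0 * (6 * ((n : ℝ) / m) ^ (3 / 5 : ℝ)) * Wb x := by gcongr
      _ = 6 * C0 * ((n : ℝ) / m) ^ (3 / 5 : ℝ) * Wb x := by ring
      _ ≤ C * ((n : ℝ) / m) ^ (3 / 5 : ℝ) * Wb x := by gcongr

end E2

end HexObs
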