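import Pool.Agent.E2.Mod
import Pool.Agent.NT.OutH
import Pool.Agent.BAR.Power
import Pool.Agent.SDN.DimLaw

/-!
E2: the scale of the bridges with exactly n letters.
-/

set_option autoImplicit false

namespace HexObs

namespace E2

open Finset TS NTm SDN

open scoped ENNReal

/-- the sequence l is the size of the bridges of height at most 2 ^ k, at every scale -/
structure ScaleE (l : ℕ → ℕ) (θ cc : ℝ) : Prop where
  seq : Seq θ l
  h0 : 0 < θ
  h1 : θ < 1
  good : ∃ K : ℝ, 1 ≤ K ∧ ∀ L, L ∈ GCK K cc l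
  mean : ∃ C : ℝ, 0 < C ∧ ∀ (k : ℕ) (lam : ℝ), 0 < lam → TL (2 ^ k) lam ≤ ENNReal.ofReal (C * (l k / lam) * Ub k)

/-- the scale of the bridges with n letters -/
noncomputable def Lf (l : ℕ → ℕ) (n : ℕ) : ℕ := sInf {L | 3 * n ≤ l L}

variable {l : ℕ → ℕ} {θ cc : ℝ} {a b c C : ℝ}

lemma unb (hS : ScaleE l θ cc) (n : ℕ) : ∃ L, 3 * n ≤ l L := by
  obtain ⟨b0, hb0, k0, h⟩ := seq_grow hS.seq hS.h0 hS.h1
  obtain ⟨j, hj⟩ := pow_unbounded_of_one_lt (3 * (n : ℝ) / b0) (one_lt_two (α := ℝ))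
  refine ⟨k0 + j, ?_⟩
  have h1 := h k0 j le_rfl
  have h2 : (1 : ℝ) ≤ l k0 := by exact_mod_cast hS.seq.one k0
  rw [div_lt_iff₀ hb0] at hj
  have h3 : (3 * n : ℝ) ≤ l (k0 + j) := by
    calc (3 * n : ℝ) ≤ 2 ^ j * b0 := hj.le
      _ = b0 * 2 ^ j * 1 := by ring
      _ ≤ b0 * 2 ^ j * l k0 := by gcongr
      _ ≤ _ := h1
  exact_mod_cast h3

lemma Lf_spec (hS : ScaleE l θ cc) (n : ℕ) : 3 * n ≤ l (Lf l n) := Nat.sInf_mem (s := {L | 3 * n ≤ l L}) (unb hS n)

lemma Lf_min {n k : ℕ} (hk : k < Lf l n) : l k < 3 * n := by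
  have := Nat.notMem_of_lt_sInf (s := {L | 3 * n ≤ l L}) hk
  exact not_le.1 this

lemma Lf_large (hS : ScaleE l θ cc) (k0 : ℕ) : ∃ n0 : ℕ, ∀ n, n0 ≤ n → k0 ≤ Lf l n := by
  refine ⟨l k0 + 1, fun n hn => ?_⟩
  by_contra hcon
  push Not at hcon
  have h1 := Lf_spec hS n
  have h2 := hS.seq.mono hcon.le
  omega

/-- **the scale** -/
theorem scale_facts (hS : ScaleE l θ cc) (h : Reg xB a b c C) : ∃ (D : ℝ) (n1 : ℕ), 1 ≤ D ∧ 1 ≤ n1 ∧ ∀ n, n1 ≤ n →
    1 ≤ Lf l n ∧ (l (Lf l n) : ℝ) ≤ D * n ∧ Ub (Lf l n) ≤ D * V xB n ∧ V xB n ≤ D * Ub (Lf l n) := by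
  obtain ⟨K, hK, hgood⟩ := hS.good
  obtain ⟨Cm, hCm, hmean⟩ := hS.mean
  obtain ⟨C0, hC0, has⟩ := hS.seq.as
  obtain ⟨n1, hn1⟩ := Lf_large hS 1
  have hC := h.hC
  obtain ⟨B, hB⟩ : ∃ B : ℕ, B = ⌈6 * Cm⌉₊ + 1 := ⟨_, rfl⟩
  have hB0 : (1 : ℝ) ≤ B := by
    rw [hB]
    push_cast
    have : (0 : ℝ) ≤ (⌈6 * Cm⌉₊ : ℝ) := by positivity
    linarith
  have hBC : 6 * Cm ≤ B := by
    rw [hB]
    push_cast
    have := Nat.le_ceil (6 * Cm)
    linarith
  obtain ⟨D1, hD1⟩ : ∃ D1 : ℝ, D1 = K * (2 : ℝ) ^ cc * 3 := ⟨_, rfl⟩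
  obtain ⟨D2, hD2⟩ : ∃ D2 : ℝ, D2 = 4 * (C * B) := ⟨_, rfl⟩
  refine ⟨max (max D1 D2) C0, max n1 1, hC0.trans (le_max_right _ _), le_max_right _ _, fun n hn => ?_⟩
  have hn' : 1 ≤ n := (le_max_right _ _).trans hn
  have hn0 : (0 : ℝ) < n := by exact_mod_cast hn'
  have hL := hn1 n ((le_max_left _ _).trans hn)
  obtain ⟨L, hLd⟩ : ∃ L, L = Lf l n := ⟨_, rfl⟩
  rw [← hLd] at hL ⊢
  have hspec : 3 * n ≤ l L := by
    rw [hLd]
    exact Lf_spec hS n
  have hmin : l (L - 1) < 3 * n := Lf_min (by rw [← hLd]; omega)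
  have hminR : (l (L - 1) : ℝ) ≤ 3 * n := by exact_mod_cast hmin.le
  have hV := h.one_le n
  refine ⟨hL, ?_, ?_, ?_⟩
  · have h1 := hgood L 1 hL
    rw [Nat.cast_one, mul_one] at h1
    calc (l L : ℝ) ≤ K * (2 : ℝ) ^ cc * l (L - 1) := h1
      _ ≤ K * (2 : ℝ) ^ cc * (3 * n) := by gcongr
      _ = D1 * n := by
          rw [hD1]
          ring
      _ ≤ _ := by
          gcongr
          exact (le_max_left _ _).trans (le_max_left _ _)
  · -- half of the bridges of height at most 2 ^ (L - 1) have at most B n letters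
    have hUp := Ub_pos (L - 1)
    obtain ⟨lam, hlam⟩ : ∃ lam : ℝ, lam = 2 * Cm * l (L - 1) := ⟨_, rfl⟩
    have hl1 : (1 : ℝ) ≤ l (L - 1) := by exact_mod_cast hS.seq.one _
    have hlam0 : 0 < lam := by
      rw [hlam]
      positivity
    have h1 := hmean (L - 1) lam hlam0
    have e1 : Cm * (l (L - 1) / lam) * Ub (L - 1) = Ub (L - 1) / 2 := by
      rw [hlam]
      field_simp
    rw [e1] at h1
    have h2 := TL_TS (2 ^ (L - 1)) lam
    have h3 : TS' (2 ^ (L - 1)) lam ≤ gf (BLe (B * n)) := by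
      unfold TS'
      rw [← gf_biUnion]
      · apply gf_mono
        intro t ht
        simp only [Set.mem_iUnion] at ht
        obtain ⟨k, _, hk1, hk2⟩ := ht
        refine ⟨⟨k, hk1⟩, ?_⟩
        have h4 : (t.length : ℝ) ≤ ((B * n : ℕ) : ℝ) := by
          calc (t.length : ℝ) ≤ lam := hk2.le
            _ = 2 * Cm * l (L - 1) := hlam
            _ ≤ 2 * Cm * (3 * n) := by gcongr
            _ = 6 * Cm * n := by ring
            _ ≤ B * n := by gcongr
            _ = _ := by push_cast; ring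
        exact_mod_cast h4
      · intro i _ j _ hij
        rw [Set.disjoint_left]
        rintro t ⟨h4, _⟩ ⟨h5, _⟩
        exact hij (Brd_height h4 h5)
    rw [gf_BLe] at h3
    have h4 : ENNReal.ofReal (Ub (L - 1)) ≤ ENNReal.ofReal (Ub (L - 1) / 2 + V xB (B * n)) := by
      have hV2 := h.one_le (B * n)
      rw [ENNReal.ofReal_add (by positivity) (by linarith)]
      exact h2.trans (add_le_add h1 h3)
    have hV2 := h.one_le (B * n)
    have h5 := (ENNReal.ofReal_le_ofReal_iff (by positivity)).1 h4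
    have hBn : n ≤ B * n := Nat.le_mul_of_pos_left n (by exact_mod_cast (by linarith : (0 : ℝ) < B))
    have h6 := h.hi n (B * n) hn' hBn
    have e2 : (((B * n : ℕ) : ℝ) / n) ^ b ≤ B := by
      have e3 : ((B * n : ℕ) : ℝ) / n = B := by
        push_cast
        field_simp
      rw [e3]
      calc (B : ℝ) ^ b ≤ (B : ℝ) ^ (1 : ℝ) := Real.rpow_le_rpow_of_exponent_le hB0 h.hb.le
        _ = B := Real.rpow_one _
    have h7 : V xB (B * n) ≤ C * B * V xB n := by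
      refine h6.trans ?_
      gcongr
    have h8 : Ub L ≤ 2 * Ub (L - 1) := by
      have := DL.Ub_succ' (L - 1)
      rwa [Nat.sub_add_cancel hL] at this
    calc Ub L ≤ 2 * Ub (L - 1) := h8
      _ ≤ 2 * (2 * V xB (B * n)) := by linarith
      _ ≤ 2 * (2 * (C * B * V xB n)) := by gcongr
      _ = D2 * V xB n := by
          rw [hD2]
          ring
      _ ≤ _ := by
          gcongr
          exact (le_max_right _ _).trans (le_max_left _ _)
  · have h1 := has L n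
    have h2 : gf (BLe n) ≤ ∑ g ∈ Finset.range (n + 1), gf {Z | Z ∈ Brd g ∧ (Z.length : ℝ) < (l L : ℝ) + 1} := by
      rw [← gf_biUnion]
      · apply gf_mono
        rintro t ⟨⟨k, hk⟩, ht⟩
        simp only [Set.mem_iUnion, Finset.mem_range]
        have h3 := P2_aux.brd_len hk
        refine ⟨k, by omega, hk, ?_⟩
        have h4 : (t.length : ℝ) ≤ l L := by exact_mod_cast (by omega : t.length ≤ l L)
        linarith
      · intro i _ j _ hij
        rw [Set.disjoint_left]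
        rintro t ⟨h4, _⟩ ⟨h5, _⟩
        exact hij (Brd_height h4 h5)
    have h3 := h2.trans h1
    rw [gf_BLe] at h3
    have hU := Ub_pos L
    have h4 := (ENNReal.ofReal_le_ofReal_iff (by positivity)).1 h3
    refine h4.trans ?_
    gcongr
    exact le_max_right _ _

end E2

end HexObs
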