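import Pool.Agent.E2.RegB
import Pool.Agent.E2.FinC
import Pool.Agent.NUX.Ren1

/-!
E2: the scale with the exponent 4 / 3 and constants, from the consequences of plan V.
-/

set_option autoImplicit false

namespace HexObs

namespace E2

open Finset TS NTm SDN

open scoped ENNReal

/-- lower half: at least `c n ^ (9/16)` -/
def LoV : Prop := ∃ c : ℝ, 0 < c ∧ ∀ n : ℕ, 1 ≤ n → c * (n : ℝ) ^ (9 / 16 : ℝ) ≤ NUX.UU BrL.ub n

/-- upper half: at most `C n ^ (9/16)` -/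
def UpV : Prop := ∃ C : ℝ, ∀ n : ℕ, 1 ≤ n → NUX.UU BrL.ub n ≤ C * (n : ℝ) ^ (9 / 16 : ℝ)

lemma UU_Wb (n : ℕ) : NUX.UU BrL.ub n = Wb (n + 1) := rfl

lemma ub_zero : BrL.ub 0 = 1 := by
  have h := BrL.ren.u0
  exact h

lemma Wb_one : Wb 1 = 1 := by
  unfold Wb
  rw [Finset.sum_range_one, ub_zero]

theorem Wb_two (hlo : LoV) (hup : UpV) : ∃ c C : ℝ, 0 < c ∧ 0 < C ∧ ∀ n : ℕ, 1 ≤ n →
    c * (n : ℝ) ^ (9 / 16 : ℝ) ≤ Wb n ∧ Wb n ≤ C * (n : ℝ) ^ (9 / 16 : ℝ) := by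
  obtain ⟨c, hc, h1⟩ := hlo
  obtain ⟨C, h2⟩ := hup
  obtain ⟨C', hC'⟩ : ∃ C' : ℝ, C' = max C 1 := ⟨_, rfl⟩
  have hC1 : 1 ≤ C' := by
    rw [hC']
    exact le_max_right _ _
  refine ⟨min 1 (c * (1 / 2)), C', by positivity, by linarith, fun n hn => ?_⟩
  have hn0 : (0 : ℝ) < n := by exact_mod_cast hn
  rcases Nat.eq_or_lt_of_le hn with h3 | h3
  · rw [← h3, Wb_one, Nat.cast_one, Real.one_rpow, mul_one, mul_one]
    exact ⟨min_le_left _ _, hC1⟩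
  obtain ⟨m, hm⟩ : ∃ m, n = m + 1 := ⟨n - 1, by omega⟩
  have hm1 : 1 ≤ m := by omega
  have hm0 : (0 : ℝ) < m := by exact_mod_cast hm1
  have e1 : Wb n = NUX.UU BrL.ub m := by rw [UU_Wb, hm]
  rw [e1]
  constructor
  · refine le_trans ?_ (h1 m hm1)
    have h4 : (n : ℝ) ^ (9 / 16 : ℝ) ≤ 2 * (m : ℝ) ^ (9 / 16 : ℝ) := by
      calc (n : ℝ) ^ (9 / 16 : ℝ) ≤ (2 * (m : ℝ)) ^ (9 / 16 : ℝ) := by
            apply Real.rpow_le_rpow hn0.le _ (by norm_num)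
            have : n ≤ 2 * m := by omega
            exact_mod_cast this
        _ = (2 : ℝ) ^ (9 / 16 : ℝ) * (m : ℝ) ^ (9 / 16 : ℝ) := Real.mul_rpow (by norm_num) hm0.le
        _ ≤ (2 : ℝ) ^ (1 : ℝ) * (m : ℝ) ^ (9 / 16 : ℝ) := by
            gcongr
            · norm_num
            · norm_num
        _ = _ := by rw [Real.rpow_one]
    calc min 1 (c * (1 / 2)) * (n : ℝ) ^ (9 / 16 : ℝ) ≤ (c * (1 / 2)) * (2 * (m : ℝ) ^ (9 / 16 : ℝ)) := by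
          gcongr
          exact min_le_right _ _
      _ = _ := by ring
  · refine (h2 m hm1).trans ?_
    have h5 : (m : ℝ) ^ (9 / 16 : ℝ) ≤ (n : ℝ) ^ (9 / 16 : ℝ) := by
      apply Real.rpow_le_rpow hm0.le _ (by norm_num)
      exact_mod_cast (by omega : m ≤ n)
    calc C * (m : ℝ) ^ (9 / 16 : ℝ) ≤ C' * (m : ℝ) ^ (9 / 16 : ℝ) := by
          gcongr
          rw [hC']
          exact le_max_left _ _
      _ ≤ _ := by gcongr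

theorem indB2_of (hlo : LoV) (hup : UpV) : BrL.IndB2 (9 / 16) := by
  obtain ⟨c, C, hc, hC, h⟩ := Wb_two hlo hup
  refine ⟨c / C, C / c, by positivity, by positivity, fun b x hb hx => ?_⟩
  have hb0 : (1 : ℝ) ≤ b := by exact_mod_cast hb
  have hx0 : (0 : ℝ) < x := by exact_mod_cast hx
  obtain ⟨h1, h2⟩ := h x hx
  obtain ⟨h3, h4⟩ := h (b * x) (Nat.mul_pos hb hx)
  have e1 : ((b * x : ℕ) : ℝ) ^ (9 / 16 : ℝ) = (b : ℝ) ^ (9 / 16 : ℝ) * (x : ℝ) ^ (9 / 16 : ℝ) := by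
    push_cast
    exact Real.mul_rpow (by linarith) hx0.le
  rw [e1] at h3 h4
  constructor
  · refine le_trans ?_ h3
    calc c / C * (b : ℝ) ^ (9 / 16 : ℝ) * Wb x ≤ c / C * (b : ℝ) ^ (9 / 16 : ℝ) * (C * (x : ℝ) ^ (9 / 16 : ℝ)) := by gcongr
      _ = _ := by field_simp
  · refine h4.trans ?_
    have h5 : (b : ℝ) ^ (9 / 16 : ℝ) ≤ (b : ℝ) ^ (3 / 5 : ℝ) :=
      Real.rpow_le_rpow_of_exponent_le hb0 (by norm_num)
    calc C * ((b : ℝ) ^ (9 / 16 : ℝ) * (x : ℝ) ^ (9 / 16 : ℝ)) = C / c * (b : ℝ) ^ (9 / 16 : ℝ) * (c * (x : ℝ) ^ (9 / 16 : ℝ)) := by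
          field_simp
      _ ≤ C / c * (b : ℝ) ^ (3 / 5 : ℝ) * Wb x := by gcongr

/-- the scale -/
noncomputable def lV (C : ℝ) (k : ℕ) : ℕ := ⌈C * (2 : ℝ) ^ ((4 / 3 : ℝ) * k)⌉₊

lemma lV_lo (C : ℝ) (k : ℕ) : C * (2 : ℝ) ^ ((4 / 3 : ℝ) * k) ≤ lV C k := Nat.le_ceil _

lemma lV_hi {C : ℝ} (hC : 1 ≤ C) (k : ℕ) : (lV C k : ℝ) ≤ 2 * C * (2 : ℝ) ^ ((4 / 3 : ℝ) * k) := by
  have h1 : (1 : ℝ) ≤ (2 : ℝ) ^ ((4 / 3 : ℝ) * k) := Real.one_le_rpow (by norm_num) (by positivity)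
  have h2 := Nat.ceil_lt_add_one (a := C * (2 : ℝ) ^ ((4 / 3 : ℝ) * k)) (by positivity)
  unfold lV
  nlinarith

lemma lV_one {C : ℝ} (hC : 1 ≤ C) (k : ℕ) : 1 ≤ lV C k := by
  unfold lV
  rw [Nat.one_le_ceil_iff]
  positivity

lemma lV_mono {C : ℝ} (hC : 1 ≤ C) : Monotone (lV C) := by
  intro j k hjk
  unfold lV
  apply Nat.ceil_le_ceil
  have h1 : (j : ℝ) ≤ k := by exact_mod_cast hjk
  have : (2 : ℝ) ^ ((4 / 3 : ℝ) * j) ≤ (2 : ℝ) ^ ((4 / 3 : ℝ) * k) :=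
    Real.rpow_le_rpow_of_exponent_le (by norm_num) (by linarith)
  gcongr

lemma two_rpow_pow (k : ℕ) : (((2 : ℕ) ^ k : ℕ) : ℝ) ^ (4 / 3 : ℝ) = (2 : ℝ) ^ ((4 / 3 : ℝ) * k) := by
  push_cast
  rw [← Real.rpow_natCast, ← Real.rpow_mul (by norm_num), mul_comm]

theorem scaleE_of (hM : ∃ C : ℝ, 0 ≤ C ∧ T2.MeanLen (4 / 3) C) (hup : UpV) : ∃ C : ℝ, 1 ≤ C ∧
    ScaleE (lV C) (1 / 2) (4 / 3) := by
  obtain ⟨Cm, hCm, hMm⟩ := hM
  obtain ⟨Cu, hCu⟩ := hup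
  obtain ⟨cU, CU, hcU, hCU, hU⟩ := BAR.UU_two
  obtain ⟨C, hC⟩ : ∃ C : ℝ, C = 2 * Cm + 1 := ⟨_, rfl⟩
  have hC1 : 1 ≤ C := by
    rw [hC]
    linarith
  have hUb : ∀ k : ℕ, cU * (2 : ℝ) ^ ((3 / 4 : ℝ) * k) ≤ Ub k := by
    intro k
    have h := (hU (2 ^ k) Nat.one_le_two_pow).1
    have e : (((2 : ℕ) ^ k : ℕ) : ℝ) ^ (3 / 4 : ℝ) = (2 : ℝ) ^ ((3 / 4 : ℝ) * k) := by
      push_cast
      rw [← Real.rpow_natCast, ← Real.rpow_mul (by norm_num), mul_comm]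
    rw [e] at h
    exact h
  refine ⟨C, hC1, ⟨⟨lV_one hC1, lV_mono hC1, ?_, ?_, ?_, ?_⟩, by norm_num, by norm_num, ?_, ?_⟩⟩
  · -- few letters
    obtain ⟨C0, hC0⟩ : ∃ C0 : ℝ, C0 = max 1 (|Cu| * (2 * C) ^ (9 / 16 : ℝ) / cU) := ⟨_, rfl⟩
    refine ⟨C0, by rw [hC0]; exact le_max_left _ _, fun k N => ?_⟩
    have h1 : ∑ h ∈ Finset.range (N + 1), gf {Z | Z ∈ Brd h ∧ (Z.length : ℝ) < (lV C k : ℝ) + 1} ≤ gf (BLe (lV C k)) := by
      rw [← gf_biUnion]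
      · apply gf_mono
        intro t ht
        simp only [Set.mem_iUnion] at ht
        obtain ⟨h, _, h1, h2⟩ := ht
        refine ⟨⟨h, h1⟩, ?_⟩
        have : t.length < lV C k + 1 := by exact_mod_cast h2
        omega
      · intro i _ j _ hij
        rw [Set.disjoint_left]
        rintro t ⟨h4, _⟩ ⟨h5, _⟩
        exact hij (Brd_height h4 h5)
    refine h1.trans ?_
    rw [gf_BLe]
    apply ENNReal.ofReal_le_ofReal
    have h2 : V xB (lV C k) ≤ Wb (lV C k + 1) := by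
      rw [V_eq]
      exact Wb_mono (by omega)
    have h3 := hCu (lV C k) (lV_one hC1 k)
    rw [UU_Wb] at h3
    have h4 : ((lV C k : ℕ) : ℝ) ^ (9 / 16 : ℝ) ≤ (2 * C) ^ (9 / 16 : ℝ) * (2 : ℝ) ^ ((3 / 4 : ℝ) * k) := by
      calc ((lV C k : ℕ) : ℝ) ^ (9 / 16 : ℝ) ≤ (2 * C * (2 : ℝ) ^ ((4 / 3 : ℝ) * k)) ^ (9 / 16 : ℝ) :=
            Real.rpow_le_rpow (Nat.cast_nonneg _) (lV_hi hC1 k) (by norm_num)
        _ = _ := by
            rw [Real.mul_rpow (by positivity) (by positivity), ← Real.rpow_mul (by norm_num)]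
            congr 2
            ring
    calc V xB (lV C k) ≤ Cu * ((lV C k : ℕ) : ℝ) ^ (9 / 16 : ℝ) := h2.trans h3
      _ ≤ |Cu| * ((2 * C) ^ (9 / 16 : ℝ) * (2 : ℝ) ^ ((3 / 4 : ℝ) * k)) := by
          gcongr
          exact le_abs_self _
      _ = |Cu| * (2 * C) ^ (9 / 16 : ℝ) / cU * (cU * (2 : ℝ) ^ ((3 / 4 : ℝ) * k)) := by field_simp
      _ ≤ C0 * Ub k := by
          have h5 : |Cu| * (2 * C) ^ (9 / 16 : ℝ) / cU ≤ C0 := by rw [hC0]; exact le_max_right _ _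
          have h6 : 0 ≤ C0 := le_trans zero_le_one (by rw [hC0]; exact le_max_left _ _)
          have := hUb k
          gcongr
  · intro k
    refine SeqA.TL_markov (by norm_num) hCm hMm (by norm_num) (2 ^ k) (by positivity) ?_
    rw [two_rpow_pow]
    have h1 := lV_lo C k
    have h2 : (0 : ℝ) < (2 : ℝ) ^ ((4 / 3 : ℝ) * k) := by positivity
    rw [hC] at h1 ⊢
    nlinarith
  · intro e he
    refine ⟨2 * C, by positivity, fun k => (lV_hi hC1 k).trans ?_⟩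
    have : (2 : ℝ) ^ ((4 / 3 : ℝ) * k) ≤ (2 : ℝ) ^ ((4 / 3 + e) * k) := by
      apply Real.rpow_le_rpow_of_exponent_le (by norm_num)
      have : (0 : ℝ) ≤ k := Nat.cast_nonneg k
      nlinarith
    gcongr
  · intro e he
    refine ⟨0, fun k _ => le_trans ?_ (lV_lo C k)⟩
    have h1 : (2 : ℝ) ^ ((4 / 3 - e) * k) ≤ (2 : ℝ) ^ ((4 / 3 : ℝ) * k) := by
      apply Real.rpow_le_rpow_of_exponent_le (by norm_num)
      have : (0 : ℝ) ≤ k := Nat.cast_nonneg k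
      nlinarith
    have h2 : (0 : ℝ) < (2 : ℝ) ^ ((4 / 3 : ℝ) * k) := by positivity
    nlinarith
  · refine ⟨2, by norm_num, fun L j hj => ?_⟩
    have h1 := lV_hi hC1 L
    have h2 := lV_lo C (L - j)
    have e1 : (2 : ℝ) ^ ((4 / 3 : ℝ) * L) = (2 : ℝ) ^ ((4 / 3 : ℝ) * j) * (2 : ℝ) ^ ((4 / 3 : ℝ) * ((L - j : ℕ) : ℝ)) := by
      rw [← Real.rpow_add (by norm_num), Nat.cast_sub hj]
      congr 1
      ring
    calc (lV C L : ℝ) ≤ 2 * C * (2 : ℝ) ^ ((4 / 3 : ℝ) * L) := h1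
      _ = 2 * (2 : ℝ) ^ ((4 / 3 : ℝ) * j) * (C * (2 : ℝ) ^ ((4 / 3 : ℝ) * ((L - j : ℕ) : ℝ))) := by
          rw [e1]
          ring
      _ ≤ _ := by gcongr
  · refine ⟨Cm + 1, by positivity, fun k lam hlam => ?_⟩
    have h0 : (0 : ℝ) < (2 : ℝ) ^ ((4 / 3 : ℝ) * k) := by positivity
    have h1 := SeqA.TL_markov (θ := (Cm + 1) * (2 : ℝ) ^ ((4 / 3 : ℝ) * k) / lam) (by norm_num) hCm hMm
      (by positivity) (2 ^ k) hlam (by
        rw [two_rpow_pow, div_mul_cancel₀ _ hlam.ne']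
        nlinarith)
    refine h1.trans (ENNReal.ofReal_le_ofReal ?_)
    have hUk : 0 < Ub k := Ub_pos k
    have h2 := lV_lo C k
    have h3 : (2 : ℝ) ^ ((4 / 3 : ℝ) * k) ≤ lV C k := by nlinarith
    calc (Cm + 1) * (2 : ℝ) ^ ((4 / 3 : ℝ) * k) / lam * UU (2 ^ k)
        = (Cm + 1) * ((2 : ℝ) ^ ((4 / 3 : ℝ) * k) / lam) * Ub k := by
          unfold Ub
          ring
      _ ≤ _ := by gcongr

end E2

end HexObs
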