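import Pool.Agent.E2.Code

/-!
E2: stopping.  First initial bridge in a class, first final bridge in a class, the three parts of a bridge.
-/

set_option autoImplicit false

namespace HexObs

namespace E2

open Finset TS NTm

open scoped ENNReal

/-- the bridges of E without a proper initial bridge in E -/
def PM (E : Set (List Bool)) : Set (List Bool) :=
  {t | t ∈ BU ∧ t ∈ E ∧ ∀ s ∈ BU, ∀ u ∈ BU, t = s ++ u → s ∈ E → u = []}

/-- the bridges of E without a proper final bridge in E -/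
def SM (E : Set (List Bool)) : Set (List Bool) :=
  {t | t ∈ BU ∧ t ∈ E ∧ ∀ s ∈ BU, ∀ u ∈ BU, t = s ++ u → u ∈ E → s = []}

lemma PM_ex (E : Set (List Bool)) : ∀ (N : ℕ) (t : List Bool), t.length ≤ N → t ∈ BU → t ∈ E →
    ∃ r ∈ PM E, ∃ v ∈ BU, t = r ++ v := by
  intro N
  induction N with
  | zero =>
    intro t ht h1 h2
    have h3 : t = [] := List.length_eq_zero_iff.1 (by omega)
    refine ⟨t, ⟨h1, h2, fun s _ u _ e _ => ?_⟩, [], nil_BU, (List.append_nil t).symm⟩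
    rw [h3] at e
    exact (List.append_eq_nil_iff.1 e.symm).2
  | succ N ih =>
    intro t ht h1 h2
    by_cases h : t ∈ PM E
    · exact ⟨t, h, [], nil_BU, (List.append_nil t).symm⟩
    · have h3 : ¬ ∀ s ∈ BU, ∀ u ∈ BU, t = s ++ u → s ∈ E → u = [] := fun h3 => h ⟨h1, h2, h3⟩
      push Not at h3
      obtain ⟨s, hs, u, hu, e, hE, hne⟩ := h3
      have hl := List.length_pos_iff.2 hne
      obtain ⟨r, hr, v, hv, e2⟩ := ih s (by rw [e, List.length_append] at ht; omega) hs hE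
      exact ⟨r, hr, v ++ u, app hv hu, by rw [e, e2, List.append_assoc]⟩

lemma SM_ex (E : Set (List Bool)) : ∀ (N : ℕ) (t : List Bool), t.length ≤ N → t ∈ BU → t ∈ E →
    ∃ r ∈ SM E, ∃ v ∈ BU, t = v ++ r := by
  intro N
  induction N with
  | zero =>
    intro t ht h1 h2
    have h3 : t = [] := List.length_eq_zero_iff.1 (by omega)
    refine ⟨t, ⟨h1, h2, fun s _ u _ e _ => ?_⟩, [], nil_BU, rfl⟩
    rw [h3] at e
    exact (List.append_eq_nil_iff.1 e.symm).1
  | succ N ih =>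
    intro t ht h1 h2
    by_cases h : t ∈ SM E
    · exact ⟨t, h, [], nil_BU, rfl⟩
    · have h3 : ¬ ∀ s ∈ BU, ∀ u ∈ BU, t = s ++ u → u ∈ E → s = [] := fun h3 => h ⟨h1, h2, h3⟩
      push Not at h3
      obtain ⟨s, hs, u, hu, e, hE, hne⟩ := h3
      have hl := List.length_pos_iff.2 hne
      obtain ⟨r, hr, v, hv, e2⟩ := ih u (by rw [e, List.length_append] at ht; omega) hu hE
      exact ⟨r, hr, s ++ v, app hs hv, by rw [e, e2, List.append_assoc]⟩

lemma PM_uniq {E : Set (List Bool)} {r r' v v' : List Bool} (hr : r ∈ PM E) (hr' : r' ∈ PM E) (hv : v ∈ BU)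
    (hv' : v' ∈ BU) (h : r ++ v = r' ++ v') : r = r' := by
  have key : ∀ r r' v v' : List Bool, r ∈ PM E → r' ∈ PM E → v ∈ BU → r ++ v = r' ++ v' →
      r.length ≤ r'.length → r = r' := by
    intro r r' v v' hr hr' hv h hl
    obtain ⟨w, hw, e1, -⟩ := cmp hr.1 hv hr'.1 h hl
    have h1 := hr'.2.2 r hr.1 w hw e1 hr.2.1
    rw [e1, h1, List.append_nil]
  rcases le_total r.length r'.length with hl | hl
  · exact key r r' v v' hr hr' hv h hl
  · exact (key r' r v' v hr' hr hv' h.symm hl).symm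

lemma SM_uniq {E : Set (List Bool)} {r r' v v' : List Bool} (hr : r ∈ SM E) (hr' : r' ∈ SM E) (hv : v ∈ BU)
    (hv' : v' ∈ BU) (h : v ++ r = v' ++ r') : v = v' := by
  have key : ∀ r r' v v' : List Bool, r ∈ SM E → r' ∈ SM E → v ∈ BU → v' ∈ BU → v ++ r = v' ++ r' →
      v.length ≤ v'.length → v = v' := by
    intro r r' v v' hr hr' hv hv' h hl
    obtain ⟨w, hw, e1, e2⟩ := cmp hv hr.1 hv' h hl
    have h1 := hr.2.2 w hw r' hr'.1 e2 hr'.2.1
    rw [e1, h1, List.append_nil]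
  rcases le_total v.length v'.length with hl | hl
  · exact key r r' v v' hr hr' hv hv' h hl
  · exact (key r' r v' v hr' hr hv' hv h.symm hl).symm

lemma PM_anti (E : Set (List Bool)) (X : Set (List Bool)) : Anti {s | s ∈ PM E ∧ s ∈ X} :=
  ⟨fun _ h => h.1.1, fun s hs v hv h => h.1.2.2 s hs.1.1 v hv rfl hs.1.2.1⟩

/-! ### Sums -/

/-- sum over the first word -/
lemma cat_sum {P S : Set (List Bool)} {T : List Bool → Set (List Bool)}
    (h : ∀ t ∈ P, ∃ s ∈ S, ∃ u ∈ T s, t = s ++ u) : gf P ≤ ∑' s : S, wE s * gf (T s) := by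
  classical
  unfold gf
  choose! f hf g hg hfg using h
  let ψ : P → Σ s : S, T s := fun t => ⟨⟨f t, hf t t.2⟩, ⟨g t, hg t t.2⟩⟩
  have hψ : Function.Injective ψ := by
    intro a b hab
    have h1 : f a = f b := congrArg (fun p : (Σ s : S, T s) => (p.1 : List Bool)) hab
    have h2 : g a = g b := congrArg (fun p : (Σ s : S, T s) => (p.2 : List Bool)) hab
    apply Subtype.ext
    rw [hfg a a.2, hfg b b.2, h1, h2]
  calc ∑' t : P, wE t = ∑' t : P, wE (ψ t).1 * wE (ψ t).2 := by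
        apply tsum_congr
        intro t
        rw [← wE_append]
        show wE t = wE (f t ++ g t)
        rw [← hfg t t.2]
    _ ≤ ∑' p : (Σ s : S, T s), wE p.1 * wE p.2 :=
        ENNReal.tsum_comp_le_tsum_of_injective hψ (fun p : (Σ s : S, T s) => wE p.1 * wE p.2)
    _ = ∑' s : S, wE s * gf (T s) := by
        rw [ENNReal.tsum_sigma (fun (s : S) (u : T s) => wE s * wE u)]
        apply tsum_congr
        intro s
        rw [ENNReal.tsum_mul_left]
        rfl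

/-- sum over the last word -/
lemma cat_sum' {P S : Set (List Bool)} {T : List Bool → Set (List Bool)}
    (h : ∀ t ∈ P, ∃ s ∈ S, ∃ u ∈ T s, t = u ++ s) : gf P ≤ ∑' s : S, wE s * gf (T s) := by
  classical
  unfold gf
  choose! f hf g hg hfg using h
  let ψ : P → Σ s : S, T s := fun t => ⟨⟨f t, hf t t.2⟩, ⟨g t, hg t t.2⟩⟩
  have hψ : Function.Injective ψ := by
    intro a b hab
    have h1 : f a = f b := congrArg (fun p : (Σ s : S, T s) => (p.1 : List Bool)) hab
    have h2 : g a = g b := congrArg (fun p : (Σ s : S, T s) => (p.2 : List Bool)) hab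
    apply Subtype.ext
    rw [hfg a a.2, hfg b b.2, h1, h2]
  calc ∑' t : P, wE t = ∑' t : P, wE (ψ t).1 * wE (ψ t).2 := by
        apply tsum_congr
        intro t
        rw [mul_comm, ← wE_append]
        show wE t = wE (g t ++ f t)
        rw [← hfg t t.2]
    _ ≤ ∑' p : (Σ s : S, T s), wE p.1 * wE p.2 :=
        ENNReal.tsum_comp_le_tsum_of_injective hψ (fun p : (Σ s : S, T s) => wE p.1 * wE p.2)
    _ = ∑' s : S, wE s * gf (T s) := by
        rw [ENNReal.tsum_sigma (fun (s : S) (u : T s) => wE s * wE u)]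
        apply tsum_congr
        intro s
        rw [ENNReal.tsum_mul_left]
        rfl

lemma sum_le {S : Set (List Bool)} {f : List Bool → ℝ≥0∞} {B : ℝ≥0∞} (h : ∀ s ∈ S, f s ≤ B) :
    ∑' s : S, wE s * f s ≤ gf S * B := by
  unfold gf
  rw [← ENNReal.tsum_mul_right]
  exact ENNReal.tsum_le_tsum fun s => mul_le_mul' le_rfl (h s s.2)

/-- **initial bridge in E, at most m letters** -/
theorem near_pre {E : Set (List Bool)} {n m : ℕ} {B : ℝ≥0∞} (hB : ∀ j, j ≤ m → gf (BW (n - j)) ≤ B) :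
    gf {t | t ∈ BW n ∧ ∃ s ∈ BU, ∃ u ∈ BU, t = s ++ u ∧ s.length ≤ m ∧ s ∈ E} ≤
      gf {s | s ∈ PM E ∧ s.length ≤ m} * B := by
  refine (cat_sum (T := fun s => BW (n - s.length)) ?_).trans (sum_le fun s hs => hB _ hs.2)
  rintro t ⟨⟨-, ht⟩, s, hs, u, hu, e, hl, hE⟩
  obtain ⟨r, hr, v, hv, e2⟩ := PM_ex E s.length s le_rfl hs hE
  have h1 : r.length ≤ s.length := by
    rw [e2, List.length_append]
    omega
  refine ⟨r, ⟨hr, h1.trans hl⟩, v ++ u, ⟨app hv hu, ?_⟩, by rw [e, e2, List.append_assoc]⟩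
  rw [e, e2, List.append_assoc, List.length_append] at ht
  omega

/-- **final bridge in E, at most m letters** -/
theorem near_suf {E : Set (List Bool)} {n m : ℕ} {B : ℝ≥0∞} (hB : ∀ j, j ≤ m → gf (BW (n - j)) ≤ B) :
    gf {t | t ∈ BW n ∧ ∃ s ∈ BU, ∃ u ∈ BU, t = s ++ u ∧ u.length ≤ m ∧ u ∈ E} ≤
      gf {s | s ∈ SM E ∧ s.length ≤ m} * B := by
  refine (cat_sum' (T := fun s => BW (n - s.length)) ?_).trans (sum_le fun s hs => hB _ hs.2)
  rintro t ⟨⟨-, ht⟩, s, hs, u, hu, e, hl, hE⟩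
  obtain ⟨r, hr, v, hv, e2⟩ := SM_ex E u.length u le_rfl hu hE
  have h1 : r.length ≤ u.length := by
    rw [e2, List.length_append]
    omega
  refine ⟨r, ⟨hr, h1.trans hl⟩, s ++ v, ⟨app hs hv, ?_⟩, by rw [e, e2, List.append_assoc]⟩
  rw [e, e2, ← List.append_assoc, List.length_append] at ht
  omega

/-- **a piece in Q between two bridges, the last one with at most K letters** -/
theorem middle {Q : Set (List Bool)} {n K : ℕ} {B : ℝ≥0∞}
    (hB : ∀ N, N ≤ n → ∑ b ∈ range (K + 1), (if b ≤ N then gf (BW (N - b)) * gf (BW b) else 0) ≤ B) :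
    gf {t | t ∈ BW n ∧ ∃ s ∈ BU, ∃ p ∈ Q, ∃ u ∈ BU, t = s ++ (p ++ u) ∧ u.length ≤ K} ≤
      gf {p | p ∈ Q ∧ p.length ≤ n} * B := by
  classical
  obtain ⟨Q', hQ'⟩ : ∃ Q' : Set (List Bool), Q' = {p | p ∈ Q ∧ p.length ≤ n} := ⟨_, rfl⟩
  rw [← hQ']
  have h1 : {t | t ∈ BW n ∧ ∃ s ∈ BU, ∃ p ∈ Q, ∃ u ∈ BU, t = s ++ (p ++ u) ∧ u.length ≤ K} ⊆
      ⋃ b ∈ range (K + 1), {t | t ∈ BW n ∧ ∃ s ∈ BU, ∃ p ∈ Q, ∃ u ∈ BU, t = s ++ (p ++ u) ∧ u.length = b} := by
    rintro t ⟨ht, s, hs, p, hp, u, hu, e, hl⟩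
    simp only [Set.mem_iUnion, Finset.mem_range]
    exact ⟨u.length, by omega, ht, s, hs, p, hp, u, hu, e, rfl⟩
  have h2 : gf {t | t ∈ BW n ∧ ∃ s ∈ BU, ∃ p ∈ Q, ∃ u ∈ BU, t = s ++ (p ++ u) ∧ u.length ≤ K} ≤
      ∑ b ∈ range (K + 1),
        gf {t | t ∈ BW n ∧ ∃ s ∈ BU, ∃ p ∈ Q, ∃ u ∈ BU, t = s ++ (p ++ u) ∧ u.length = b} := by
    refine (gf_mono h1).trans ?_
    unfold gf
    exact ENNReal.tsum_biUnion_le wE _ _
  refine h2.trans ?_
  have h3 : ∀ b ∈ range (K + 1),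
      gf {t | t ∈ BW n ∧ ∃ s ∈ BU, ∃ p ∈ Q, ∃ u ∈ BU, t = s ++ (p ++ u) ∧ u.length = b} ≤
        ∑' p : Q', wE p * (if b ≤ n - (p : List Bool).length then gf (BW (n - (p : List Bool).length - b)) * gf (BW b) else 0) := by
    intro b _
    -- the words s ++ p
    have h4 : gf {t | t ∈ BW n ∧ ∃ s ∈ BU, ∃ p ∈ Q, ∃ u ∈ BU, t = s ++ (p ++ u) ∧ u.length = b} ≤
        gf {t | ∃ s ∈ BU, ∃ p ∈ Q', s.length + p.length + b = n ∧ t = s ++ p} * gf (BW b) := by
      apply gf_le_mul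
      rintro t ⟨⟨-, ht⟩, s, hs, p, hp, u, hu, e, hl⟩
      rw [e, List.length_append, List.length_append] at ht
      refine ⟨s ++ p, ⟨s, hs, p, ?_, by omega, rfl⟩, u, ⟨hu, hl⟩, by rw [e, List.append_assoc]⟩
      rw [hQ']
      exact ⟨hp, by omega⟩
    have h5 : gf {t | ∃ s ∈ BU, ∃ p ∈ Q', s.length + p.length + b = n ∧ t = s ++ p} ≤
        ∑' p : Q', wE p * (if b ≤ n - (p : List Bool).length then gf (BW (n - (p : List Bool).length - b)) else 0) := by
      refine (cat_sum' (S := Q') (T := fun p => {s | s ∈ BU ∧ s.length + p.length + b = n}) ?_).trans ?_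
      · rintro t ⟨s, hs, p, hp, hl, e⟩
        exact ⟨p, hp, s, ⟨hs, hl⟩, e⟩
      · refine ENNReal.tsum_le_tsum fun p => mul_le_mul' le_rfl ?_
        by_cases hb : b ≤ n - (p : List Bool).length
        · rw [if_pos hb]
          apply gf_mono
          rintro s ⟨hs, hl⟩
          exact ⟨hs, by omega⟩
        · rw [if_neg hb]
          have h6 : {s : List Bool | s ∈ BU ∧ s.length + (p : List Bool).length + b = n} = ∅ := by
            rw [Set.eq_empty_iff_forall_notMem]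
            rintro s ⟨-, hl⟩
            apply hb
            omega
          rw [h6]
          unfold gf
          simp
    refine h4.trans ((mul_le_mul' h5 le_rfl).trans (le_of_eq ?_))
    rw [← ENNReal.tsum_mul_right]
    apply tsum_congr
    intro p
    split_ifs
    · ring
    · simp
  refine (Finset.sum_le_sum h3).trans ?_
  rw [← Summable.tsum_finsetSum (fun _ _ => ENNReal.summable)]
  refine le_trans (le_of_eq ?_) (sum_le (S := Q') (f := fun p => ∑ b ∈ range (K + 1),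
    (if b ≤ n - p.length then gf (BW (n - p.length - b)) * gf (BW b) else 0)) fun p _ => hB _ (Nat.sub_le _ _))
  apply tsum_congr
  intro p
  rw [← Finset.mul_sum]

/-- stopping at the first initial bridge in E, then a bridge of Q -/
theorem stop_pre {E X Q P : Set (List Bool)} (hQ : Q ⊆ BU)
    (h : ∀ s ∈ PM E, s ∈ X → ∀ u ∈ Q, s ++ u ∈ P) : gf {s | s ∈ PM E ∧ s ∈ X} * gf Q ≤ gf P :=
  mul_le_gf (fun s hs u hu => h s hs.1 hs.2 u hu) fun _ hs _ hu _ hs' _ hu' e =>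
    PM_uniq hs.1 hs'.1 (hQ hu) (hQ hu') e

/-- a bridge of Q, then a minimal final bridge in E -/
theorem stop_suf {E X Q P : Set (List Bool)} (hQ : Q ⊆ BU)
    (h : ∀ s ∈ SM E, s ∈ X → ∀ u ∈ Q, u ++ s ∈ P) : gf {s | s ∈ SM E ∧ s ∈ X} * gf Q ≤ gf P := by
  rw [mul_comm]
  exact mul_le_gf (fun u hu s hs => h s hs.1 hs.2 u hu) fun _ hu _ hs _ hu' _ hs' e =>
    SM_uniq hs.1 hs'.1 (hQ hu) (hQ hu') e

end E2

end HexObs
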