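import Pool.Agent.E2.Est

/-!
E2: the tail of an additive functional of the bridges with exactly n letters.
-/

set_option autoImplicit false

namespace HexObs

namespace E2

open Finset TS NTm

open scoped ENNReal

variable {a b c C : ℝ}

/-- half of the bridges are in a set whose complement is small -/
lemma half_le {n : ℕ} {ε : ℝ} (hε : ε ≤ 1 / 2) (hV : 0 ≤ V xB n) {F T : Set (List Bool)}
    (hF : BLe n ⊆ F ∪ T) (hT : gf T ≤ ENNReal.ofReal (ε * V xB n)) : ENNReal.ofReal (V xB n / 2) ≤ gf F := by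
  have h1 : ENNReal.ofReal (V xB n) ≤ gf F + ENNReal.ofReal (V xB n / 2) := by
    rw [← gf_BLe]
    refine (gf_mono hF).trans ((gf_union_le _ _).trans (add_le_add le_rfl (hT.trans (ENNReal.ofReal_le_ofReal ?_))))
    nlinarith
  have h2 : ENNReal.ofReal (V xB n / 2) + ENNReal.ofReal (V xB n / 2) ≤ gf F + ENNReal.ofReal (V xB n / 2) := by
    rw [← ENNReal.ofReal_add (by positivity) (by positivity), add_halves]
    exact h1
  exact (ENNReal.add_le_add_iff_right ENNReal.ofReal_ne_top).1 h2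

/-- **the tail of an additive functional** -/
theorem tail_of (h : Reg xB a b c C) : ∃ K2 : ℝ, 0 < K2 ∧ ∀ (n : ℕ) (ε r : ℝ) (L : List Bool → ℝ), Even n → 1 ≤ n →
    0 ≤ ε → (∀ s ∈ BU, ∀ u ∈ BU, L (s ++ u) = L s + L u) →
    gf {t | t ∈ BU ∧ t.length ≤ 3 * n ∧ r / 12 ≤ |L t|} ≤ ENNReal.ofReal (ε * V xB n) →
    gf {t | t ∈ BW n ∧ r ≤ |L t|} ≤ ENNReal.ofReal (K2 * ε) * gf (BW n) := by
  have hC := h.hC
  have hc := h.hc
  have ha := h.ha
  have hKM := KM_pos h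
  obtain ⟨K2, hK2⟩ : ∃ K2 : ℝ, K2 = 4 + 8 * C / c + 4 * KM a c C := ⟨_, rfl⟩
  have hK20 : 0 < K2 := by
    rw [hK2]
    positivity
  refine ⟨K2, hK20, ?_⟩
  intro n ε r L he hn hε hL hT
  have hV := h.one_le n
  rcases le_or_gt (1 / 4) ε with h4 | h4
  · have h1 : 1 ≤ ENNReal.ofReal (K2 * ε) := by
      rw [← ENNReal.ofReal_one]
      apply ENNReal.ofReal_le_ofReal
      have : 4 ≤ K2 := by
        rw [hK2]
        have : 0 < 8 * C / c := by positivity
        linarith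
      nlinarith
    calc gf {t | t ∈ BW n ∧ r ≤ |L t|} ≤ 1 * gf (BW n) := by
          rw [one_mul]
          exact gf_mono fun t ht => ht.1
      _ ≤ _ := mul_le_mul' h1 le_rfl
  -- the typical bridges
  obtain ⟨F, hF⟩ : ∃ F : Set (List Bool), F = {u | u ∈ BLe n ∧ |L u| < r / 12} := ⟨_, rfl⟩
  have hFh : ENNReal.ofReal (V xB n / 2) ≤ gf F := by
    refine half_le (by linarith) (by linarith) (T := {t | t ∈ BU ∧ t.length ≤ 3 * n ∧ r / 12 ≤ |L t|}) ?_ hT
    rintro t ⟨h1, h2⟩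
    rcases lt_or_ge |L t| (r / 12) with h3 | h3
    · left
      rw [hF]
      exact ⟨⟨h1, h2⟩, h3⟩
    · right
      exact ⟨h1, by omega, h3⟩
  have hFB : F ⊆ BU := by
    rw [hF]
    intro t ht
    exact ht.1.1
  have hr : 0 ≤ r := by
    by_contra hr
    push Not at hr
    have h1 : F = ∅ := by
      rw [hF, Set.eq_empty_iff_forall_notMem]
      rintro t ⟨-, h1⟩
      have := abs_nonneg (L t)
      linarith
    rw [h1] at hFh
    have h2 : gf (∅ : Set (List Bool)) = 0 := by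
      unfold gf
      simp
    rw [h2, nonpos_iff_eq_zero, ENNReal.ofReal_eq_zero] at hFh
    linarith
  -- first passages
  have hpm : ∀ ρ : ℝ, r / 6 ≤ ρ → gf {s | s ∈ PM {t | ρ ≤ |L t|} ∧ s.length ≤ 2 * n} ≤ ENNReal.ofReal (2 * ε) := by
    intro ρ hρ
    have h1 : gf {s | s ∈ PM {t | ρ ≤ |L t|} ∧ s ∈ {s : List Bool | s.length ≤ 2 * n}} * gf F ≤
        gf {t | t ∈ BU ∧ t.length ≤ 3 * n ∧ r / 12 ≤ |L t|} := by
      refine stop_pre hFB fun s hs hl u hu => ?_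
      have hu' := hu
      rw [hF] at hu'
      obtain ⟨⟨hu1, hu2⟩, hu3⟩ := hu'
      have hl' : s.length ≤ 2 * n := hl
      refine ⟨app hs.1 hu1, by rw [List.length_append]; omega, ?_⟩
      rw [hL s hs.1 u hu1]
      have h2 : ρ ≤ |L s| := hs.2.1
      have h3 : |L s| ≤ |L s + L u| + |L u| := by
        have := abs_sub (L s + L u) (L u)
        rwa [add_sub_cancel_right] at this
      linarith
    have h2 : gf {s | s ∈ PM {t | ρ ≤ |L t|} ∧ s.length ≤ 2 * n} * ENNReal.ofReal (V xB n / 2) ≤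
        ENNReal.ofReal (ε * V xB n) := (mul_le_mul' le_rfl hFh).trans (h1.trans hT)
    refine (div_of_mul (by linarith) h2).trans (le_of_eq ?_)
    congr 1
    have : V xB n ≠ 0 := by linarith
    field_simp
  have hsm : ∀ ρ : ℝ, r / 6 ≤ ρ → gf {s | s ∈ SM {t | ρ ≤ |L t|} ∧ s.length ≤ 2 * n} ≤ ENNReal.ofReal (2 * ε) := by
    intro ρ hρ
    have h1 : gf {s | s ∈ SM {t | ρ ≤ |L t|} ∧ s ∈ {s : List Bool | s.length ≤ 2 * n}} * gf F ≤
        gf {t | t ∈ BU ∧ t.length ≤ 3 * n ∧ r / 12 ≤ |L t|} := by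
      refine stop_suf hFB fun s hs hl u hu => ?_
      have hu' := hu
      rw [hF] at hu'
      obtain ⟨⟨hu1, hu2⟩, hu3⟩ := hu'
      have hl' : s.length ≤ 2 * n := hl
      refine ⟨app hu1 hs.1, by rw [List.length_append]; omega, ?_⟩
      rw [hL u hu1 s hs.1]
      have h2 : ρ ≤ |L s| := hs.2.1
      have h3 : |L s| ≤ |L u + L s| + |L u| := by
        have := abs_sub (L u + L s) (L u)
        rwa [add_sub_cancel_left] at this
      linarith
    have h2 : gf {s | s ∈ SM {t | ρ ≤ |L t|} ∧ s.length ≤ 2 * n} * ENNReal.ofReal (V xB n / 2) ≤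
        ENNReal.ofReal (ε * V xB n) := (mul_le_mul' le_rfl hFh).trans (h1.trans hT)
    refine (div_of_mul (by linarith) h2).trans (le_of_eq ?_)
    congr 1
    have : V xB n ≠ 0 := by linarith
    field_simp
  -- the pieces
  obtain ⟨Q, hQ⟩ : ∃ Q : Set (List Bool), Q = {p | (p ∈ IU ∧ r / 3 ≤ |L p|) ∧ p.length ≤ n} := ⟨_, rfl⟩
  have hQw : gf Q ≤ ENNReal.ofReal (4 * ε / V xB n) := by
    have h1 : gf Q * gf (BLe n) ≤ 2 * gf {s | s ∈ PM {t | r / 6 ≤ |L t|} ∧ s.length ≤ 2 * n} := by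
      refine piece (by rw [hQ]; exact fun p hp => hp.1.1) (by rw [hQ]; exact fun p hp => hp.2) ?_ ?_
      · intro s hs p hp
        rw [hQ] at hp
        obtain ⟨⟨hp1, hp2⟩, -⟩ := hp
        rw [Set.mem_ofPred_eq, Set.mem_ofPred_eq, hL s hs p (IU_BU hp1)]
        by_contra hcon
        push Not at hcon
        have h3 : |L p| ≤ |L s + L p| + |L s| := by
          have := abs_sub (L s + L p) (L s)
          rwa [add_sub_cancel_left] at this
        linarith [hcon.1, hcon.2]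
      · refine (hpm _ le_rfl).trans ?_
        rw [show (1 / 2 : ℝ≥0∞) = ENNReal.ofReal (1 / 2) by
          rw [ENNReal.ofReal_div_of_pos (by norm_num)]
          norm_num]
        exact ENNReal.ofReal_le_ofReal (by linarith)
    rw [gf_BLe] at h1
    refine div_of_mul (by linarith) (h1.trans ?_)
    calc 2 * gf {s | s ∈ PM {t | r / 6 ≤ |L t|} ∧ s.length ≤ 2 * n} ≤ 2 * ENNReal.ofReal (2 * ε) :=
          mul_le_mul' le_rfl (hpm _ le_rfl)
      _ = ENNReal.ofReal (4 * ε) := by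
          rw [show (2 : ℝ≥0∞) = ENNReal.ofReal 2 by simp, ← ENNReal.ofReal_mul (by norm_num)]
          congr 1
          ring
  -- the covering
  have hsub : {t | t ∈ BW n ∧ r ≤ |L t|} ⊆
      {t | t ∈ BW n ∧ ∃ s ∈ BU, ∃ p ∈ {p | p ∈ IU ∧ r / 3 ≤ |L p|}, ∃ u ∈ BU, t = s ++ (p ++ u) ∧ u.length ≤ n} ∪
      ({t | t ∈ BW n ∧ ∃ s ∈ BU, ∃ u ∈ BU, t = s ++ u ∧ s.length ≤ n / 2 ∧ s ∈ {t | r / 3 ≤ |L t|}} ∪
       {t | t ∈ BW n ∧ ∃ s ∈ BU, ∃ u ∈ BU, t = s ++ u ∧ u.length ≤ n / 2 ∧ u ∈ {t | r / 3 ≤ |L t|}}) := by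
    rintro t ⟨⟨htB, htl⟩, htr⟩
    obtain ⟨s, hs, p, hp, u, hu, e, h1, h2⟩ := split_at t.length t le_rfl htB (n / 2) (by omega)
    have hl : s.length + p.length + u.length = n := by
      rw [← htl, e, List.length_append, List.length_append]
      omega
    have e2 : t = (s ++ p) ++ u := by rw [e, List.append_assoc]
    have hLt : L t = L s + (L p + L u) := by
      rw [e, hL s hs _ (app (IU_BU hp) hu), hL p (IU_BU hp) u hu]
    have h3 : |L t| ≤ |L s| + (|L p| + |L u|) := by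
      rw [hLt]
      exact (abs_add_le _ _).trans (add_le_add le_rfl (abs_add_le _ _))
    by_cases c1 : r / 3 ≤ |L p|
    · left
      exact ⟨⟨htB, htl⟩, s, hs, p, ⟨hp, c1⟩, u, hu, e, by omega⟩
    by_cases c2 : r / 3 ≤ |L s|
    · right; left
      exact ⟨⟨htB, htl⟩, s, hs, p ++ u, app (IU_BU hp) hu, e, h1, c2⟩
    right; right
    refine ⟨⟨htB, htl⟩, s ++ p, app hs (IU_BU hp), u, hu, e2, by omega, ?_⟩
    rw [Set.mem_ofPred_eq]
    push Not at c1 c2
    linarith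
  refine (gf_mono hsub).trans ((gf_union_le _ _).trans ((add_le_add le_rfl (gf_union_le _ _)).trans ?_))
  have b1 := mid h (Q := {p | p ∈ IU ∧ r / 3 ≤ |L p|}) hn (le_refl n) he
  have hn0 : (0 : ℝ) < n := by exact_mod_cast hn
  have hdd : 1 / 2 * (n : ℝ) ≤ ((n - n / 2 : ℕ) : ℝ) := by
    have : (n : ℝ) ≤ 2 * ((n - n / 2 : ℕ) : ℝ) := by exact_mod_cast (by omega : n ≤ 2 * (n - n / 2))
    linarith
  have b2 := near_pre' h (E := {t | r / 3 ≤ |L t|}) (n := n) (m := n / 2) (d := 1 / 2) (by norm_num)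
    (Nat.div_le_self _ _) hdd hn he
  have b3 := near_suf' h (E := {t | r / 3 ≤ |L t|}) (n := n) (m := n / 2) (d := 1 / 2) (by norm_num)
    (Nat.div_le_self _ _) hdd hn he
  have c2 : gf {s | s ∈ PM {t | r / 3 ≤ |L t|} ∧ s.length ≤ n / 2} ≤ ENNReal.ofReal (2 * ε) :=
    (gf_mono (Q := {s | s ∈ PM {t | r / 3 ≤ |L t|} ∧ s.length ≤ 2 * n})
      fun s hs => ⟨hs.1, by have := hs.2; omega⟩).trans (hpm (r / 3) (by linarith))
  have c3 : gf {s | s ∈ SM {t | r / 3 ≤ |L t|} ∧ s.length ≤ n / 2} ≤ ENNReal.ofReal (2 * ε) :=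
    (gf_mono (Q := {s | s ∈ SM {t | r / 3 ≤ |L t|} ∧ s.length ≤ 2 * n})
      fun s hs => ⟨hs.1, by have := hs.2; omega⟩).trans (hsm (r / 3) (by linarith))
  have c1 : gf {p | p ∈ {p | p ∈ IU ∧ r / 3 ≤ |L p|} ∧ p.length ≤ n} ≤ ENNReal.ofReal (4 * ε / V xB n) := by
    rw [hQ] at hQw
    exact hQw
  have e1 : ((n : ℝ) / n) ^ (2 * a - 1) = 1 := by
    rw [div_self hn0.ne', Real.one_rpow]
  rw [e1, mul_one] at b1
  have d1 := b1.trans (mul_le_mul' c1 le_rfl)
  have d2 := b2.trans (mul_le_mul' c2 le_rfl)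
  have d3 := b3.trans (mul_le_mul' c3 le_rfl)
  refine (add_le_add d1 (add_le_add d2 d3)).trans ?_
  rw [← mul_assoc, ← mul_assoc, ← ENNReal.ofReal_mul (by positivity), ← ENNReal.ofReal_mul (by positivity),
    ← add_mul, ← add_mul, ← ENNReal.ofReal_add (by positivity) (by positivity),
    ← ENNReal.ofReal_add (by positivity) (by positivity)]
  refine mul_le_mul' (ENNReal.ofReal_le_ofReal ?_) le_rfl
  have hV0 : V xB n ≠ 0 := by linarith
  have e2 : 4 * ε / V xB n * (KM a c C * V xB n) + (2 * ε * (C / (c * (1 / 2))) + 2 * ε * (C / (c * (1 / 2)))) =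
      (8 * C / c + 4 * KM a c C) * ε := by
    field_simp
    ring
  rw [e2, hK2]
  linarith

end E2

end HexObs
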